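import Pool.Agent.H52.SUM.Clz
import Pool.Agent.H39.GEN.Pgd
import Pool.Agent.H80.ZC.Lbw

/-!
# The facts on the slots of the zooms, from the data

`gd_near`: near slots of two samples, from the data of one request. `gdA_cl`, `gdB_cl`: the
requirement `ClR`. `qz`: the numbers of the slots of the zooms. `fct_A`, `fct_B`: the facts `Bdf` on
the slots of the zooms with these numbers, in the two cases.
-/

set_option autoImplicit false

namespace Pool.BSM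

open Finset Real MvPolynomial
open Pool.Agent.H49.Ent Pool.Agent.H32.Dense Pool.STK Pool.KA Pool.KSAT Pool.K2S Pool.PB Pool.S6C
open Pool.GEN Pool.CHT Pool.SHR Pool.ZCL Pool.ZLC Pool.ZCO Pool.ONE Pool.PKG Pool.Z3 Pool.Z4
open Pool.PSI (Cod PsN ll_law)
open Pool.ZFW (PsR)
open Pool.ZLB (SlD)

/-- **Near slots** of two samples, from the data of one request. -/
theorem gd_near {n : ℕ} (hn : 2 ≤ n) (σp : Equiv.Perm (Fin (n - 1))) {l : ℕ} (hl : l < n - 1)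
    {M : MDat} {a w lam : ℝ} {β : ℕ → ℝ → ℝ → ℝ} {Vd : Rq → Prop} (hϱ : 0 < M.ϱ)
    (hE : 0 ≤ M.E) (hlam : 0 ≤ lam)
    (hVd : ∀ (Dr : ℕ) (η σ : ℝ), 0 < η → 0 < σ → σ ≤ M.ϱ → Vd ⟨a, w, lam, Dr, η, σ⟩)
    (hd : ∀ q, Vd q → ∀ i ≤ n - 1, 0 ≤ M.d q i ∧ M.d q i ≤ q.σ) :
    ∃ C : ℕ, (∀ j ≤ n - 1, 0 ≤ β j a w ∧ β j a w + M.E + C * lam < 1) →
      ∀ {i : Fin n}, (i : ℕ) < n - 1 → ∀ {w₁ x Q : ℝ}, 0 ≤ Q → 0 ≤ x →
      Q + C * lam < β (ix l i) a w + x →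
      ∃ (q : Rq) (hq : Vd q), ∃ h₀ : ℝ, 0 < h₀ ∧ ∃ J₀ : ℕ, ∀ h : ℝ, 0 < h → h ≤ h₀ → ∀ J ≥ J₀,
      ∀ (F : Fam n J) (A : F.Ω → Prop) (V : Type) (z : PtT F → V) (z' : LnT F → V)
        (cb : V → Fin n → ℝ) (Cr : Crd n V),
        MBs (1 / 2) M w₁ (cc hn σp) (n - 1) l β [⟨q, hq⟩] h J F A V z z' cb →
        (∀ ω, A ω → Slt Cr (z' (slam F ⌊w₁ * J⌋₊ ω)) (dcb (cc hn σp) l (cb (z (ptr F J ω))))
          (cc hn σp) l (ez hn σp l) i ⌊h * J⌋₊ (1 / 2 ^ ⌊(x - h) * J⌋₊)) →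
        ∃ (Y : Type) (y : PtT F → Y) (y' : LnT F → Y),
          (∀ ω, A ω → y (ptr F J ω) = y' (slam F ⌊a * J⌋₊ ω)) ∧
          ∀ ω ω', A ω → A ω' → F.T ω = F.T ω' →
            y' (slam F ⌊a * J⌋₊ ω) = y' (slam F ⌊a * J⌋₊ ω') →
            z' (slam F ⌊w₁ * J⌋₊ ω) = z' (slam F ⌊w₁ * J⌋₊ ω') →
            (∀ j ∈ univ.filter fun j : Fin n => (j : ℕ) < i,
              |Cr.L (z' (slam F ⌊w₁ * J⌋₊ ω)) (F.x ω) (ez hn σp l j) -
                Cr.L (z' (slam F ⌊w₁ * J⌋₊ ω)) (F.x ω') (ez hn σp l j)| ≤ 7 / 2 ^ J) →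
            |Cr.L (z' (slam F ⌊w₁ * J⌋₊ ω)) (F.x ω) (ez hn σp l i) -
              Cr.L (z' (slam F ⌊w₁ * J⌋₊ ω)) (F.x ω') (ez hn σp l i)| ≤ 1 / 2 ^ ⌊Q * J⌋₊ := by
  classical
  obtain ⟨K, hK⟩ : ∃ K : ℕ, K = max (M.D a w) (M.k a w) := ⟨_, rfl⟩
  have hK1 : M.D a w ≤ K := by rw [hK]; exact le_max_left _ _
  have hK2 : M.k a w ≤ K := by rw [hK]; exact le_max_right _ _
  obtain ⟨C₁, hcs⟩ := cel_slot K (n - 1 + 1)
  obtain ⟨C₂, hsh⟩ := shr_of_shY K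
  refine ⟨C₁ * C₂, ?_⟩
  intro hβ i hi w₁ x Q hQ hx hQx
  push_cast at hβ hQx
  obtain ⟨C, hC⟩ : ∃ C : ℝ, C = (C₁ : ℝ) * C₂ := ⟨_, rfl⟩
  have hC10 : (0 : ℝ) ≤ C₁ := Nat.cast_nonneg _
  have hC20 : (0 : ℝ) ≤ C₂ := Nat.cast_nonneg _
  have hC0 : 0 ≤ C := by rw [hC]; positivity
  rw [← hC] at hβ hQx
  -- the slack
  obtain ⟨s₁, hs₁, hβs⟩ : ∃ s₁ : ℝ, 0 < s₁ ∧ ∀ j ≤ n - 1, β j a w + M.E + C * lam + s₁ ≤ 1 := by
    obtain ⟨j₀, hj₀, hmin⟩ := Finset.exists_min_image (range (n - 1 + 1))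
      (fun j => 1 - (β j a w + M.E + C * lam)) ⟨0, by simp⟩
    refine ⟨1 - (β j₀ a w + M.E + C * lam), ?_, fun j hj => ?_⟩
    · have h1 := (hβ j₀ (by have := Finset.mem_range.1 hj₀; omega)).2
      linarith
    · have h1 := hmin j (Finset.mem_range.2 (by omega))
      linarith
  obtain ⟨s, hs⟩ : ∃ s : ℝ, s = min s₁ (β (ix l i) a w + x - (Q + C * lam)) := ⟨_, rfl⟩
  have hs0 : 0 < s := by rw [hs]; exact lt_min hs₁ (by linarith)
  have hss : s ≤ s₁ := by rw [hs]; exact min_le_left _ _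
  have hsQ : Q + C * lam + s ≤ β (ix l i) a w + x := by
    have : s ≤ β (ix l i) a w + x - (Q + C * lam) := by rw [hs]; exact min_le_right _ _
    linarith
  have hs1 : s ≤ 1 := by
    have h1 := hβs 0 (Nat.zero_le _)
    have h2 := (hβ 0 (Nat.zero_le _)).1
    have h3 : 0 ≤ C * lam := by positivity
    linarith
  obtain ⟨σ, hσ⟩ : ∃ σ : ℝ, σ = min M.ϱ (s / (8 * (C + 1))) := ⟨_, rfl⟩
  have hσ0 : 0 < σ := by rw [hσ]; exact lt_min hϱ (by positivity)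
  have hσϱ : σ ≤ M.ϱ := by rw [hσ]; exact min_le_left _ _
  have hσs : (C + 1) * σ ≤ s / 8 := by
    have h1 : σ ≤ s / (8 * (C + 1)) := by rw [hσ]; exact min_le_right _ _
    rw [le_div_iff₀ (by positivity)] at h1
    linarith
  obtain ⟨η, hη⟩ : ∃ η : ℝ, η = s / (8 * (C₁ + 1)) := ⟨_, rfl⟩
  have hη0 : 0 < η := by rw [hη]; positivity
  have hηs : C₁ * η ≤ s / 8 := by
    have h1 : ((C₁ : ℝ) + 1) * η = s / 8 := by
      rw [hη]
      field_simp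
    linarith
  have hq := hVd 0 η σ hη0 hσ0 hσϱ
  obtain ⟨J₁, hJ₁⟩ := Pool.GEN.lin ((C₁ : ℝ) * (2 * C₂ + M.k a w + 1) + 5)
    (show 0 < s / 8 by positivity)
  refine ⟨_, hq, s / 8, by positivity, J₁, ?_⟩
  intro h hh hh' J hJ F A V z z' cb Cr hM hSl
  obtain ⟨T, TH, hN, hKd⟩ := hM.nod ⟨_, hq⟩ (List.mem_singleton.2 rfl)
  obtain ⟨V2, z2, z2', P2, hco⟩ := hKd.own
  replace hJ₁ := hJ₁ J hJ
  have hJr : (0 : ℝ) ≤ J := Nat.cast_nonneg J
  have hd' := hd _ hq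
  simp only at hN hco hd'
  obtain ⟨g, hg⟩ : ∃ g, g = M.g β ⟨a, w, lam, 0, η, σ⟩ J := ⟨_, rfl⟩
  have hge : ∀ j, g j = ⌊(β j a w - M.d ⟨a, w, lam, 0, η, σ⟩ j) * (J : ℝ)⌋₊ := fun j => by
    rw [hg]
    rfl
  obtain ⟨y, hy⟩ : ∃ y : ℕ, y = ⌊(β l a w + lam) * (J : ℝ)⌋₊ := ⟨_, rfl⟩
  have hdl := hd' l hl.le
  have hgy : g l ≤ y := by
    rw [hge, hy]
    exact Nat.floor_le_floor (mul_le_mul_of_nonneg_right (by linarith [hdl.1]) hJr)
  obtain ⟨h₂, hh₂⟩ : ∃ h₂ : ℕ, h₂ = C₂ * (y - g l + 1) + ⌊η * (J : ℝ)⌋₊ := ⟨_, rfl⟩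
  have hh2r : (h₂ : ℝ) ≤ C₂ * ((lam + σ) * J + 2) + η * J := by
    rw [hh₂]
    push_cast
    have h1 : (y : ℝ) ≤ (β l a w + lam) * J := by
      rw [hy]
      exact Nat.floor_le (mul_nonneg (by linarith [(hβ l hl.le).1]) hJr)
    have h2 : (β l a w - M.d ⟨a, w, lam, 0, η, σ⟩ l) * (J : ℝ) < g l + 1 := by
      rw [hge]
      exact Nat.lt_floor_add_one _
    have h3 : ((y - g l : ℕ) : ℝ) = y - g l := by
      rw [Nat.cast_sub hgy]
    have h4 : (y : ℝ) - g l + 1 ≤ (lam + σ) * J + 2 := by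
      have h5 := mul_le_mul_of_nonneg_right hdl.2 hJr
      have e1 : (β l a w - M.d ⟨a, w, lam, 0, η, σ⟩ l) * (J : ℝ) =
        β l a w * J - M.d ⟨a, w, lam, 0, η, σ⟩ l * J := by ring
      have e2 : (β l a w + lam) * (J : ℝ) = β l a w * J + lam * J := by ring
      have e3 : (lam + σ) * (J : ℝ) = lam * J + σ * J := by ring
      linarith
    have h5 := mul_le_mul_of_nonneg_left h4 hC20
    have h6 : ((⌊η * (J : ℝ)⌋₊ : ℕ) : ℝ) ≤ η * J := Nat.floor_le (by positivity)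
    rw [h3]
    linarith
  -- the total loss
  have hloss : (C₁ : ℝ) * (h₂ + M.k a w + 1) + 5 ≤
      (C * lam + C * σ + C₁ * η + s / 8) * J := by
    have h1 := mul_le_mul_of_nonneg_left hh2r hC10
    have e1 : (C₁ : ℝ) * (C₂ * ((lam + σ) * J + 2) + η * J) =
        (C * lam + C * σ + C₁ * η) * J + 2 * (C₁ * C₂) := by
      rw [hC]
      ring
    rw [e1] at h1
    have e2 : (C₁ : ℝ) * (h₂ + M.k a w + 1) = C₁ * h₂ + C₁ * (M.k a w + 1) := by ring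
    have e3 : (C₁ : ℝ) * (2 * C₂ + M.k a w + 1) = 2 * (C₁ * C₂) + C₁ * (M.k a w + 1) := by ring
    have e4 : (C * lam + C * σ + C₁ * η + s / 8) * (J : ℝ) =
        (C * lam + C * σ + C₁ * η) * J + s / 8 * J := by ring
    rw [e2, e4]
    linarith
  obtain ⟨μ, hμ⟩ : ∃ μ : ℕ, μ = ⌊h * (J : ℝ)⌋₊ := ⟨_, rfl⟩
  have hμr : (μ : ℝ) ≤ s / 8 * J := by
    rw [hμ]
    exact (Nat.floor_le (by positivity)).trans (mul_le_mul_of_nonneg_right hh' hJr)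
  have hsJ : s * (J : ℝ) ≤ J := by
    have := mul_le_mul_of_nonneg_right hs1 hJr
    linarith
  have hmuJ : 3 + μ ≤ J := by
    have h1 : ((3 + μ : ℕ) : ℝ) ≤ J := by
      push_cast
      have h2 : (0 : ℝ) ≤ (C₁ : ℝ) * (2 * C₂ + M.k a w + 1) := by positivity
      linarith
    exact_mod_cast h1
  have hge_le : ∀ j ≤ n - 1, (g j : ℝ) ≤ β j a w * J := by
    intro j hj
    rw [hge]
    rcases le_or_gt 0 (β j a w - M.d ⟨a, w, lam, 0, η, σ⟩ j) with h1 | h1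
    · refine (Nat.floor_le (mul_nonneg h1 hJr)).trans ?_
      exact mul_le_mul_of_nonneg_right (by linarith [(hd' j hj).1]) hJr
    · rw [Nat.floor_of_nonpos (mul_nonpos_of_nonpos_of_nonneg h1.le hJr), Nat.cast_zero]
      exact mul_nonneg (hβ j hj).1 hJr
  have hcσ : C * σ + σ = (C + 1) * σ := by ring
  have hsup : ∀ i < n - 1 + 1, ∀ l < i, ⌊(M.E + σ) * (J : ℝ)⌋₊ +
      C₁ * (h₂ + M.k a w + 1) + (Finset.Icc l i).sup g ≤ J - (3 + μ) := by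
    intro i hi l hl
    obtain ⟨j, hj, hjs⟩ := Finset.exists_mem_eq_sup (Finset.Icc l i)
      ⟨i, Finset.mem_Icc.2 ⟨hl.le, le_rfl⟩⟩ g
    rw [hjs]
    have hj1 : j ≤ n - 1 := by
      have := (Finset.mem_Icc.1 hj).2
      omega
    have h1 := hge_le j hj1
    have h2 : ((⌊(M.E + σ) * (J : ℝ)⌋₊ : ℕ) : ℝ) ≤ (M.E + σ) * J :=
      Nat.floor_le (mul_nonneg (by linarith) hJr)
    have h3 := mul_le_mul_of_nonneg_right (hβs j hj1) hJr
    have h4 := mul_le_mul_of_nonneg_right hσs hJr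
    have h5 := mul_le_mul_of_nonneg_right hηs hJr
    have h6 := mul_le_mul_of_nonneg_right hss hJr
    have h7 : ((⌊(M.E + σ) * (J : ℝ)⌋₊ + C₁ * (h₂ + M.k a w + 1) + g j + (3 + μ) : ℕ) : ℝ) ≤ J := by
      push_cast
      have e1 : (β j a w + M.E + C * lam + s₁) * (J : ℝ) =
        β j a w * J + M.E * J + C * lam * J + s₁ * J := by ring
      have e2 : (M.E + σ) * (J : ℝ) = M.E * J + σ * J := by ring
      have e3 : (C * lam + C * σ + C₁ * η + s / 8) * (J : ℝ) =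
        C * lam * J + (C * σ + σ) * J - σ * J + C₁ * η * J + s / 8 * J := by ring
      have e4 : s / 8 * (J : ℝ) = s * J / 8 := by ring
      rw [e3, hcσ] at hloss
      rw [e4] at *
      linarith
    have h8 : ⌊(M.E + σ) * (J : ℝ)⌋₊ + C₁ * (h₂ + M.k a w + 1) + g j + (3 + μ) ≤ J := by
      exact_mod_cast h7
    omega
  have hmain := hcs (n := n) (J := J) (F := F) (c := cc hn σp) (r₁ := n - 1 + 1)
    (w' := ⌊a * (J : ℝ)⌋₊) (W := ⌊w₁ * (J : ℝ)⌋₊) (l := l) (h := h₂) (μ := μ) (g := g) (B := A)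
    (v := fun y => dcb (cc hn σp) l (cb (z y))) (Cr := Cr) (ζ' := z') (ε := ez hn σp l) (i := i)
    (s := 1 / 2 ^ ⌊(x - h) * (J : ℝ)⌋₊) le_rfl (cc_injOn hn σp)
    (by
      rw [hg]
      exact hN.nod.top.mono le_rfl (fun _ => hK1) le_rfl le_rfl)
    (by
      rw [hg]
      exact hco.mono le_rfl hK2 le_rfl) hmuJ hsup
    (fun ω hω => ⟨dcb_u _, fun j hj => dcb_lt (cc_injOn hn σp) (by omega) _ hj⟩)
    (fun ω hω j h1 h2 => by
      rw [hh₂]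
      refine hsh ((hN.nod.top.degG _ j).trans hK1) hgy ?_
      rw [hy, hg]
      exact hN.shr ω hω j h1 h2) (by positivity) (by
      have := ix_le (l := l) hi
      omega) (fun ω hω => by
      rw [hμ]
      exact hSl ω hω)
  refine ⟨V2, z2, z2', hco.cls, fun ω ω' hω hω' hT hyy hzz hj => ?_⟩
  refine (hmain ω ω' hω hω' hT hyy hzz fun j hj' => hj j (by
    rw [Finset.mem_filter]
    exact ⟨Finset.mem_univ _, hj'⟩)).trans ?_
  -- the precision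
  have hix := ix_le (l := l) hi
  have h1 : (β (ix l i) a w - σ) * (J : ℝ) ≤ g (ix l i) + 1 := by
    rw [hge]
    have h2 := Nat.lt_floor_add_one ((β (ix l i) a w - M.d ⟨a, w, lam, 0, η, σ⟩ (ix l i)) *
      (J : ℝ))
    have h3 := mul_le_mul_of_nonneg_right (show β (ix l i) a w - σ ≤ β (ix l i) a w -
      M.d ⟨a, w, lam, 0, η, σ⟩ (ix l i) by linarith [(hd' _ hix).2]) hJr
    linarith
  have h2 : x * (J : ℝ) - h * J ≤ ⌊(x - h) * (J : ℝ)⌋₊ + 1 := by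
    have := (Nat.lt_floor_add_one ((x - h) * (J : ℝ))).le
    linarith
  have h3 : ((⌊Q * (J : ℝ)⌋₊ : ℕ) : ℝ) ≤ Q * J := Nat.floor_le (by positivity)
  have h4 : ⌊Q * (J : ℝ)⌋₊ + C₁ * (h₂ + M.k a w + 1) ≤ ⌊(x - h) * (J : ℝ)⌋₊ + g (ix l i) := by
    have h5 : ((⌊Q * (J : ℝ)⌋₊ + C₁ * (h₂ + M.k a w + 1) : ℕ) : ℝ) ≤
        ((⌊(x - h) * (J : ℝ)⌋₊ + g (ix l i) : ℕ) : ℝ) := by
      push_cast
      have h6 := mul_le_mul_of_nonneg_right hsQ hJr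
      have h7 := mul_le_mul_of_nonneg_right hσs hJr
      have h8 := mul_le_mul_of_nonneg_right hηs hJr
      have h9 := mul_le_mul_of_nonneg_right hh' hJr
      have e1 : (Q + C * lam + s) * (J : ℝ) = Q * J + C * lam * J + s * J := by ring
      have e2 : (β (ix l i) a w + x) * (J : ℝ) = β (ix l i) a w * J + x * J := by ring
      have e3 : (C * lam + C * σ + C₁ * η + s / 8) * (J : ℝ) =
        C * lam * J + (C * σ + σ) * J - σ * J + C₁ * η * J + s / 8 * J := by ring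
      have e4 : s / 8 * (J : ℝ) = s * J / 8 := by ring
      have e6 : (β (ix l i) a w - σ) * (J : ℝ) = β (ix l i) a w * J - σ * J := by ring
      have e7 : 0 ≤ s * (J : ℝ) := by positivity
      rw [e3, hcσ] at hloss
      rw [e1, e2] at h6
      rw [e6] at h1
      rw [e4] at h7 h8 h9 hloss
      linarith
    exact_mod_cast h5
  rw [one_div_mul_eq_div, div_div, div_le_div_iff₀ (by positivity) (by positivity), one_mul,
    ← pow_add, ← pow_add]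
  exact pow_le_pow_right₀ one_le_two (by omega)

section

variable {n : ℕ} (hn : 2 ≤ n) (σp : Equiv.Perm (Fin (n - 1))) {l : ℕ} (hl : l < n - 1)

/-- **The requirement of the cells, case A.** -/
theorem gdA_cl {M : MDat} {a w lam : ℝ} {β : ℕ → ℝ → ℝ → ℝ} {Vd : Rq → Prop} (hϱ : 0 < M.ϱ)
    (hE : 0 ≤ M.E) (hlam : 0 ≤ lam)
    (hVd : ∀ (Dr : ℕ) (η σ : ℝ), 0 < η → 0 < σ → σ ≤ M.ϱ → Vd ⟨a, w, lam, Dr, η, σ⟩)
    (hd : ∀ q, Vd q → ∀ i ≤ n - 1, 0 ≤ M.d q i ∧ M.d q i ≤ q.σ) :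
    ∃ C : ℕ, (∀ j ≤ n - 1, 0 ≤ β j a w ∧ β j a w + M.E + C * lam < 1) →
      ∀ {i : Fin n}, (i : ℕ) < n - 1 → ∀ {w₁ Q h' : ℝ}, 0 ≤ Q → 0 < h' →
      Q + C * lam < β (ix l i) a w →
      GdA hn σp hl M w₁ β Vd (ClR w₁ (ez hn σp l) (univ.filter fun j : Fin n => (j : ℕ) < i) i a
        Q h') := by
  obtain ⟨C, hnear⟩ := gd_near hn σp hl hϱ hE hlam hVd hd
  refine ⟨C, ?_⟩
  intro hβ i hi w₁ Q h' hQ hh' hQx
  obtain ⟨q, hq, h₁, hh₁, J₁, hN⟩ := hnear hβ hi (w₁ := w₁) hQ le_rfl (by rwa [add_zero])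
  obtain ⟨L, h₂, hh₂, J₂, hP⟩ := gdA_ps hn σp (hl := hl) (M := M) (w₁ := w₁) (β := β) (Vd := Vd)
    (x := 0) hh'
  refine ⟨L ++ [⟨q, hq⟩], min h₁ h₂, lt_min hh₁ hh₂, max J₁ J₂, ?_⟩
  intro h hh hhh J hJ F A V z z' cb hc hM
  refine ⟨fun ω hω => (hP h hh (hhh.trans (min_le_right _ _)) J ((le_max_right _ _).trans hJ) F A
    V z z' cb hc (hM.anti (List.subset_append_left _ _)) ω hω).1, ?_⟩
  refine hN h hh (hhh.trans (min_le_left _ _)) J ((le_max_left _ _).trans hJ) F A V z z' cb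
    (CrA hn σp hl h J cb) (hM.anti (List.subset_append_right _ _)) fun ω hω => ?_
  have h1 : ⌊(0 - h) * (J : ℝ)⌋₊ = 0 := Nat.floor_of_nonpos
    (mul_nonpos_of_nonpos_of_nonneg (by linarith) (Nat.cast_nonneg J))
  rw [h1, pow_zero, div_one, hM.cls ω hω]
  exact slt_A hn σp (hM.sml ω hω) (hc ω hω) hi

/-- **The requirement of the cells, case B.** -/
theorem gdB_cl {M : MDat} {a w lam : ℝ} {β : ℕ → ℝ → ℝ → ℝ} {Vd : Rq → Prop} (hϱ : 0 < M.ϱ)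
    (hE : 0 ≤ M.E) (hlam : 0 ≤ lam)
    (hVd : ∀ (Dr : ℕ) (η σ : ℝ), 0 < η → 0 < σ → σ ≤ M.ϱ → Vd ⟨a, w, lam, Dr, η, σ⟩)
    (hd : ∀ q, Vd q → ∀ i ≤ n - 1, 0 ≤ M.d q i ∧ M.d q i ≤ q.σ) :
    ∃ C : ℕ, (∀ j ≤ n - 1, 0 ≤ β j a w ∧ β j a w + M.E + C * lam < 1) →
      ∀ {i : Fin n}, (i : ℕ) < n - 1 → ∀ {w₁ xs Q h' : ℝ}, 0 ≤ xs → 0 ≤ Q → 0 < h' →
      Q + C * lam < β (ix l i) a w + (if (i : ℕ) = n - 2 then xs else 0) →
      GdB hn σp hl M w₁ xs β Vd (ClR w₁ (ez hn σp l) (univ.filter fun j : Fin n => (j : ℕ) < i) i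
        a Q h') := by
  obtain ⟨C, hnear⟩ := gd_near hn σp hl hϱ hE hlam hVd hd
  refine ⟨C, ?_⟩
  intro hβ i hi w₁ xs Q h' hxs hQ hh' hQx
  obtain ⟨x, hx⟩ : ∃ x : ℝ, x = if (i : ℕ) = n - 2 then xs else 0 := ⟨_, rfl⟩
  have hx0 : 0 ≤ x := by
    rw [hx]
    split_ifs
    · exact hxs
    · exact le_rfl
  rw [← hx] at hQx
  obtain ⟨q, hq, h₁, hh₁, J₁, hN⟩ := hnear hβ hi (w₁ := w₁) hQ hx0 hQx
  obtain ⟨L, h₂, hh₂, J₂, hP⟩ := gdB_ps hn σp (hl := hl) (M := M) (w₁ := w₁) (xs := xs) (β := β)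
    (Vd := Vd) (x := xs + 1) hh' (by linarith)
  refine ⟨L ++ [⟨q, hq⟩], min h₁ h₂, lt_min hh₁ hh₂, max J₁ J₂, ?_⟩
  intro h hh hhh J hJ F A V z z' cb hc hM
  refine ⟨fun ω hω => (hP h hh (hhh.trans (min_le_right _ _)) J ((le_max_right _ _).trans hJ) F A
    V z z' cb hc (hM.anti (List.subset_append_left _ _)) ω hω).1, ?_⟩
  refine hN h hh (hhh.trans (min_le_left _ _)) J ((le_max_left _ _).trans hJ) F A V z z' cb
    (CrB hn σp hl h J cb) (hM.anti (List.subset_append_right _ _)) fun ω hω => ?_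
  rw [hM.cls ω hω]
  by_cases hi2 : (i : ℕ) = n - 2
  · rw [hx, if_pos hi2]
    exact slt_N hn σp (hM.sml ω hω) (hc ω hω).1 (hc ω hω).2.1 hi2
  · have h1 : ⌊(x - h) * (J : ℝ)⌋₊ = 0 := by
      rw [hx, if_neg hi2]
      exact Nat.floor_of_nonpos
        (mul_nonpos_of_nonpos_of_nonneg (by linarith) (Nat.cast_nonneg J))
    rw [h1, pow_zero, div_one]
    exact slt_B hn σp (hM.sml ω hω) (hc ω hω).1 (by omega)

end

/-! ### The numbers of the slots of the zooms -/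

section

variable {n : ℕ} {hn : 2 ≤ n} {S : PCl n} {P : ℝ → ℝ → ℝ} {r : ℝ → ℝ}
  {P' : ℕ → List (Fin n) × Fin n → ℝ → ℝ → ℝ} {Λ : Finset (Fin n) → Fin n → ℝ → ℝ → ℝ}
  {o : Od n} {l : ℕ} {w₁ xs b₁ : ℝ} {M : MDat} {β : ℕ → ℝ → ℝ → ℝ} {Vd : Rq → Prop}

/-- **The numbers of the slots** of the zooms. -/
noncomputable def qz (hn : 2 ≤ n) (P : ℝ → ℝ → ℝ) (P' : ℕ → List (Fin n) × Fin n → ℝ → ℝ → ℝ)
    (o : Od n) (l : ℕ) (w₁ xs : ℝ) (i : ℕ) (x : ℝ) : ℝ :=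
  nmz w₁ (if i = n - 2 then -xs else 0) (LL hn P P' o (ix l i + 1) (rho w₁ x) (rho w₁ x))

theorem qz_mul (h1 : w₁ < 1) (i : ℕ) (x : ℝ) : qz hn P P' o l w₁ xs i x * (1 - w₁) =
    LL hn P P' o (ix l i + 1) (rho w₁ x) (rho w₁ x) + (if i = n - 2 then xs else 0) - w₁ := by
  unfold qz
  rw [mul_comm, nmz_mul h1]
  split_ifs <;> ring

theorem qz_ge (H : Pk hn S P r P' Λ) (h0 : 0 < w₁) (h1 : w₁ < 1) (hxs : 0 ≤ xs) {i : ℕ}
    (hi : i < n - 1) {x : ℝ} (hx0 : 0 ≤ x) (hx1 : x ≤ 1) :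
    x ≤ qz hn P P' o l w₁ xs i x := by
  have h01 : 0 < 1 - w₁ := by linarith
  have e1 := qz_mul (hn := hn) (P := P) (P' := P') (o := o) (l := l) (xs := xs) h1 i x
  have hr : rho w₁ x = w₁ + (1 - w₁) * x := rfl
  have h2 := mul_nonneg h01.le hx0
  have h3 := mul_le_mul_of_nonneg_left hx1 h01.le
  have h4 := ((ll_law (o := o) H (ix_le (l := l) hi)).2 (rho w₁ x) (rho w₁ x)
    (by rw [hr]; linarith) le_rfl (by rw [hr]; linarith)).1
  rw [hr] at h4 e1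
  have h5 : (0 : ℝ) ≤ if i = n - 2 then xs else 0 := by
    split_ifs
    · exact hxs
    · exact le_rfl
  have h6 : x * (1 - w₁) ≤ qz hn P P' o l w₁ xs i x * (1 - w₁) := by
    rw [e1]
    linarith
  exact le_of_mul_le_mul_right h6 h01

theorem qz_le (h1 : w₁ < 1) (hxE : xs ≤ M.E) (hE : 0 ≤ M.E) (hϱ : 0 < M.ϱ) {x : ℝ}
    (hN : PsN hn P P' o M β Vd (rho w₁ x)) {i : ℕ} (hi : i < n - 1) :
    qz hn P P' o l w₁ xs i x ≤ 1 := by
  have h01 : 0 < 1 - w₁ := by linarith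
  have e1 := qz_mul (hn := hn) (P := P) (P' := P') (o := o) (l := l) (xs := xs) h1 i x
  have h2 := hN.le _ (ix_le (l := l) hi)
  have h5 : (if i = n - 2 then xs else 0) ≤ M.E := by
    split_ifs
    · exact hxE
    · exact hE
  have h6 : qz hn P P' o l w₁ xs i x * (1 - w₁) ≤ 1 * (1 - w₁) := by
    rw [e1]
    linarith
  exact le_of_mul_le_mul_right h6 h01

/-- **The facts on the slots of the zooms, case A.** -/
theorem fct_A (H : Pk hn S P r P' Λ) (hF : FZX (n - 1)) (hl : l < n - 1) (hw0 : 0 < w₁)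
    (hw1 : w₁ < 1) (hb : b₁ ≤ 1) (hE : 0 ≤ M.E) (hϱ : 0 < M.ϱ)
    (hd : ∀ q, Vd q → ∀ i ≤ n - 1, 0 ≤ M.d q i ∧ M.d q i ≤ q.σ) {X : Set ℝ}
    (hX : ∀ x ∈ X, rho w₁ x ∈ Gs P r P' Λ o ∧ PsN hn P P' o M β Vd (rho w₁ x))
    (y : Fct n b₁ X (qz hn P P' o l w₁ 0)) :
    ∃ q : {R : DtP n // GdA hn o.1.1 hl M w₁ β Vd R}, ZPr S w₁ (ez hn o.1.1 l) q.1
      (fun J G B => ¬ Bdf 8 b₁ X (qz hn P P' o l w₁ 0) y J G B) := by
  have h01 : 0 < 1 - w₁ := by linarith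
  refine bdf_zpr (Rq := fun q : {R : DtP n // GdA hn o.1.1 hl M w₁ β Vd R} => q.1) ?_ ?_ y
  · intro i hi1 hi2 x hx hxb v hv0 hvx h hh hqh K
    have e1 := qz_mul (hn := hn) (P := P) (P' := P') (o := o) (l := l) (xs := 0) hw1 i x
    have hv0' : (0 : ℝ) < v := by exact_mod_cast hv0
    have h2 := qz_ge (o := o) (l := l) (xs := 0) H hw0 hw1 le_rfl hi2 (x := x) (by linarith)
      (by linarith)
    have h3 := mul_pos hh h01
    have e2 : (if (i : ℕ) = n - 2 then (0 : ℝ) else 0) = 0 := by split_ifs <;> rfl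
    rw [e2, add_zero] at e1
    have e3 : (qz hn P P' o l w₁ 0 i x + h) * (1 - w₁) =
      qz hn P P' o l w₁ 0 i x * (1 - w₁) + h * (1 - w₁) := by ring
    refine ⟨⟨_, gdA_sl hn o.1.1 hi2 (ε := h * (1 - w₁) / 2) (by linarith)⟩,
      H.phi2v_zpr hF 2 hw0 hw1 (hX x hx).1 hv0'.le (by linarith) ?_ (by linarith) hqh
      (by linarith) _ i hi2 ?_ K⟩
    · unfold rho
      have := mul_lt_mul_of_pos_right hvx h01
      linarith
    · rw [e3, e1]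
      linarith
  · intro i hi1 hi2 x hx hx0 v hxv hvb h hh τ hτ
    obtain ⟨hg, hN⟩ := hX x hx
    have e1 := qz_mul (hn := hn) (P := P) (P' := P') (o := o) (l := l) (xs := 0) hw1 i x
    have e2 : (if (i : ℕ) = n - 2 then (0 : ℝ) else 0) = 0 := by split_ifs <;> rfl
    rw [e2, add_zero] at e1
    have hr : rho w₁ x = w₁ + (1 - w₁) * x := rfl
    have hr1 := mul_pos h01 hx0
    have hix := ix_le (l := l) hi2
    have h2 := ((ll_law (o := o) H hix).2 (rho w₁ x) (rho w₁ x)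
      (by rw [hr]; linarith) le_rfl hg.1.1.2.1.le).1
    have h3 := qz_le (l := l) (xs := 0) hw1 hE hE hϱ hN hi2
    have h4 := mul_pos hh h01
    obtain ⟨Lv, hLv⟩ : ∃ Lv, Lv = LL hn P P' o (ix l i + 1) (rho w₁ x) (rho w₁ x) := ⟨_, rfl⟩
    rw [← hLv] at e1 h2
    obtain ⟨Q, hQ⟩ : ∃ Q, Q = (max w₁ (Lv - h * (1 - w₁)) + Lv) / 2 := ⟨_, rfl⟩
    have hm : max w₁ (Lv - h * (1 - w₁)) < Lv := max_lt (by rw [hr] at h2; linarith)
      (by linarith)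
    have hQ1 : w₁ < Q := by
      have := le_max_left w₁ (Lv - h * (1 - w₁))
      rw [hQ]
      linarith
    have hQ2 : Lv - h * (1 - w₁) < Q := by
      have := le_max_right w₁ (Lv - h * (1 - w₁))
      rw [hQ]
      linarith
    have hQ3 : Q < Lv := by rw [hQ]; linarith
    obtain ⟨h', hh', hz⟩ := cel_zpr (C₀ := 6) (by norm_num) H.tmc hw0 hw1 (b := rho w₁ x)
      (v := v) (Q := Q) (q := qz hn P P' o l w₁ 0 i x - h) (by linarith) (by linarith)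
      (by
        rw [hr]
        have := mul_lt_mul_of_pos_right hxv h01
        linarith) hQ1 (by linarith) (by
        have e3 : (qz hn P P' o l w₁ 0 i x - h) * (1 - w₁) =
          qz hn P P' o l w₁ 0 i x * (1 - w₁) - h * (1 - w₁) := by ring
        rw [e3, e1]
        linarith) (ez hn o.1.1 l) (univ.filter fun j : Fin n => (j : ℕ) < i) i hτ
    obtain ⟨C, hcl⟩ := gdA_cl hn o.1.1 hl (a := rho w₁ x) (w := rho w₁ x) (lam := 0) (β := β)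
      (Vd := Vd) hϱ hE le_rfl hN.vd hd
    refine ⟨⟨_, hcl (fun j hj => ?_) hi2 (w₁ := w₁) (Q := Q) (by linarith) hh' ?_⟩, hz⟩
    · rw [hN.eq j hj]
      have h5 := hN.le j hj
      have h6 := ((ll_law (o := o) H hj).2 (rho w₁ x) (rho w₁ x)
        (by rw [hr]; linarith) le_rfl hg.1.1.2.1.le).1
      rw [hr] at h6
      rw [mul_zero]
      rw [hr] at h5 ⊢
      constructor <;> linarith
    · rw [hN.eq _ hix, ← hLv, mul_zero]
      linarith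

/-- The numbers of the slots are at most `1`. -/
theorem qz_le1 (h1 : w₁ < 1) (hE : 0 ≤ M.E) (hϱ : 0 < M.ϱ) {x : ℝ}
    (hx : LL hn P P' o (ix l (n - 2) + 1) (rho w₁ x) (rho w₁ x) + xs ≤ 1)
    (hN : PsN hn P P' o M β Vd (rho w₁ x)) {i : ℕ} (hi : i < n - 1) :
    qz hn P P' o l w₁ xs i x ≤ 1 := by
  have h01 : 0 < 1 - w₁ := by linarith
  have e1 := qz_mul (hn := hn) (P := P) (P' := P') (o := o) (l := l) (xs := xs) h1 i x
  have h6 : qz hn P P' o l w₁ xs i x * (1 - w₁) ≤ 1 * (1 - w₁) := by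
    rw [e1]
    split_ifs with h7
    · rw [h7]
      linarith
    · have h2 := hN.le _ (ix_le (l := l) hi)
      linarith
  exact le_of_mul_le_mul_right h6 h01

/-- **The facts on the slots of the zooms, case B**, the number being at most `1`. -/
theorem fct_B1 (H : Pk hn S P r P' Λ) (hF : FZX (n - 1)) (hl : l < n - 1) (hw0 : 0 < w₁)
    (hw1 : w₁ < 1) (hb : b₁ ≤ 1) (hxs : 0 ≤ xs) (hE : 0 ≤ M.E) (hϱ : 0 < M.ϱ)
    (hd : ∀ q, Vd q → ∀ i ≤ n - 1, 0 ≤ M.d q i ∧ M.d q i ≤ q.σ) {X : Set ℝ}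
    (hX : ∀ x ∈ X, rho w₁ x ∈ Gs P r P' Λ o ∧ PsN hn P P' o M β Vd (rho w₁ x))
    (hq1 : ∀ x ∈ X, ∀ i < n - 1, qz hn P P' o l w₁ xs i x ≤ 1)
    (y : Fct n b₁ X (qz hn P P' o l w₁ xs)) :
    ∃ q : {R : DtP n // GdB hn o.1.1 hl M w₁ xs β Vd R}, ZPr S w₁ (ez hn o.1.1 l) q.1
      (fun J G B => ¬ Bdf 8 b₁ X (qz hn P P' o l w₁ xs) y J G B) := by
  have h01 : 0 < 1 - w₁ := by linarith
  refine bdf_zpr (Rq := fun q : {R : DtP n // GdB hn o.1.1 hl M w₁ xs β Vd R} => q.1) ?_ ?_ y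
  · intro i hi1 hi2 x hx hxb v hv0 hvx h hh hqh K
    have e1 := qz_mul (hn := hn) (P := P) (P' := P') (o := o) (l := l) (xs := xs) hw1 i x
    have hv0' : (0 : ℝ) < v := by exact_mod_cast hv0
    have h2 := qz_ge (o := o) (l := l) (xs := xs) H hw0 hw1 hxs hi2 (x := x) (by linarith)
      (by linarith)
    have h3 := mul_pos hh h01
    obtain ⟨xi, hxi⟩ : ∃ xi : ℝ, xi = if (i : ℕ) = n - 2 then xs else 0 := ⟨_, rfl⟩
    have hxi0 : 0 ≤ xi := by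
      rw [hxi]
      split_ifs
      · exact hxs
      · exact le_rfl
    rw [← hxi] at e1
    have e3 : (qz hn P P' o l w₁ xs i x + h) * (1 - w₁) =
      qz hn P P' o l w₁ xs i x * (1 - w₁) + h * (1 - w₁) := by ring
    refine ⟨⟨_, gdB_sl hn o.1.1 hxs hi2 (ε := xi + h * (1 - w₁) / 2) (by linarith)
      fun hi3 => ?_⟩, H.phi2v_zpr hF 2 hw0 hw1 (hX x hx).1 hv0'.le (by linarith) ?_ (by linarith)
      hqh (by linarith) _ i hi2 ?_ K⟩
    · rw [hxi, if_pos hi3]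
      linarith
    · unfold rho
      have := mul_lt_mul_of_pos_right hvx h01
      linarith
    · rw [e3, e1]
      linarith
  · intro i hi1 hi2 x hx hx0 v hxv hvb h hh τ hτ
    obtain ⟨hg, hN⟩ := hX x hx
    have e1 := qz_mul (hn := hn) (P := P) (P' := P') (o := o) (l := l) (xs := xs) hw1 i x
    obtain ⟨xi, hxi⟩ : ∃ xi : ℝ, xi = if (i : ℕ) = n - 2 then xs else 0 := ⟨_, rfl⟩
    have hxi0 : 0 ≤ xi := by
      rw [hxi]
      split_ifs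
      · exact hxs
      · exact le_rfl
    rw [← hxi] at e1
    have hr : rho w₁ x = w₁ + (1 - w₁) * x := rfl
    have hr1 := mul_pos h01 hx0
    have hix := ix_le (l := l) hi2
    have h2 := ((ll_law (o := o) H hix).2 (rho w₁ x) (rho w₁ x)
      (by rw [hr]; linarith) le_rfl hg.1.1.2.1.le).1
    have h3 := hq1 x hx i hi2
    have h4 := mul_pos hh h01
    obtain ⟨Lv, hLv⟩ : ∃ Lv, Lv = LL hn P P' o (ix l i + 1) (rho w₁ x) (rho w₁ x) := ⟨_, rfl⟩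
    rw [← hLv] at e1 h2
    obtain ⟨Q, hQ⟩ : ∃ Q, Q = (max w₁ (Lv + xi - h * (1 - w₁)) + (Lv + xi)) / 2 := ⟨_, rfl⟩
    have hm : max w₁ (Lv + xi - h * (1 - w₁)) < Lv + xi := max_lt (by rw [hr] at h2; linarith)
      (by linarith)
    have hQ1 : w₁ < Q := by
      have := le_max_left w₁ (Lv + xi - h * (1 - w₁))
      rw [hQ]
      linarith
    have hQ2 : Lv + xi - h * (1 - w₁) < Q := by
      have := le_max_right w₁ (Lv + xi - h * (1 - w₁))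
      rw [hQ]
      linarith
    have hQ3 : Q < Lv + xi := by rw [hQ]; linarith
    obtain ⟨h', hh', hz⟩ := cel_zpr (C₀ := 6) (by norm_num) H.tmc hw0 hw1 (b := rho w₁ x)
      (v := v) (Q := Q) (q := qz hn P P' o l w₁ xs i x - h) (by linarith) (by linarith)
      (by
        rw [hr]
        have := mul_lt_mul_of_pos_right hxv h01
        linarith) hQ1 (by linarith) (by
        have e3 : (qz hn P P' o l w₁ xs i x - h) * (1 - w₁) =
          qz hn P P' o l w₁ xs i x * (1 - w₁) - h * (1 - w₁) := by ring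
        rw [e3, e1]
        linarith) (ez hn o.1.1 l) (univ.filter fun j : Fin n => (j : ℕ) < i) i hτ
    obtain ⟨C, hcl⟩ := gdB_cl hn o.1.1 hl (a := rho w₁ x) (w := rho w₁ x) (lam := 0) (β := β)
      (Vd := Vd) hϱ hE le_rfl hN.vd hd
    refine ⟨⟨_, hcl (fun j hj => ?_) hi2 (w₁ := w₁) (xs := xs) (Q := Q) hxs (by linarith) hh'
      ?_⟩, hz⟩
    · rw [hN.eq j hj]
      have h5 := hN.le j hj
      have h6 := ((ll_law (o := o) H hj).2 (rho w₁ x) (rho w₁ x)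
        (by rw [hr]; linarith) le_rfl hg.1.1.2.1.le).1
      rw [hr] at h6
      rw [mul_zero]
      rw [hr] at h5 ⊢
      constructor <;> linarith
    · rw [hN.eq _ hix, ← hLv, mul_zero, ← hxi]
      linarith

/-- **The facts on the slots of the zooms, case B.** -/
theorem fct_B (H : Pk hn S P r P' Λ) (hF : FZX (n - 1)) (hl : l < n - 1) (hw0 : 0 < w₁)
    (hw1 : w₁ < 1) (hb : b₁ ≤ 1) (hxs : 0 ≤ xs) (hxE : xs ≤ M.E) (hϱ : 0 < M.ϱ)
    (hd : ∀ q, Vd q → ∀ i ≤ n - 1, 0 ≤ M.d q i ∧ M.d q i ≤ q.σ) {X : Set ℝ}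
    (hX : ∀ x ∈ X, rho w₁ x ∈ Gs P r P' Λ o ∧ PsN hn P P' o M β Vd (rho w₁ x))
    (y : Fct n b₁ X (qz hn P P' o l w₁ xs)) :
    ∃ q : {R : DtP n // GdB hn o.1.1 hl M w₁ xs β Vd R}, ZPr S w₁ (ez hn o.1.1 l) q.1
      (fun J G B => ¬ Bdf 8 b₁ X (qz hn P P' o l w₁ xs) y J G B) :=
  fct_B1 H hF hl hw0 hw1 hb hxs (hxs.trans hxE) hϱ hd hX
    (fun x hx _ hi => qz_le hw1 hxE (hxs.trans hxE) hϱ (hX x hx).2 hi) y

end

end Pool.BSM
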