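import Pool.Agent.H52.SUM.Clg
import Pool.Agent.H77.Z4.Cnt
import Pool.Agent.H77.Z4.Ph

/-!
# The windows of the grid in the zooms

`rat_hit`: two sets of positive measure meet after a rational translation. `lbp_ae`: almost all points
of a set have a positive part of the set on each side. `grid_lb`: for almost all `w`, the points
`w + r` of the set, `r` rational, are near all these points, from both sides. `Xz`: the windows of the
grid, in the units of the zoom; `xz_cnt`, `xz_lim`. `psn_grid`: the numbers at the windows of the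
grid. `qz_deriv`: the slopes of the numbers of the slots.
-/

set_option autoImplicit false

namespace Pool.BSM

open MeasureTheory Set Filter Topology
open scoped Pointwise

/-- **Two sets of positive measure** meet after a rational translation. -/
theorem rat_hit {A E : Set ℝ} (hA : MeasurableSet A) (hE : MeasurableSet E)
    (hA0 : volume A ≠ 0) (hE0 : volume E ≠ 0) : ∃ r : ℚ, ∃ w ∈ A, w + r ∈ E := by
  classical
  -- a translation with an intersection of positive measure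
  obtain ⟨t, ht⟩ : ∃ t : ℝ, volume (A ∩ (fun x => x + t) ⁻¹' E) ≠ 0 := by
    by_contra hcon
    push Not at hcon
    have hZ : MeasurableSet {z : ℝ × ℝ | z.1 ∈ A ∧ z.1 + z.2 ∈ E} :=
      (measurable_fst hA).inter ((measurable_fst.add measurable_snd) hE)
    have h1 : (volume.prod volume) {z : ℝ × ℝ | z.1 ∈ A ∧ z.1 + z.2 ∈ E} = 0 := by
      rw [Measure.prod_apply_symm hZ, lintegral_eq_zero_iff' (by
        exact (measurable_measure_prodMk_right hZ).aemeasurable)]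
      exact Eventually.of_forall fun t => hcon t
    have h2 := (measurePreserving_prod_add (volume : Measure ℝ) (volume : Measure ℝ)).measure_preimage
      (hA.prod hE).nullMeasurableSet
    have h3 : (fun z : ℝ × ℝ => (z.1, z.1 + z.2)) ⁻¹' A ×ˢ E =
        {z : ℝ × ℝ | z.1 ∈ A ∧ z.1 + z.2 ∈ E} := by
      ext z
      rfl
    rw [h3, h1, Measure.prod_prod] at h2
    rcases mul_eq_zero.1 h2.symm with h | h
    · exact hA0 h
    · exact hE0 h
  have hm : MeasurableSet (A ∩ (fun x => x + t) ⁻¹' E) :=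
    hA.inter ((measurable_id.add_const t) hE)
  have h1 := Measure.sub_mem_nhds_zero_of_addHaar_pos volume _ hm (pos_iff_ne_zero.2 ht)
  have h2 : Tendsto (fun y : ℝ => y - t) (𝓝 t) (𝓝 0) := by
    have : Tendsto (fun y : ℝ => y - t) (𝓝 t) (𝓝 (t - t)) :=
      (continuous_id.sub continuous_const).tendsto t
    rwa [sub_self] at this
  obtain ⟨ε, hε, hb⟩ := Metric.mem_nhds_iff.1 (h2 h1)
  obtain ⟨r, hr1, hr2⟩ := exists_rat_btwn (show t < t + ε by linarith)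
  have h3 : (r : ℝ) ∈ Metric.ball t ε := by
    rw [Metric.mem_ball, Real.dist_eq, abs_lt]
    constructor <;> linarith
  obtain ⟨e₁, he₁, e₂, he₂, he⟩ := Set.mem_sub.1 (hb h3)
  refine ⟨r, e₂, he₂.1, ?_⟩
  have h4 : e₂ + (r : ℝ) = e₁ + t := by
    have : e₁ - e₂ = (r : ℝ) - t := he
    linarith
  rw [h4]
  exact he₁.2

/-- **A positive part** of the set on each side of the point. -/
def Lbp (E : Set ℝ) (x : ℝ) : Prop :=
  ∀ δ : ℝ, 0 < δ → volume (E ∩ Ioo x (x + δ)) ≠ 0 ∧ volume (E ∩ Ioo (x - δ) x) ≠ 0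

theorem lbp_ae {E : Set ℝ} (hE : MeasurableSet E) : ∀ᵐ x : ℝ, x ∈ E → Lbp E x := by
  have h0 := Besicovitch.ae_tendsto_measure_inter_div_of_measurableSet volume hE
  filter_upwards [h0] with x h1 hx δ hδ
  rw [Set.indicator_of_mem hx, Pi.one_apply] at h1
  obtain ⟨t₀, ht₀, h2⟩ := Pool.Z4.dens_Ioo h1 (η := 1 / 8) (by norm_num) (by norm_num)
  obtain ⟨d, hd⟩ : ∃ d, d = min δ (t₀ / 2) := ⟨_, rfl⟩
  have hd0 : 0 < d := by rw [hd]; exact lt_min hδ (by linarith)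
  have hd1 : d ≤ δ := by rw [hd]; exact min_le_left _ _
  have hd2 : d ≤ t₀ / 2 := by rw [hd]; exact min_le_right _ _
  have hp : ENNReal.ofReal (d * (1 - 2 * (1 / 8))) ≠ 0 := by
    rw [Ne, ENNReal.ofReal_eq_zero, not_le]
    exact mul_pos hd0 (by norm_num)
  constructor
  · intro h3
    have h4 := h2 d hd0 (by linarith) x (by linarith) le_rfl
    refine hp (le_antisymm (h4.trans ((measure_mono ?_).trans h3.le)) zero_le)
    exact inter_subset_inter_right _ (Ioo_subset_Ioo_right (by linarith))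
  · intro h3
    have h4 := h2 d hd0 (by linarith) (x - d) le_rfl (by linarith)
    refine hp (le_antisymm (h4.trans ((measure_mono ?_).trans h3.le)) zero_le)
    exact inter_subset_inter_right _ (Ioo_subset_Ioo (by linarith) (by linarith))

/-- A rational interval with a positive part of the set. -/
theorem rat_Ioo {E : Set ℝ} {x y : ℝ} (h : volume (E ∩ Ioo x y) ≠ 0) :
    ∃ p q : ℚ, x < p ∧ (q : ℝ) < y ∧ volume (E ∩ Ioo (p : ℝ) q) ≠ 0 := by
  by_contra hcon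
  push Not at hcon
  refine h (measure_mono_null (t := ⋃ s : {s : ℚ × ℚ // x < s.1 ∧ (s.2 : ℝ) < y},
    E ∩ Ioo (s.1.1 : ℝ) s.1.2) ?_ (measure_iUnion_null fun s => hcon _ _ s.2.1 s.2.2))
  rintro z ⟨hz, hz1, hz2⟩
  obtain ⟨p, hp1, hp2⟩ := exists_rat_btwn hz1
  obtain ⟨q, hq1, hq2⟩ := exists_rat_btwn hz2
  exact mem_iUnion.2 ⟨⟨(p, q), hp1, hq2⟩, hz, hp2, hq1⟩

/-- **The grid** is near all points with positive parts on the sides, for almost all origins. -/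
theorem grid_lb {E : Set ℝ} (hE : MeasurableSet E) : ∀ᵐ w : ℝ, ∀ x : ℝ, Lbp E x → ∀ δ : ℝ, 0 < δ →
    (∃ r : ℚ, w + r ∈ E ∧ x < w + r ∧ w + r < x + δ) ∧
    ∃ r : ℚ, w + r ∈ E ∧ x - δ < w + r ∧ w + r < x := by
  have h1 : ∀ᵐ w : ℝ, ∀ p q : ℚ, volume (E ∩ Ioo (p : ℝ) q) ≠ 0 →
      ∃ r : ℚ, w + r ∈ E ∩ Ioo (p : ℝ) q := by
    refine ae_all_iff.2 fun p => ae_all_iff.2 fun q => ?_
    by_cases h0 : volume (E ∩ Ioo (p : ℝ) q) ≠ 0
    · have hm : MeasurableSet (E ∩ Ioo (p : ℝ) q) := hE.inter measurableSet_Ioo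
      have hA : MeasurableSet {w : ℝ | ∀ r : ℚ, w + r ∉ E ∩ Ioo (p : ℝ) q} := by
        have e1 : {w : ℝ | ∀ r : ℚ, w + r ∉ E ∩ Ioo (p : ℝ) q} =
            ⋂ r : ℚ, ((fun w : ℝ => w + r) ⁻¹' (E ∩ Ioo (p : ℝ) q))ᶜ := by
          ext w
          simp only [mem_ofPred_eq, mem_iInter, mem_compl_iff, mem_preimage]
        rw [e1]
        exact MeasurableSet.iInter fun r => ((measurable_id.add_const (r : ℝ)) hm).compl
      have h2 : volume {w : ℝ | ∀ r : ℚ, w + r ∉ E ∩ Ioo (p : ℝ) q} = 0 := by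
        by_contra h3
        obtain ⟨r, w, hw, hwr⟩ := rat_hit hA hm h3 h0
        exact hw r hwr
      filter_upwards [measure_eq_zero_iff_ae_notMem.1 h2] with w hw _
      by_contra hcon
      push Not at hcon
      exact hw hcon
    · exact ae_of_all _ fun w h => absurd h h0
  filter_upwards [h1] with w h2 x hx δ hδ
  obtain ⟨h3, h4⟩ := hx δ hδ
  constructor
  · obtain ⟨p, q, hp, hq, h5⟩ := rat_Ioo h3
    obtain ⟨r, hr1, hr2, hr3⟩ := h2 p q h5
    exact ⟨r, hr1, hp.trans hr2, hr3.trans hq⟩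
  · obtain ⟨p, q, hp, hq, h5⟩ := rat_Ioo h4
    obtain ⟨r, hr1, hr2, hr3⟩ := h2 p q h5
    exact ⟨r, hr1, hp.trans hr2, hr3.trans hq⟩

/-! ### The windows of the grid in the units of the zoom -/

open Pool.Z4 (rho rin rho_rin rin_rho nmz VdG Rq MDat)
open Pool.PKG (Pk Gs LL Od ix)
open Pool.PSI (PsN ll_law)

/-- **The windows of the grid**, in the units of the zoom. -/
def Xz (w₁ : ℝ) (δ : ℚ) (G : Set ℝ) : Set ℝ :=
  {x | ∃ r : ℚ, 0 < r ∧ r < δ ∧ w₁ + r ∈ G ∧ rho w₁ x = w₁ + r}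

theorem xz_cnt {w₁ : ℝ} (h1 : w₁ < 1) (δ : ℚ) (G : Set ℝ) : (Xz w₁ δ G).Countable := by
  refine (countable_range fun r : ℚ => rin w₁ (w₁ + r)).mono ?_
  rintro x ⟨r, -, -, -, h2⟩
  exact ⟨r, by
    show rin w₁ (w₁ + r) = x
    rw [← h2, rin_rho h1]⟩

/-- The windows of the grid are near the window `x`, from both sides. -/
theorem xz_lim {w₁ : ℝ} (h1 : w₁ < 1) {δ : ℚ} {G : Set ℝ} {x : ℝ} (hx0 : w₁ < rho w₁ x)
    (hx1 : rho w₁ x < w₁ + δ) (hG : ∀ ε : ℝ, 0 < ε →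
      (∃ r : ℚ, w₁ + r ∈ G ∧ rho w₁ x < w₁ + r ∧ w₁ + r < rho w₁ x + ε) ∧
      ∃ r : ℚ, w₁ + r ∈ G ∧ rho w₁ x - ε < w₁ + r ∧ w₁ + r < rho w₁ x) :
    (∀ ε : ℝ, 0 < ε → ∃ y ∈ Xz w₁ δ G, x < y ∧ y < x + ε) ∧
    ∀ ε : ℝ, 0 < ε → ∃ y ∈ Xz w₁ δ G, x - ε < y ∧ y < x := by
  have h01 : 0 < 1 - w₁ := by linarith
  have key : ∀ y z : ℝ, rho w₁ y < rho w₁ z → y < z := by
    intro y z h
    unfold rho at h
    exact lt_of_mul_lt_mul_left (by linarith) h01.le
  have e1 : ∀ z, rho w₁ (rin w₁ z) = z := fun z => rho_rin h1 z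
  have e2 : ∀ ε : ℝ, rho w₁ (x + ε) = rho w₁ x + (1 - w₁) * ε := fun ε => by
    unfold rho
    ring
  constructor
  · intro ε hε
    obtain ⟨⟨r, hr1, hr2, hr3⟩, -⟩ := hG (min ((1 - w₁) * ε) (w₁ + δ - rho w₁ x))
      (lt_min (mul_pos h01 hε) (by linarith))
    have h2 := min_le_left ((1 - w₁) * ε) (w₁ + δ - rho w₁ x)
    have h3 := min_le_right ((1 - w₁) * ε) (w₁ + δ - rho w₁ x)
    refine ⟨rin w₁ (w₁ + r), ⟨r, ?_, ?_, hr1, e1 _⟩, key _ _ (by rw [e1]; exact hr2),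
      key _ _ (by rw [e1, e2]; linarith)⟩
    · have : (0 : ℝ) < r := by linarith
      exact_mod_cast this
    · have : (r : ℝ) < δ := by linarith
      exact_mod_cast this
  · intro ε hε
    obtain ⟨-, r, hr1, hr2, hr3⟩ := hG (min ((1 - w₁) * ε) (rho w₁ x - w₁))
      (lt_min (mul_pos h01 hε) (by linarith))
    have h2 := min_le_left ((1 - w₁) * ε) (rho w₁ x - w₁)
    have h3 := min_le_right ((1 - w₁) * ε) (rho w₁ x - w₁)
    have e3 := e2 (-ε)
    have e4 : x + -ε = x - ε := by ring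
    rw [e4] at e3
    refine ⟨rin w₁ (w₁ + r), ⟨r, ?_, ?_, hr1, e1 _⟩, key _ _ (by rw [e1, e3]; linarith),
      key _ _ (by rw [e1]; exact hr3)⟩
    · have : (0 : ℝ) < r := by linarith
      exact_mod_cast this
    · have : (r : ℝ) < δ := by linarith
      exact_mod_cast this

/-- **The numbers at the windows of the grid.** -/
theorem psn_grid {n : ℕ} {hn : 2 ≤ n} {S : Pool.PB.PCl n} {P : ℝ → ℝ → ℝ} {r : ℝ → ℝ}
    {P' : ℕ → List (Fin n) × Fin n → ℝ → ℝ → ℝ} {Λ : Finset (Fin n) → Fin n → ℝ → ℝ → ℝ}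
    (H : Pk hn S P r P' Λ) {o : Od n} {w₁ : ℝ} {δ : ℚ} {M : MDat} {Vd : Rq → Prop}
    {β : ℕ → ℝ → ℝ → ℝ} {lamf : ℝ → ℝ → ℝ} (h0 : 0 ≤ w₁) (hb : w₁ + δ ≤ 1)
    (bet : ∀ i ≤ n - 1, ∀ a w : ℝ, β i a w = LL hn P P' o (i + 1) a w)
    (num : ∀ i ≤ n - 1, β i (w₁ + δ) (w₁ + δ) + M.E + 2 * M.ϱ ≤ 1)
    (vd : VdG w₁ δ M lamf Vd) {x : ℚ} (hx0 : 0 ≤ x) (hx1 : x ≤ δ)
    (hlam : lamf (w₁ + x) (w₁ + x) = 0) : PsN hn P P' o M β Vd (w₁ + x) where
  eq i hi := bet i hi _ _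
  le i hi := by
    have hx0' : (0 : ℝ) ≤ x := by exact_mod_cast hx0
    have hx1' : (x : ℝ) ≤ δ := by exact_mod_cast hx1
    have h1 := num i hi
    rw [bet i hi] at h1
    have h2 := (ll_law (o := o) H hi).1.mono (a := w₁ + x) (w := w₁ + x) (a' := w₁ + δ)
      (w' := w₁ + δ) (by linarith) le_rfl (by linarith) (by linarith) le_rfl hb
    linarith
  vd Dr η σ hη hσ hσ2 := by
    have h1 := vd x x hx0 le_rfl hx1 Dr η σ hη hσ hσ2
    rwa [hlam] at h1

/-- **The slopes of the numbers of the slots.** -/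
theorem qz_deriv {n : ℕ} {hn : 2 ≤ n} {P : ℝ → ℝ → ℝ}
    {P' : ℕ → List (Fin n) × Fin n → ℝ → ℝ → ℝ} {o : Od n} {l : ℕ} {w₁ xs : ℝ} (h1 : w₁ < 1)
    {i : ℕ} {x d : ℝ} (hd : HasDerivAt (fun v => LL hn P P' o (ix l i + 1) v v) d (rho w₁ x)) :
    HasDerivAt (qz hn P P' o l w₁ xs i) d x := by
  have h01 : 1 - w₁ ≠ 0 := by
    intro h
    linarith
  have h2 : HasDerivAt (fun x => rho w₁ x) (1 - w₁) x := by
    have h3 := ((hasDerivAt_id x).const_mul (1 - w₁)).const_add w₁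
    rw [mul_one] at h3
    exact h3
  have h3 := (((hd.comp x h2).sub_const (if i = n - 2 then -xs else 0)).sub_const w₁).div_const
    (1 - w₁)
  have e1 : d * (1 - w₁) / (1 - w₁) = d := by field_simp
  rw [e1] at h3
  exact h3

end Pool.BSM
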