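import Pool.Agent.H52.SUM.Bsm
import Pool.Agent.H60.GEN.NumT
import Pool.Agent.H77.STAT.PlayI

/-!
# The sum of the base slopes of a class

`Pk.base_sum`: at a good window of an order the numbers of the coordinates before the last one have
the sum `g + ∑ q (i + 1) g`, if `q i` is the number of the slot `i` over the slots before it: no
labels above it (at all rational windows), and labels with this precision on parts of the events.
`PkT.base_slopes`: the sum of the slopes.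
-/

set_option autoImplicit false

namespace Pool.BSM

open MeasureTheory Set Filter Topology
open Finset (range univ)

/-- **Two functions which agree on a set have the same derivatives** at almost all points of it. -/
theorem deriv_eq_ae {f g : ℝ → ℝ} {s : Set ℝ} (hs : ∀ x ∈ s, f x = g x)
    (hf : ∀ x ∈ s, DifferentiableAt ℝ f x) (hg : ∀ x ∈ s, DifferentiableAt ℝ g x) :
    ∀ᵐ x : ℝ, x ∈ s → deriv f x = deriv g x := by
  have h1 : ∀ᵐ x : ℝ, x ∉ {x ∈ s | 𝓝[s ∩ Set.Ioi x] x = ⊥} :=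
    countable_setOfPred_isolated_right_within.ae_notMem _
  filter_upwards [h1] with x h2 hx
  have h3 : 𝓝[s ∩ Set.Ioi x] x ≠ ⊥ := fun h => h2 ⟨hx, h⟩
  have h4 : AccPt x (𝓟 s) := by
    rw [accPt_principal_iff_nhdsWithin]
    refine NeBot.mono ⟨h3⟩ (nhdsWithin_mono x ?_)
    rintro y ⟨hy, hy'⟩
    exact ⟨hy, (ne_of_gt hy' : y ≠ x)⟩
  have h5 := h4.uniqueDiffWithinAt
  have h6 : HasDerivWithinAt f (deriv f x) s x := (hf x hx).hasDerivAt.hasDerivWithinAt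
  have h7 : HasDerivWithinAt g (deriv g x) s x := (hg x hx).hasDerivAt.hasDerivWithinAt
  have h8 : HasDerivWithinAt f (deriv g x) s x := h7.congr hs (hs x hx)
  exact h5.eq_deriv _ h6 h8

end Pool.BSM

namespace Pool.PKG

open MeasureTheory Set Filter Topology
open Pool.Agent.H49.Ent Pool.Agent.H32.Dense Pool.STK Pool.KA Pool.KSAT Pool.K2S Pool.PB
open Pool.GEN Pool.S6C Pool.STAT Pool.CHT Pool.GRW Pool.ONE Pool.STA
open Pool.LBT (LSys ThrOf)
open Pool.LBN (cof)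
open Pool.ALL (RateOf)
open Pool.TOP (T1c T2c TopS LbR RW)
open Finset (range univ)

variable {n : ℕ} {hn : 2 ≤ n} {S : PCl n} {P : ℝ → ℝ → ℝ} {r : ℝ → ℝ}
  {P' : ℕ → List (Fin n) × Fin n → ℝ → ℝ → ℝ} {Λ : Finset (Fin n) → Fin n → ℝ → ℝ → ℝ}
  {PB : ℕ → List (Fin n) × Fin n → ℝ → ℝ → ℝ}

/-- **The numbers `q` of the slots** of a class: no labels above them, and labels with these
precisions on parts of the events. -/
structure Slq (S : PCl n) (R b₁ : ℝ) (q : ℕ → ℝ → ℝ) : Prop where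
  no : ∀ i : Fin n, 1 ≤ (i : ℕ) → (i : ℕ) < n - 1 → ∀ x : ℚ, 0 < x → (x : ℝ) < b₁ →
    ∀ h : ℝ, 0 < h → q i x + h ≤ 1 → ∀ K : ℕ, Bas S (fun J F A =>
      ¬ LbR R F (univ.filter fun j : Fin n => (j : ℕ) < i) i K ⌊(x : ℝ) * J⌋₊
        ⌊(q i x + h) * J⌋₊ A)
  att : ∀ i : Fin n, 1 ≤ (i : ℕ) → (i : ℕ) < n - 1 → ∀ x : ℚ, 0 < x → (x : ℝ) < b₁ →
    ∀ h : ℝ, 0 < h → ∃ K : ℕ, ∀ τ : ℝ, 0 < τ → Bas S (fun J F A => ∃ B : F.Ω → Prop, Sub B A ∧
      Real.exp (-(τ * J)) * Pe F.p A ≤ Pe F.p B ∧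
      LbR 1 F (univ.filter fun j : Fin n => (j : ℕ) < i) i K ⌊(x : ℝ) * J⌋₊
        ⌊(q i x - h) * J⌋₊ B)

theorem Slq.sub {S' : PCl n} {R b₁ : ℝ} {q : ℕ → ℝ → ℝ} (h : Slq S R b₁ q)
    (hs : ∀ (τ : ℝ) (J : ℕ) (F : Fam n J) (A : F.Ω → Prop), S'.St τ J F A → S.St τ J F A) :
    Slq S' R b₁ q := by
  refine ⟨fun i h1 h2 x h3 h4 h5 h6 h7 K => Bas.sub hs (h.no i h1 h2 x h3 h4 h5 h6 h7 K),
    fun i h1 h2 x h3 h4 h5 h6 => ?_⟩
  obtain ⟨K, hK⟩ := h.att i h1 h2 x h3 h4 h5 h6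
  exact ⟨K, fun τ hτ => Bas.sub hs (hK τ hτ)⟩

theorem image_bse (i : Fin (n - 1)) :
    (Finset.Iio i).image (bse (n := n)) = univ.filter fun j : Fin n => (j : ℕ) < (i : ℕ) := by
  ext j
  simp only [Finset.mem_image, Finset.mem_Iio, Finset.mem_filter, Finset.mem_univ, true_and]
  constructor
  · rintro ⟨k, hk, rfl⟩
    exact hk
  · intro hj
    exact ⟨⟨j, hj.trans i.2⟩, hj, rfl⟩

/-- **The sum of the numbers** at a good window. -/
theorem Pk.base_sum (H : Pk hn S P r P' Λ) (hTop : TopS n) (hF : FZX (n - 1))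
    (hW : ∀ k, 2 ≤ k → k < n → RW k) {o : Od n} {g : ℝ} (hg : g ∈ Gs P r P' Λ o) {R b₁ : ℝ}
    (hR : 0 ≤ R) (hgb : g < b₁) {q : ℕ → ℝ → ℝ}
    (hqc : ∀ i, 1 ≤ i → i < n - 1 → ContinuousAt (q i) g)
    (hqg : ∀ i, 1 ≤ i → i < n - 1 → g ≤ q i g) (hq1 : ∀ i, 1 ≤ i → i < n - 1 → q i g ≤ 1)
    (hQ : Slq S R b₁ q) :
    ∑ i ∈ range (n - 1), bet (P' o.2) (cc hn o.1.1) i g g =
      g + ∑ i ∈ range (n - 2), q (i + 1) g := by
  classical
  obtain ⟨α, Q, c, Fc⟩ := H.fac hTop hF hg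
  obtain ⟨al, g₀, s, d, e₀, K₀, N, hal, hg₀, hC⟩ := H.cl
  have hWp := hg.1
  have hw0 := hWp.1.1
  have hw1 := hWp.1.2.1
  have hth := tht_pos o.2
  have hcε : ∀ i : Fin (n - 1), cc hn o.1.1 i = bse (o.1.1 i) := fun i => cc_lt hn _ i.2
  have hinj : Function.Injective (fun i => bse (o.1.1 i) : Fin (n - 1) → Fin n) :=
    bse_inj.comp o.1.1.injective
  have hex : VExa S Λ (fun i => bse (o.1.1 i)) g := by
    intro ρ hρ
    refine vst_exa hF hC.ne (C₀ := 6) (by norm_num) H.tmc H.lam hal hg₀ hC.actm H.pos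
      hinj (fun k hk => hC.actb _ ?_) hw0 hw1 hWp.1.2.2.1 hWp.1.2.2.2 hρ
    exact o.1.2 k hk
  -- the numbers
  have hvs : ∀ j, (hj : j < n - 1) → vs Λ (fun i => bse (o.1.1 i)) g (j + 1) =
      bet (P' o.2) (cc hn o.1.1) j g g := by
    intro j hj
    have hbet : bet (P' o.2) (cc hn o.1.1) j g g < 1 - tht o.2 * g := by
      have h1 := Fc.le j hj g g hw0 le_rfl Fc.gα
      have h2 : tht o.2 * g ≤ tht o.2 := mul_le_of_le_one_right hth.le hw1.le
      have h3 := Fc.thc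
      linarith
    have h1 := (bet_lt_iff hth hC.ne (C₀ := 6) (by norm_num) H.tmc H.lam (H.cht o.2) hinj hcε hWp
      hex hj).1 hbet
    exact (bet_eq_vst hth hC.ne (C₀ := 6) (by norm_num) H.tmc H.lam (H.cht o.2) hinj hcε hWp hex
      hj h1).symm
  obtain ⟨q', hq'⟩ : ∃ q' : Fin (n - 1) → ℝ → ℝ,
      q' = fun (i : Fin (n - 1)) x => if (i : ℕ) = 0 then x else q i x := ⟨_, rfl⟩
  have hq'0 : ∀ (i : Fin (n - 1)) (x : ℝ), (i : ℕ) = 0 → q' i x = x := fun i x hi => by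
    rw [hq']
    exact if_pos hi
  have hq'1 : ∀ i : Fin (n - 1), 1 ≤ (i : ℕ) → q' i = q i := fun i hi => by
    rw [hq']
    funext x
    exact if_neg (by omega)
  have hmain := Pool.BSM.base_sum (p := n - 1) (fun k h1 h2 => hW k h1 (by omega)) hal hg₀
    hC.actm hC.ne (C₀ := 6) (by norm_num) H.tmc H.pos H.lam (ε := fun i => bse (o.1.1 i))
    (v := bse) bse_inj (fun j => ⟨o.1.1.symm j, by rw [Equiv.apply_symm_apply]⟩)
    (fun j => ⟨o.1.1 j, rfl⟩) (fun i hi => hC.actb _ hi) (fun i hi => by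
      congr 1
      exact Fin.ext ((o.1.2 i hi).trans hi.symm)) hWp.1 hex hR hgb
    (q := q') (fun i hi => hq'0 i g hi) (fun i hi => by
      rw [hq'1 i hi]
      exact hqc i hi i.2) (fun i => by
      rcases Nat.eq_zero_or_pos (i : ℕ) with hi | hi
      · rw [hq'0 i g hi]
      · rw [hq'1 i hi]
        exact hqg i hi i.2) (fun i => by
      rcases Nat.eq_zero_or_pos (i : ℕ) with hi | hi
      · rw [hq'0 i g hi]
        exact hw1.le
      · rw [hq'1 i hi]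
        exact hq1 i hi i.2)
    (fun i hi x hx hxb h hh hqh K => by
      rw [hq'1 i hi] at hqh ⊢
      rw [image_bse]
      exact hQ.no (bse i) hi i.2 x hx hxb h hh hqh K)
    (fun i hi x hx hxb h hh => by
      rw [hq'1 i hi, image_bse]
      exact hQ.att (bse i) hi i.2 x hx hxb h hh)
  have e1 : ∑ j : Fin (n - 1), vs Λ (fun i => bse (o.1.1 i)) g (j + 1) =
      ∑ i ∈ range (n - 1), bet (P' o.2) (cc hn o.1.1) i g g := by
    rw [← Fin.sum_univ_eq_sum_range (fun i => bet (P' o.2) (cc hn o.1.1) i g g) (n - 1)]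
    exact Finset.sum_congr rfl fun j _ => hvs j j.2
  have e2 : ∑ j : Fin (n - 1), q' j g = g + ∑ i ∈ range (n - 2), q (i + 1) g := by
    have e3 : ∑ j : Fin (n - 1), q' j g =
        ∑ j : Fin (n - 1), (if (j : ℕ) = 0 then g else q j g) := by
      rw [hq']
    rw [e3, Fin.sum_univ_eq_sum_range (fun j => if j = 0 then g else q j g) (n - 1)]
    have e4 : n - 1 = (n - 2) + 1 := by omega
    rw [e4, Finset.sum_range_succ', if_pos rfl, add_comm]
    congr 1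
  rw [← e1, hmain, e2]

/-- **The sum of the base slopes.** -/
theorem PkT.base_slopes (H : PkT hn S P r P' Λ PB) (hTop : TopS n) (hF : FZX (n - 1))
    (hW : ∀ k, 2 ≤ k → k < n → RW k) {R b₁ : ℝ} (hR : 0 ≤ R) {q : ℕ → ℝ → ℝ}
    (hqd : ∀ i, 1 ≤ i → i < n - 1 → ∀ᵐ g : ℝ, 0 < g → g < b₁ → DifferentiableAt ℝ (q i) g)
    (hqg : ∀ i, 1 ≤ i → i < n - 1 → ∀ g : ℝ, 0 < g → g < b₁ → g ≤ q i g)
    (hq1 : ∀ i, 1 ≤ i → i < n - 1 → ∀ g : ℝ, 0 < g → g < b₁ → q i g ≤ 1)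
    (hQ : Slq S R b₁ q) :
    ∀ᵐ g : ℝ, 0 < g → g < b₁ → ∀ o : Od n, g ∈ Gs P r P' Λ o →
      ∑ i ∈ range (n - 1), deriv ((H.nk hTop hF).dg o i) g =
        1 + ∑ i ∈ range (n - 2), deriv (q (i + 1)) g := by
  have hdg : ∀ (o : Od n) (i : ℕ), i < n - 1 → (H.nk hTop hF).dg o i = Dg hn P' o i := by
    intro o i hi
    funext a
    unfold Pool.STR.NumI.dg
    exact dif_pos hi
  have hmono : ∀ (o : Od n) (i : ℕ), ∀ᵐ g : ℝ, 0 < g → g < 1 →
      DifferentiableAt ℝ (Dg hn P' o i) g := by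
    intro o i
    have h1 := (dg_mono (H.cht o.2) ((List.range i).map (cc hn o.1.1), cc hn o.1.1 i)).ae_differentiableAt
    filter_upwards [h1] with g h2 h0 h1'
    refine h2.congr_of_eventuallyEq ?_
    filter_upwards [Ioo_mem_nhds h0 h1'] with v hv
    show bet (P' o.2) (cc hn o.1.1) i v v =
      P' o.2 ((List.range i).map (cc hn o.1.1), cc hn o.1.1 i) (max 0 (min v 1)) (max 0 (min v 1))
    rw [min_eq_left hv.2.le, max_eq_right hv.1.le]
    rfl
  have h1 : ∀ᵐ g : ℝ, ∀ o : Od n, ∀ i, 0 < g → g < 1 → DifferentiableAt ℝ (Dg hn P' o i) g :=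
    ae_all_iff.2 fun o => ae_all_iff.2 fun i => hmono o i
  have h2 : ∀ᵐ g : ℝ, ∀ i, 1 ≤ i → i < n - 1 → 0 < g → g < b₁ → DifferentiableAt ℝ (q i) g := by
    refine ae_all_iff.2 fun i => ?_
    by_cases hi : 1 ≤ i ∧ i < n - 1
    · filter_upwards [hqd i hi.1 hi.2] with g h3 _ _
      exact h3
    · exact ae_of_all _ fun g h3 h4 => absurd ⟨h3, h4⟩ hi
  obtain ⟨T, hT⟩ : ∃ T : Od n → Set ℝ, T = fun o => {g | g ∈ Gs P r P' Λ o ∧ 0 < g ∧ g < b₁ ∧
      (∀ i, DifferentiableAt ℝ (Dg hn P' o i) g) ∧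
      ∀ i, 1 ≤ i → i < n - 1 → DifferentiableAt ℝ (q i) g} := ⟨_, rfl⟩
  have h3 : ∀ᵐ g : ℝ, ∀ o : Od n, g ∈ T o →
      deriv (fun v => ∑ i ∈ range (n - 1), Dg hn P' o i v) g =
        deriv (fun v => v + ∑ i ∈ range (n - 2), q (i + 1) v) g := by
    refine ae_all_iff.2 fun o => Pool.BSM.deriv_eq_ae (fun g hg => ?_) (fun g hg => ?_)
      fun g hg => ?_
    · rw [hT] at hg
      obtain ⟨k1, k2, k3, k4, k5⟩ := hg
      exact H.toPk.base_sum hTop hF hW k1 hR k3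
        (fun i h1 h2 => (k5 i h1 h2).continuousAt) (fun i h1 h2 => hqg i h1 h2 g k2 k3)
        (fun i h1 h2 => hq1 i h1 h2 g k2 k3) hQ
    · rw [hT] at hg
      exact DifferentiableAt.fun_sum fun i _ => hg.2.2.2.1 i
    · rw [hT] at hg
      refine differentiableAt_id.add (DifferentiableAt.fun_sum fun i hi => ?_)
      have := Finset.mem_range.1 hi
      exact hg.2.2.2.2 (i + 1) (by omega) (by omega)
  filter_upwards [h1, h2, h3] with g k1 k2 k3 h0 hb o ho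
  have hg1 : g < 1 := ho.1.1.2.1
  have hgT : g ∈ T o := by
    rw [hT]
    exact ⟨ho, h0, hb, fun i => k1 o i h0 hg1, fun i a b => k2 i a b h0 hb⟩
  have h4 := k3 o hgT
  rw [deriv_fun_sum (fun i _ => k1 o i h0 hg1), deriv_fun_add differentiableAt_id
    (DifferentiableAt.fun_sum fun i hi => by
      have := Finset.mem_range.1 hi
      exact k2 (i + 1) (by omega) (by omega) h0 hb), deriv_id'',
    deriv_fun_sum (fun i hi => by
      have := Finset.mem_range.1 hi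
      exact k2 (i + 1) (by omega) (by omega) h0 hb)] at h4
  rw [← h4]
  refine Finset.sum_congr rfl fun i hi => ?_
  rw [hdg o i (Finset.mem_range.1 hi)]

end Pool.PKG
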