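import Pool.Agent.H52.SUM.Bsc
import Pool.Agent.H9.ZC.Zgp

/-!
# Samples in one cell

`Cel F I k w P A`: there is a function which is closed at the window `w` on the event `A` such that two
samples of `A` with the same time, the same value of this function and the same coordinates in `I` have
coordinates `k` with distance at most `2 * 2 ^ (-P)`. A stable closed label gives such a function.
`cel_lo`, `base_sumX`: the lower bound of the sum of the numbers, and the sum of the numbers at the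
windows which are limits from both sides of windows with known numbers.
-/

set_option autoImplicit false

namespace Pool.BSM

open Finset Real
open MvPolynomial (eval)
open Pool.Agent.H49.Ent Pool.Agent.H32.Dense Pool.STK Pool.KA Pool.KSAT Pool.K2S Pool.PB Pool.S6C
open Pool.GEN Pool.GRW Pool.TOP Pool.ZLC

variable {m p J : ℕ}

/-- **Samples in one cell** have near coordinates `k`. -/
def Cel (F : Fam m J) (I : Finset (Fin m)) (k : Fin m) (w P : ℕ) (A : F.Ω → Prop) : Prop :=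
  ∃ (V : Type) (z : PtT F → V) (z' : LnT F → V), (∀ ω, A ω → z (ptr F J ω) = z' (slam F w ω)) ∧
    ∀ ω ω', A ω → A ω' → F.T ω = F.T ω' → z' (slam F w ω) = z' (slam F w ω') →
      (∀ i ∈ I, F.X J ω i = F.X J ω' i) → |F.x ω k - F.x ω' k| ≤ 2 / 2 ^ P

section

variable {F : Fam m J} {I : Finset (Fin m)} {k : Fin m} {w P : ℕ} {A : F.Ω → Prop}

theorem Cel.sub (h : Cel F I k w P A) {B : F.Ω → Prop} (hB : Sub B A) : Cel F I k w P B := by
  obtain ⟨V, z, z', h1, h2⟩ := h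
  exact ⟨V, z, z', fun ω hω => h1 ω (hB ω hω), fun ω ω' a b => h2 ω ω' (hB ω a) (hB ω' b)⟩

theorem Cel.prc (h : Cel F I k w P A) {P' : ℕ} (hP : P' ≤ P) : Cel F I k w P' A := by
  obtain ⟨V, z, z', h1, h2⟩ := h
  refine ⟨V, z, z', h1, fun ω ω' a b c d e => (h2 ω ω' a b c d e).trans ?_⟩
  have h3 := inv_mono hP
  have e1 : ∀ P : ℕ, (2 : ℝ) / 2 ^ P = 2 * (1 / 2 ^ P) := fun P => by ring
  rw [e1, e1]
  linarith

theorem Cel.win (h : Cel F I k w P A) {w' : ℕ} (hw : w ≤ w') : Cel F I k w' P A := by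
  have key : ∀ w w' : ℕ, w ≤ w' → w' ≤ J → Cel F I k w P A → Cel F I k w' P A := by
    rintro w w' hw hw' ⟨V, z, z', h1, h2⟩
    have e : ∀ ω, z' ((slam F w' ω).1, (slam F w' ω).2.1, (slam F w' ω).2.2 / 2 ^ (w' - w)) =
        z' (slam F w ω) := fun ω => by rw [← slam_coarse F hw hw' ω]
    refine ⟨V, z, fun s => z' (s.1, s.2.1, s.2.2 / 2 ^ (w' - w)),
      fun ω hω => (h1 ω hω).trans (e ω).symm, fun ω ω' a b c d => ?_⟩
    simp only [e] at d
    exact h2 ω ω' a b c d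
  have key2 : ∀ w : ℕ, J ≤ w → (Cel F I k w P A ↔ Cel F I k J P A) := by
    intro w hJw
    constructor
    · rintro ⟨V, z, z', h1, h2⟩
      exact ⟨V, z, z', fun ω hω => by rw [← slam_ge F hJw ω]; exact h1 ω hω,
        fun ω ω' a b c d => h2 ω ω' a b c (by rw [slam_ge F hJw ω, slam_ge F hJw ω']; exact d)⟩
    · rintro ⟨V, z, z', h1, h2⟩
      exact ⟨V, z, z', fun ω hω => by rw [slam_ge F hJw ω]; exact h1 ω hω,
        fun ω ω' a b c d => h2 ω ω' a b c (by rw [← slam_ge F hJw ω, ← slam_ge F hJw ω']; exact d)⟩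
  rcases le_or_gt w' J with h1 | h1
  · exact key w w' hw h1 h
  · rw [key2 w' h1.le]
    rcases le_or_gt w J with h2 | h2
    · exact key w J h2 le_rfl h
    · exact (key2 w h2.le).1 h

/-- The property does not depend on the law. -/
theorem cel_free {G : Fam m J} {κ : Type} {c : G.Ω → κ} {v : κ} (hl : IsLaw (cond G.p c v))
    {B : G.Ω → Prop} (h : Cel G I k w P B) : Cel (G.res c v hl) I k w P B := by
  obtain ⟨V, z, z', h1, h2⟩ := h
  exact ⟨V, z, z', h1, h2⟩

/-- A stable closed label. -/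
theorem LbR.cel {R : ℝ} (hR : 1 ≤ R) {K : ℕ} (h : LbR R F I k K w P A) : Cel F I k w P A := by
  classical
  obtain ⟨V, z, z', G, h⟩ := h
  refine ⟨V, z, z', h.cls, fun ω ω' hω hω' hT h2 h1 => ?_⟩
  have hJ0 : (0 : ℝ) < 2 ^ J := by positivity
  have ht : F.t ω = F.t ω' := by
    unfold Fam.t
    rw [hT]
  obtain ⟨y, hy⟩ : ∃ y : Option (Fin m) → ℝ, y = fun o => match o with
      | none => F.t ω
      | some i => if i ∈ I then F.x ω' i else F.x ω i := ⟨_, rfl⟩
  have hyn : y none = bt F ω none := by rw [hy]; rfl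
  have hyI : ∀ i ∈ I, y (some i) = F.x ω' i := by
    intro i hi
    rw [hy]
    exact if_pos hi
  have hyO : ∀ i ∉ I, y (some i) = F.x ω i := by
    intro i hi
    rw [hy]
    exact if_neg hi
  have hd : ∀ o, |y o - bt F ω o| ≤ R / 2 ^ J := by
    have hR0 : (1 : ℝ) / 2 ^ J ≤ R / 2 ^ J := div_le_div_of_nonneg_right hR hJ0.le
    have hR1 : (0 : ℝ) ≤ R / 2 ^ J := le_trans (by positivity) hR0
    intro o
    rcases o with - | i
    · rw [hyn, sub_self, abs_zero]
      exact hR1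
    · by_cases hi : i ∈ I
      · rw [hyI i hi]
        change |F.x ω' i - F.x ω i| ≤ _
        have h4 := Int.abs_sub_lt_one_of_floor_eq_floor (h1 i hi)
        rw [← mul_sub, abs_mul, abs_of_pos hJ0] at h4
        rw [abs_sub_comm]
        refine le_trans ?_ hR0
        rw [le_div_iff₀ hJ0]
        linarith
      · rw [hyO i hi]
        change |F.x ω i - F.x ω i| ≤ _
        rw [sub_self, abs_zero]
        exact hR1
  have h4 : eval (bt F ω') (G (z' (slam F w ω'))) = eval y (G (z' (slam F w ω))) := by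
    rw [← h2]
    refine h.dep _ _ _ ?_ fun i hi => ?_
    · rw [hyn]
      exact ht.symm
    · rw [hyI i hi]
      rfl
  have h5 := h.pos ω hω y hd
  have h6 := h.pos ω' hω' (bt F ω') fun o => by
    rw [sub_self, abs_zero]
    have : (0 : ℝ) ≤ R := by linarith
    positivity
  rw [h4] at h6
  have e1 : F.x ω k - F.x ω' k = (F.x ω k - eval y (G (z' (slam F w ω)))) -
      (F.x ω' k - eval y (G (z' (slam F w ω)))) := by ring
  have e2 : (2 : ℝ) / 2 ^ P = 2 * (1 / 2 ^ P) := by ring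
  rw [e1, e2]
  refine (abs_sub _ _).trans ?_
  linarith

end

/-- **The entropy in the cells.** -/
theorem cel_ent {F : Fam m J} {A : F.Ω → Prop} {I : Finset (Fin m)} {k : Fin m} {w P : ℕ}
    {V : Type} {z' : LnT F → V} (h : ∀ ω ω', A ω → A ω' → F.T ω = F.T ω' →
      z' (slam F w ω) = z' (slam F w ω') → (∀ i ∈ I, F.X J ω i = F.X J ω' i) →
        |F.x ω k - F.x ω' k| ≤ 2 / 2 ^ P) (hP : P ≤ J)
    {q : F.Ω → ℝ} (hq : IsLaw q) (hqA : ∀ ω, 0 < q ω → A ω) {T : Type*} {c : F.Ω → T}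
    (hc : ∀ ω ω', 0 < q ω → 0 < q ω' → c ω = c ω' →
      (∀ i ∈ I, F.X J ω i = F.X J ω' i) ∧ z' (slam F w ω) = z' (slam F w ω') ∧ F.T ω = F.T ω') :
    CH q (fun ω => F.X J ω k) c ≤ ((J : ℝ) - P) * Real.log 2 + 2 := by
  classical
  have hJ0 : (0 : ℝ) < 2 ^ J := by positivity
  have hM : ∀ ω ω', 0 < q ω → 0 < q ω' → c ω = c ω' →
      |((F.X J ω k - F.X J ω' k : ℤ) : ℝ)| ≤ 2 * 2 ^ (J - P) + 1 := by
    intro ω ω' hω hω' hcc
    obtain ⟨h1, h2, h3⟩ := hc ω ω' hω hω' hcc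
    have h7 := h ω ω' (hqA ω hω) (hqA ω' hω') h3 h2 h1
    refine (Pool.EXW.abs_floor_sub _ _).trans (add_le_add_left ?_ 1)
    rw [← mul_sub, abs_mul, abs_of_pos hJ0]
    have e2 : (2 : ℝ) ^ J = 2 ^ (J - P) * 2 ^ P := by
      rw [← pow_add]
      congr 1
      omega
    calc (2 : ℝ) ^ J * |F.x ω k - F.x ω' k| ≤ 2 ^ J * (2 / 2 ^ P) :=
          mul_le_mul_of_nonneg_left h7 hJ0.le
      _ = 2 * 2 ^ (J - P) := by
          rw [e2]
          field_simp
  have h1 := CH_le_int hq.nonneg hq.sum_one (fun ω => F.X J ω k) c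
    (fun _ => 2 * 2 ^ (J - P) + 1) hM
  rw [Ex_const hq.sum_one] at h1
  exact h1.trans (log_cell hP)

/-- The upper bound of the entropy of the coordinates of another order, for one member. -/
theorem low_famC {F : Fam m J} {A : F.Ω → Prop} (hA : 0 < Pe F.p A) {ε v : Fin p → Fin m}
    (hvε : ∀ j, ∃ i, v i = ε j) {w : ℕ} {P : Fin p → ℕ}
    (hlb : ∀ j, Cel F ((Iio j).image v) (v j) w (P j) A) (hP : ∀ j, P j ≤ J) {E : ℝ}
    (hex : ∀ (V : Type) (z : PtT F → V) (z' : LnT F → V),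
      (∀ ω, A ω → z (ptr F J ω) = z' (slam F w ω)) →
      E ≤ CH (Pool.Agent.H49.Ent.cond F.p A True) (fun ω j => F.X J ω (ε j))
        (fun ω => (z' (slam F w ω), F.W ω))) :
    E ≤ ∑ j : Fin p, (((J : ℝ) - P j) * Real.log 2 + 2) := by
  classical
  have hq := isLaw_cond F.isLaw hA
  have h0 := hq.nonneg
  have hqA : ∀ ω, 0 < Pool.Agent.H49.Ent.cond F.p A True ω → A ω := fun ω hω =>
    of_eq_true ((cond_pos_iff F.isLaw.nonneg A True ω).1 hω).2
  choose V₁ y y' hcl hG using hlb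
  refine (hex (∀ j, V₁ j) (fun p j => y j p) (fun s j => y' j s)
    (fun ω hω => funext fun j => hcl j ω hω)).trans
    ((CH_mono_left h0 (X' := fun ω j => F.X J ω (v j)) fun ω ω' _ _ hh => funext fun j => ?_).trans
    (Pool.EXW.chain_le hq (fun (j : Fin p) ω => F.X J ω (v j)) _ _ (fun j => ?_)))
  · obtain ⟨i, hi⟩ := hvε j
    rw [← hi]
    exact congrFun (Prod.ext_iff.mp hh).1 i
  · refine cel_ent (hG j) (hP j) hq hqA fun ω ω' h1 h1' hc => ?_
    have h2 := Prod.ext_iff.mp hc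
    have h3 := Prod.ext_iff.mp h2.2
    refine ⟨fun k hk => ?_, congrFun h3.1 j, congrArg Prod.fst h3.2⟩
    obtain ⟨l, hl, rfl⟩ := mem_image.1 hk
    have h6 := congrFun h2.1 l
    simp only [if_pos (mem_Iio.1 hl)] at h6
    exact h6

/-- **The lower bound of the sum**: cells of the coordinates of the list `v`. -/
theorem cel_lo {S : PCl m} (hne : S.Ne) (hpos : Bas S (fun _ F A => 0 < Pe F.p A))
    {L : Finset (Fin m) → Fin m → ℝ → ℝ → ℝ} {ε v : Fin p → Fin m} (hvε : ∀ j, ∃ i, v i = ε j)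
    {w : ℝ} (hex : VExa S L ε w) {q : Fin p → ℝ} (hq : ∀ j, q j ≤ 1)
    (hlab : ∀ j : Fin p, ∀ h : ℝ, 0 < h → ∀ τ : ℝ, 0 < τ → Bas S (fun J F A =>
      ∃ B : F.Ω → Prop, Sub B A ∧ Real.exp (-(τ * J)) * Pe F.p A ≤ Pe F.p B ∧
        Cel F ((Iio j).image v) (v j) ⌊w * J⌋₊ ⌊(q j - h) * J⌋₊ B)) :
    ∑ j : Fin p, (1 - vs L ε w (j + 1)) ≤ ∑ j : Fin p, (1 - q j) := by
  by_contra hcon
  push Not at hcon
  obtain ⟨D, hD⟩ : ∃ D, D = ∑ j : Fin p, (1 - vs L ε w (j + 1)) - ∑ j : Fin p, (1 - q j) :=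
    ⟨_, rfl⟩
  have hD0 : 0 < D := by rw [hD]; linarith
  have hl2 : 1 / 2 < Real.log 2 := by
    have := Real.log_two_gt_d9
    linarith only [this]
  have hl21 : Real.log 2 ≤ 1 := by
    have := Real.log_two_lt_d9
    linarith only [this]
  have hp0 : (0 : ℝ) ≤ p := Nat.cast_nonneg p
  obtain ⟨e, he⟩ : ∃ e : ℝ, e = D / (8 * ((p : ℝ) + 1)) := ⟨_, rfl⟩
  have he0 : 0 < e := by rw [he]; positivity
  have he1 : p * e ≤ D / 8 := by
    have : ((p : ℝ) + 1) * e = D / 8 := by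
      rw [he]
      field_simp
    linarith only [this, he0]
  obtain ⟨κ, hκ, h1⟩ := Pool.ZFN.bas_sh ((hex (D / 4) (by linarith)).and hpos)
  have h2 := bas_iter (S := S) (Φ := fun j J F B =>
      Cel F ((Iio j).image v) (v j) ⌊w * J⌋₊ ⌊(q j - e) * J⌋₊ B)
    (fun j J F A B hB hh => hh.sub hB) (fun j τ hτ => hlab j e he0 τ hτ) hκ
  obtain ⟨J₁, hJ₁⟩ := exists_nat_gt (3 * p / (D / 8))
  refine bas_no hne ((h1.and h2).mono J₁ ?_)
  rintro J hJ F A ⟨k1, B, k2, k3, k4⟩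
  have hJ0 : (0 : ℝ) ≤ J := Nat.cast_nonneg J
  have hJ1 : (J₁ : ℝ) ≤ J := by exact_mod_cast hJ
  have hJ2 := hJ₁.trans_le hJ1
  rw [div_lt_iff₀ (by linarith)] at hJ2
  obtain ⟨k5, hB⟩ := k1 B k2 k3
  have h4 := low_famC hB hvε k4 (fun j => Pool.GEN.fl_le (by linarith [hq j]) J) k5
  have h5 : ∑ j : Fin p, (((J : ℝ) - ⌊(q j - e) * J⌋₊) * Real.log 2 + 2) ≤
      ∑ j : Fin p, ((1 - q j) * Real.log 2 * J + (e * J + 3)) := by
    refine Finset.sum_le_sum fun j _ => ?_
    have a1 := Nat.lt_floor_add_one ((q j - e) * (J : ℝ))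
    have a3 : ((J : ℝ) - ⌊(q j - e) * J⌋₊) ≤ (1 - q j) * J + (e * J + 1) := by
      linarith only [a1]
    have a4 := mul_le_mul_of_nonneg_right a3 (show (0 : ℝ) ≤ Real.log 2 by linarith)
    have a5 : (e * J + 1) * Real.log 2 ≤ (e * J + 1) * 1 :=
      mul_le_mul_of_nonneg_left hl21 (by positivity)
    linarith only [a4, a5]
  have h6 : ∑ j : Fin p, ((1 - q j) * Real.log 2 * J + (e * J + 3)) =
      (∑ j : Fin p, (1 - q j)) * Real.log 2 * J + p * (e * J + 3) := by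
    rw [Finset.sum_add_distrib, ← Finset.sum_mul, ← Finset.sum_mul, Finset.sum_const,
      Finset.card_univ, Fintype.card_fin, nsmul_eq_mul]
  rw [h6] at h5
  have h8 := h4.trans h5
  have h9 : (3 / 4 * D) * Real.log 2 * J ≤ p * (e * J + 3) := by
    rw [show ∑ j : Fin p, (1 - vs L ε w (j + 1)) = ∑ j : Fin p, (1 - q j) + D by
      rw [hD]
      ring] at h8
    linarith only [h8]
  have h10 : (3 / 4 * D) * (1 / 2) * J ≤ (3 / 4 * D) * Real.log 2 * J :=
    mul_le_mul_of_nonneg_right (mul_le_mul_of_nonneg_left hl2.le (by linarith)) hJ0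
  have h12 := mul_le_mul_of_nonneg_right he1 hJ0
  have h13 : 0 ≤ D * (J : ℝ) := by positivity
  linarith only [h9, h10, h12, h13, hJ2]

/-- **The sum of the numbers** of a greedy order is the sum of the numbers of the list `v`, at a
window which is a limit from both sides of windows in `X`: no labels above the numbers at the
windows of `X`, at the rational windows before them; cells with these numbers, at the rational
windows behind them. -/
theorem base_sumX (hW : ∀ k, 2 ≤ k → k ≤ p → RW k) {al : ℝ} {g₀ : ℝ → ℝ} (hal : 0 < al)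
    (hg₀ : ∀ ε : ℝ, 0 < ε → 0 < g₀ ε) {N : ℚ → ℚ → ℝ} (hN : ActM N al g₀) {S : PCl m}
    (hne : S.Ne) {C₀ : ℝ} (hC₀ : 0 ≤ C₀) (htm : TmC S C₀)
    (hpos : Bas S (fun _ F A => 0 < Pe F.p A)) {L : Finset (Fin m) → Fin m → ℝ → ℝ → ℝ}
    (hL : LamW S L) {ε v : Fin p → Fin m} (hv : Function.Injective v)
    (hεv : ∀ j, ∃ i, ε i = v j) (hvε : ∀ j, ∃ i, v i = ε j)
    (hact : ∀ i : Fin p, (i : ℕ) = 0 → ActB N S (v i)) (h00 : ∀ i : Fin p, (i : ℕ) = 0 → ε i = v i)
    {w : ℝ} (hw : w ∈ Wv L ε) (hex : VExa S L ε w) {R : ℝ} (hR : 0 ≤ R) {b₁ : ℝ} (hwb : w < b₁)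
    {X : Set ℝ} (hXr : ∀ δ : ℝ, 0 < δ → ∃ x ∈ X, w < x ∧ x < w + δ)
    (hXl : ∀ δ : ℝ, 0 < δ → ∃ x ∈ X, w - δ < x ∧ x < w)
    {q : Fin p → ℝ → ℝ} (hq0 : ∀ i : Fin p, (i : ℕ) = 0 → q i w = w)
    (hqc : ∀ i : Fin p, 1 ≤ (i : ℕ) → ContinuousAt (q i) w) (hqw : ∀ i, w ≤ q i w)
    (hq1 : ∀ i, q i w ≤ 1)
    (hΦ : ∀ i : Fin p, 1 ≤ (i : ℕ) → ∀ x ∈ X, x < b₁ → ∀ v' : ℚ, 0 < v' → (v' : ℝ) < x →
      ∀ h : ℝ, 0 < h → q i x + h ≤ 1 → ∀ K : ℕ, Bas S (fun J F A =>
        ¬ LbR R F ((Iio i).image v) (v i) K ⌊(v' : ℝ) * J⌋₊ ⌊(q i x + h) * J⌋₊ A))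
    (hΨ : ∀ i : Fin p, 1 ≤ (i : ℕ) → ∀ x ∈ X, 0 < x → ∀ v' : ℚ, x < v' → (v' : ℝ) < b₁ →
      ∀ h : ℝ, 0 < h → ∀ τ : ℝ, 0 < τ → Bas S (fun J F A => ∃ B : F.Ω → Prop, Sub B A ∧
        Real.exp (-(τ * J)) * Pe F.p A ≤ Pe F.p B ∧
        Cel F ((Iio i).image v) (v i) ⌊(v' : ℝ) * J⌋₊ ⌊(q i x - h) * J⌋₊ B)) :
    ∑ j : Fin p, vs L ε w (j + 1) = ∑ j : Fin p, q j w := by
  classical
  obtain ⟨hw0, hw1, hg, hct⟩ := id hw
  have hs1 : ∀ i : Fin p, (i : ℕ) = 0 → vs L ε w (i + 1) = w := by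
    intro i hi
    rw [vs_succ]
    unfold vn
    have h1 : (Finset.Iio i).image ε = ∅ := by
      rw [Finset.image_eq_empty]
      ext x
      simp only [Finset.mem_Iio, Finset.notMem_empty, iff_false, not_lt, Fin.le_def]
      omega
    have h2 : vs L ε w i = w := by
      rw [hi]
      rfl
    rw [h1, h2, h00 i hi]
    exact hL.act hne hal (hN.q hg₀) (hact i hi) hpos hw0.le hw1
  -- the entropy
  have hup : ∑ j : Fin p, (1 - q j w) ≤ ∑ j : Fin p, (1 - vs L ε w (j + 1)) := by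
    refine base_up hne hpos hL hεv hw fun ρ hρ => rows_low hW hal hg₀ hN hC₀ htm hpos hv hact hR
      hw0 hw1 (q := fun j => q j w) hqw (fun i hi ρ hρ => ?_) (fun i hi h hh hqh => ?_) hρ
    · have hp : 0 < p := by
        have := i.2
        omega
      have h1 := vst_crd hpos hL (ε := ε) (c := fun l => if h : l < p then ε ⟨l, h⟩ else ε ⟨0, hp⟩)
        (fun l => dif_pos l.2) hw0 hw1 hg hct hex hρ
      refine (h1.and hpos).mono 0 ?_
      rintro J - F A ⟨h2, hA⟩ V z z' hz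
      have hq := isLaw_cond F.isLaw hA
      have h3 := h2 V z z' hz 0 hp
      have e0 : i = ⟨0, hp⟩ := Fin.ext hi
      have e1 : vs L ε w (0 + 1) = w := by
        have := hs1 ⟨0, hp⟩ rfl
        exact this
      have e2 : v i = if h : 0 < p then ε ⟨0, h⟩ else ε ⟨0, hp⟩ := by
        rw [dif_pos hp, ← e0]
        exact (h00 i hi).symm
      rw [e1] at h3
      rw [hq0 i hi, e2]
      exact h3.trans (CH_mono_cond hq.nonneg fun ω ω' _ _ hh => (Prod.ext_iff.mp hh).2)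
    · have h1 := hqc i hi
      rw [Metric.continuousAt_iff] at h1
      obtain ⟨δ, hδ, h2⟩ := h1 (h / 2) (half_pos hh)
      obtain ⟨x, hxX, hx1, hx2⟩ := hXr (min δ (b₁ - w)) (lt_min hδ (by linarith))
      have hx3 : x < w + δ := hx2.trans_le (by linarith [min_le_left δ (b₁ - w)])
      have hx4 : x < b₁ := hx2.trans_le (by linarith [min_le_right δ (b₁ - w)])
      have h3 : |q i x - q i w| < h / 2 := by
        have := @h2 x (by rw [Real.dist_eq, abs_lt]; constructor <;> linarith)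
        rwa [Real.dist_eq] at this
      have h4 := (abs_lt.1 h3).2
      obtain ⟨v', hv1, hv2⟩ := exists_rat_btwn hx1
      refine ⟨v' - w, by linarith, fun K => ?_⟩
      have h5 := hΦ i hi x hxX hx4 v' (by
        have : (0 : ℝ) < v' := by linarith
        exact_mod_cast this) hv2 (h / 2) (half_pos hh) (by linarith) K
      refine h5.mono 0 fun J _ F A k1 k2 => k1 ?_
      have e1 : w + ((v' : ℝ) - w) = v' := by ring
      rw [e1] at k2
      exact k2.wk (Finset.Subset.refl _) le_rfl (Nat.floor_le_floor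
        (mul_le_mul_of_nonneg_right (by linarith) (Nat.cast_nonneg J)))
  -- the cells
  have hlo : ∑ j : Fin p, (1 - vs L ε w (j + 1)) ≤ ∑ j : Fin p, (1 - q j w) := by
    refine cel_lo hne hpos hvε hex hq1 fun i h hh => ?_
    rcases Nat.eq_zero_or_pos (i : ℕ) with hi | hi
    · -- the first coordinate
      obtain ⟨e, he⟩ : ∃ e, e = min (min (h / 2) (w / 2)) ((1 - w) / 4) := ⟨_, rfl⟩
      have he0 : 0 < e := by
        rw [he]
        exact lt_min (lt_min (by linarith) (by linarith)) (by linarith)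
      have he1 : e ≤ h / 2 := by rw [he]; exact (min_le_left _ _).trans (min_le_left _ _)
      have he3 : e ≤ w / 2 := by rw [he]; exact (min_le_left _ _).trans (min_le_right _ _)
      have he2 : e ≤ (1 - w) / 4 := by rw [he]; exact min_le_right _ _
      obtain ⟨K, hK⟩ := vst_att hL hw0 hw1 hg hct he0
      obtain ⟨cm, hcm⟩ := pow_unbounded_of_one_lt (8 * ((m : ℝ) + 1)) (one_lt_two : (1 : ℝ) < 2)
      obtain ⟨J₁, hJ₁⟩ := Pool.GEN.lin (4 : ℝ) (show 0 < (1 - w) / 4 by linarith)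
      obtain ⟨J₂, hJ₂⟩ := Pool.GEN.lin (2 : ℝ) (show 0 < h / 2 by linarith)
      obtain ⟨J₃, hJ₃⟩ := Pool.GEN.lin (2 : ℝ) (show 0 < w / 2 by linarith)
      obtain ⟨J₄, hJ₄⟩ := Pool.GEN.lin ((cm : ℝ) + 2) (show 0 < (1 - w) / 4 by linarith)
      refine fun τ hτ => (hK i i le_rfl).mono (max (max J₁ J₂) (max J₃ J₄)) ?_
      intro J hJ F A h2
      simp only [ge_iff_le, max_le_iff] at hJ
      obtain ⟨⟨hJ1, hJ2⟩, hJ3, hJ4⟩ := hJ
      replace hJ1 := hJ₁ J hJ1
      replace hJ2 := hJ₂ J hJ2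
      replace hJ3 := hJ₃ J hJ3
      replace hJ4 := hJ₄ J hJ4
      have hJ0 : (0 : ℝ) ≤ J := Nat.cast_nonneg J
      have e1 : vs L ε w i = w := by
        rw [hi]
        rfl
      have e2 : (Iio i).image ε = (Iio i).image v := by
        have e3 : Iio i = ∅ := by
          ext x
          simp only [Finset.mem_Iio, Finset.notMem_empty, iff_false, not_lt, Fin.le_def]
          omega
        rw [e3, Finset.image_empty, Finset.image_empty]
      rw [e1, hs1 i hi, e2, h00 i hi] at h2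
      refine ⟨A, fun _ h => h, ?_, ?_⟩
      · have h1 : Real.exp (-(τ * J)) ≤ 1 := by
          rw [Real.exp_le_one_iff]
          have : 0 ≤ τ * (J : ℝ) := by positivity
          linarith
        calc _ ≤ 1 * Pe F.p A := mul_le_mul_of_nonneg_right h1 (Pe_nonneg F.isLaw A)
          _ = Pe F.p A := one_mul _
      · rw [hq0 i hi]
        have hQ : ⌊(w - h) * (J : ℝ)⌋₊ + 1 ≤ ⌊(w - e) * (J : ℝ)⌋₊ := by
          rcases le_or_gt ((w - h) * (J : ℝ)) 0 with h5 | h5
          · rw [Nat.floor_of_nonpos h5, zero_add]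
            refine Nat.le_floor ?_
            have := mul_le_mul_of_nonneg_right he3 hJ0
            push_cast
            linarith
          · have a1 := Nat.floor_le h5.le
            have a2 := Nat.lt_floor_add_one ((w - e) * (J : ℝ))
            have a3 : ((⌊(w - h) * (J : ℝ)⌋₊ + 1 : ℕ) : ℝ) < (⌊(w - e) * (J : ℝ)⌋₊ : ℕ) + 1 := by
              push_cast
              have := mul_le_mul_of_nonneg_right he1 hJ0
              linarith
            have a4 : ⌊(w - h) * (J : ℝ)⌋₊ + 1 < ⌊(w - e) * (J : ℝ)⌋₊ + 1 := by exact_mod_cast a3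
            omega
        refine LbR.cel (by norm_num) (Pool.ZFW.lbr_of_lb h2 hcm.le ?_ hQ ?_)
        · have a1 : ⌊min (w + e) 1 * (J : ℝ)⌋₊ ≤ ⌊(w + e) * (J : ℝ)⌋₊ :=
            Nat.floor_le_floor (mul_le_mul_of_nonneg_right (min_le_left _ _) hJ0)
          have a2 := Nat.floor_le (show 0 ≤ (w + e) * (J : ℝ) by positivity)
          have a3 : ((⌊(w + e) * (J : ℝ)⌋₊ + 4 : ℕ) : ℝ) ≤ J := by
            push_cast
            have := mul_le_mul_of_nonneg_right he2 hJ0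
            have h6 : 0 ≤ (1 - w) * (J : ℝ) := mul_nonneg (by linarith) hJ0
            linarith
          have a4 : ⌊(w + e) * (J : ℝ)⌋₊ + 4 ≤ J := by exact_mod_cast a3
          omega
        · have a1 : ⌊(w - e) * (J : ℝ)⌋₊ ≤ ⌊w * (J : ℝ)⌋₊ :=
            Nat.floor_le_floor (mul_le_mul_of_nonneg_right (by linarith) hJ0)
          have a2 := Nat.floor_le (show 0 ≤ w * (J : ℝ) by positivity)
          have a2' := Nat.floor_le (show 0 ≤ e * (J : ℝ) by positivity)
          have a3 : ((⌊e * (J : ℝ)⌋₊ + cm + ⌊w * (J : ℝ)⌋₊ : ℕ) : ℝ) ≤ J := by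
            push_cast
            have := mul_le_mul_of_nonneg_right he2 hJ0
            have h6 : 0 ≤ (1 - w) * (J : ℝ) := mul_nonneg (by linarith) hJ0
            linarith
          have a4 : ⌊e * (J : ℝ)⌋₊ + cm + ⌊w * (J : ℝ)⌋₊ ≤ J := by exact_mod_cast a3
          omega
    · have h1 := hqc i hi
      rw [Metric.continuousAt_iff] at h1
      obtain ⟨δ, hδ, h2⟩ := h1 (h / 2) (half_pos hh)
      obtain ⟨x, hxX, hx1, hx2⟩ := hXl (min δ w) (lt_min hδ hw0)
      have hx3 : 0 < x := by linarith [min_le_right δ w]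
      have hx4 : w - δ < x := by linarith [min_le_left δ w]
      have h3 : |q i x - q i w| < h / 2 := by
        have := @h2 x (by rw [Real.dist_eq, abs_lt]; constructor <;> linarith)
        rwa [Real.dist_eq] at this
      have h4 := (abs_lt.1 h3).1
      obtain ⟨v', hv1, hv2⟩ := exists_rat_btwn hx2
      have hK := hΨ i hi x hxX hx3 v' hv1 (by linarith) (h / 2) (half_pos hh)
      refine fun τ hτ => (hK τ hτ).mono 0 ?_
      rintro J - F A ⟨B, k1, k2, k3⟩
      exact ⟨B, k1, k2, (k3.win (Nat.floor_le_floor (mul_le_mul_of_nonneg_right hv2.le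
        (Nat.cast_nonneg J)))).prc (Nat.floor_le_floor
        (mul_le_mul_of_nonneg_right (by linarith) (Nat.cast_nonneg J)))⟩
  have h5 := le_antisymm hup hlo
  rw [Finset.sum_sub_distrib, Finset.sum_sub_distrib] at h5
  linarith

/-! ### The properties of a class -/

/-- There is no part of a given proportion with cells. -/
theorem upr_cel (I : Finset (Fin m)) (k : Fin m) (K₁ : ℕ → ℝ) (w P : ℕ → ℕ) :
    Pool.ZLC.UPr (fun J (F : Fam m J) A => ∀ B : F.Ω → Prop, Sub B A →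
      Pe F.p A ≤ K₁ J * Pe F.p B → ¬ Cel F I k (w J) (P J) B) :=
  Pool.ZLC.GPr.upr fun J => Pool.ZLC.gpr_many (P := fun (F : Fam m J) A => Cel F I k (w J) (P J) A)
    (fun _ _ _ hB h => h.sub hB) (fun _ _ _ _ hl _ h => cel_free hl h)

end Pool.BSM
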