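import Pool.Agent.H96.R1.Two
import Pool.Agent.H27.TOP.All
import Pool.Agent.H82.ZC.Psz
import Pool.Agent.H39.GEN.Zfin

/-!
# The sum of the numbers of the coordinates of a list

`one_cellR`, `chart_leR`: a chart of stable closed labels bounds the entropy of its coordinates.
`base_up`: if the coordinates of the list `v` have the entropy `E₀` given any function which is
closed at the window `w`, then the sum of the numbers of a greedy order `ε` of the same coordinates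
is at most the deficit. `base_lo`: the opposite inequality, from labels of the coordinates of the
list over the coordinates before them, on parts of the events.
`rows_low`: the entropy, from the absence of labels (the rows `RW`).
`base_sum`: equality.
-/

set_option autoImplicit false

namespace Pool.BSM

open Finset Real
open MvPolynomial (eval)
open Pool.Agent.H49.Ent Pool.Agent.H32.Dense Pool.STK Pool.KA Pool.KSAT Pool.K2S Pool.PB Pool.S6C
open Pool.GEN Pool.GRW Pool.TOP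

variable {m p J : ℕ}

/-! ### Families -/

theorem log_cell {J P : ℕ} (hP : P ≤ J) :
    Real.log (2 * (2 * 2 ^ (J - P) + 1) + 1) ≤ ((J : ℝ) - P) * Real.log 2 + 2 := by
  have h2 : 2 * (2 * (2 : ℝ) ^ (J - P) + 1) + 1 ≤ 2 ^ (J - P) * 7 := by
    have : (1 : ℝ) ≤ 2 ^ (J - P) := one_le_pow₀ (by norm_num)
    linarith
  refine (Real.log_le_log (by positivity) h2).trans ?_
  rw [Real.log_mul (by positivity) (by norm_num), Real.log_pow]
  have h3 : Real.log 7 ≤ 2 := by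
    have h4 : (7 : ℝ) ≤ Real.exp 2 := by
      have h5 := Real.exp_one_gt_d9
      have h6 : Real.exp 2 = Real.exp 1 * Real.exp 1 := by
        rw [← Real.exp_add]
        norm_num
      rw [h6]
      nlinarith
    calc Real.log 7 ≤ Real.log (Real.exp 2) := Real.log_le_log (by norm_num) h4
      _ = 2 := Real.log_exp 2
  have e1 : ((J - P : ℕ) : ℝ) = (J : ℝ) - P := by
    push_cast [Nat.cast_sub hP]
    ring
  rw [e1]
  linarith

/-- **The cells of a stable closed label.** -/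
theorem one_cellR {F : Fam m J} {A : F.Ω → Prop} {I : Finset (Fin m)} {k : Fin m} {R : ℝ}
    (hR : 1 ≤ R) {K w P : ℕ} {V : Type} {z : PtT F → V} {z' : LnT F → V}
    {G : V → MvPolynomial (Option (Fin m)) ℝ} (h : LbROK R F I k K w P A z z' G) (hP : P ≤ J)
    {q : F.Ω → ℝ} (hq : IsLaw q) (hqA : ∀ ω, 0 < q ω → A ω) {T : Type*} {c : F.Ω → T}
    (hc : ∀ ω ω', 0 < q ω → 0 < q ω' → c ω = c ω' →
      (∀ i ∈ I, F.X J ω i = F.X J ω' i) ∧ z' (slam F w ω) = z' (slam F w ω') ∧ F.T ω = F.T ω') :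
    CH q (fun ω => F.X J ω k) c ≤ ((J : ℝ) - P) * Real.log 2 + 2 := by
  classical
  have hJ0 : (0 : ℝ) < 2 ^ J := by positivity
  have hM : ∀ ω ω', 0 < q ω → 0 < q ω' → c ω = c ω' →
      |((F.X J ω k - F.X J ω' k : ℤ) : ℝ)| ≤ 2 * 2 ^ (J - P) + 1 := by
    intro ω ω' hω hω' hcc
    obtain ⟨h1, h2, h3⟩ := hc ω ω' hω hω' hcc
    have ht : F.t ω = F.t ω' := by
      unfold Fam.t
      rw [h3]
    obtain ⟨y, hy⟩ : ∃ y : Option (Fin m) → ℝ, y = fun o => match o with
        | none => F.t ω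
        | some i => if i ∈ I then F.x ω' i else F.x ω i := ⟨_, rfl⟩
    have hyn : y none = bt F ω none := by rw [hy]; rfl
    have hyI : ∀ i ∈ I, y (some i) = F.x ω' i := by
      intro i hi
      rw [hy]
      exact if_pos hi
    have hyO : ∀ i ∉ I, y (some i) = F.x ω i := by
      intro i hi
      rw [hy]
      exact if_neg hi
    have hd : ∀ o, |y o - bt F ω o| ≤ R / 2 ^ J := by
      have hR0 : (1 : ℝ) / 2 ^ J ≤ R / 2 ^ J := div_le_div_of_nonneg_right hR hJ0.le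
      have hR1 : (0 : ℝ) ≤ R / 2 ^ J := le_trans (by positivity) hR0
      intro o
      rcases o with - | i
      · rw [hyn, sub_self, abs_zero]
        exact hR1
      · by_cases hi : i ∈ I
        · rw [hyI i hi]
          change |F.x ω' i - F.x ω i| ≤ _
          have h4 := Int.abs_sub_lt_one_of_floor_eq_floor (h1 i hi)
          rw [← mul_sub, abs_mul, abs_of_pos hJ0] at h4
          rw [abs_sub_comm]
          refine le_trans ?_ hR0
          rw [le_div_iff₀ hJ0]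
          linarith
        · rw [hyO i hi]
          change |F.x ω i - F.x ω i| ≤ _
          rw [sub_self, abs_zero]
          exact hR1
    have h4 : eval (bt F ω') (G (z' (slam F w ω'))) = eval y (G (z' (slam F w ω))) := by
      rw [← h2]
      refine h.dep _ _ _ ?_ fun i hi => ?_
      · rw [hyn]
        exact ht.symm
      · rw [hyI i hi]
        rfl
    have h5 := h.pos ω (hqA ω hω) y hd
    have h6 := h.pos ω' (hqA ω' hω') (bt F ω') fun o => by
      rw [sub_self, abs_zero]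
      have : (0 : ℝ) ≤ R := by linarith
      positivity
    rw [h4] at h6
    have h7 : |F.x ω k - F.x ω' k| ≤ 2 * (1 / 2 ^ P) := by
      have e1 : F.x ω k - F.x ω' k = (F.x ω k - eval y (G (z' (slam F w ω)))) -
          (F.x ω' k - eval y (G (z' (slam F w ω)))) := by ring
      rw [e1]
      refine (abs_sub _ _).trans ?_
      linarith
    refine (Pool.EXW.abs_floor_sub _ _).trans (add_le_add_left ?_ 1)
    rw [← mul_sub, abs_mul, abs_of_pos hJ0]
    have e2 : (2 : ℝ) ^ J = 2 ^ (J - P) * 2 ^ P := by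
      rw [← pow_add]
      congr 1
      omega
    calc (2 : ℝ) ^ J * |F.x ω k - F.x ω' k| ≤ 2 ^ J * (2 * (1 / 2 ^ P)) :=
          mul_le_mul_of_nonneg_left h7 hJ0.le
      _ = 2 * 2 ^ (J - P) := by
          rw [e2]
          field_simp
  have h1 := CH_le_int hq.nonneg hq.sum_one (fun ω => F.X J ω k) c
    (fun _ => 2 * 2 ^ (J - P) + 1) hM
  rw [Ex_const hq.sum_one] at h1
  exact h1.trans (log_cell hP)

/-- **The chart of stable labels bounds the entropy.** -/
theorem chart_leR {F : Fam m J} {A : F.Ω → Prop} {q : F.Ω → ℝ} (hq : IsLaw q)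
    (hqA : ∀ ω, 0 < q ω → A ω) {R : ℝ} (hR : 1 ≤ R) {v : Fin p → Fin m} {K : Fin p → ℕ} {w : ℕ}
    {P : Fin p → ℕ} {V₁ : Fin p → Type} {y : ∀ j, PtT F → V₁ j} {y' : ∀ j, LnT F → V₁ j}
    {G : ∀ j, V₁ j → MvPolynomial (Option (Fin m)) ℝ}
    (hG : ∀ j, LbROK R F ((Iio j).image v) (v j) (K j) w (P j) A (y j) (y' j) (G j))
    (hP : ∀ j, P j ≤ J) {T : Type*} (Z : F.Ω → T)
    (hZ : ∀ ω ω', 0 < q ω → 0 < q ω' → Z ω = Z ω' →
      (∀ j, y' j (slam F w ω) = y' j (slam F w ω')) ∧ F.T ω = F.T ω') :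
    CH q (fun ω j => F.X J ω (v j)) Z ≤ ∑ j, (((J : ℝ) - P j) * Real.log 2 + 2) := by
  classical
  refine Pool.EXW.chain_le hq (fun (j : Fin p) ω => F.X J ω (v j)) Z _ (fun j => ?_)
  refine one_cellR hR (hG j) (hP j) hq hqA fun ω ω' h1 h1' hc => ?_
  have h2 := Prod.ext_iff.mp hc
  have h3 := hZ ω ω' h1 h1' h2.2
  refine ⟨fun k hk => ?_, h3.1 j, h3.2⟩
  obtain ⟨l, hl, rfl⟩ := mem_image.1 hk
  have h6 := congrFun h2.1 l
  simp only [if_pos (mem_Iio.1 hl)] at h6
  exact h6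

/-- The upper bound of the entropy of the coordinates of another order, for one member. -/
theorem low_fam {F : Fam m J} {A : F.Ω → Prop} (hA : 0 < Pe F.p A) {ε v : Fin p → Fin m}
    (hvε : ∀ j, ∃ i, v i = ε j) {R : ℝ} (hR : 1 ≤ R) {K : Fin p → ℕ} {w : ℕ} {P : Fin p → ℕ}
    (hlb : ∀ j, LbR R F ((Iio j).image v) (v j) (K j) w (P j) A) (hP : ∀ j, P j ≤ J) {E : ℝ}
    (hex : ∀ (V : Type) (z : PtT F → V) (z' : LnT F → V),
      (∀ ω, A ω → z (ptr F J ω) = z' (slam F w ω)) →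
      E ≤ CH (Pool.Agent.H49.Ent.cond F.p A True) (fun ω j => F.X J ω (ε j))
        (fun ω => (z' (slam F w ω), F.W ω))) :
    E ≤ ∑ j : Fin p, (((J : ℝ) - P j) * Real.log 2 + 2) := by
  classical
  have hq := isLaw_cond F.isLaw hA
  have h0 := hq.nonneg
  have hqA : ∀ ω, 0 < Pool.Agent.H49.Ent.cond F.p A True ω → A ω := fun ω hω =>
    of_eq_true ((cond_pos_iff F.isLaw.nonneg A True ω).1 hω).2
  choose V₁ y y' G hG using hlb
  refine (hex (∀ j, V₁ j) (fun p j => y j p) (fun s j => y' j s)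
    (fun ω hω => funext fun j => (hG j).cls ω hω)).trans
    ((CH_mono_left h0 (X' := fun ω j => F.X J ω (v j)) fun ω ω' _ _ hh => funext fun j => ?_).trans
    (chart_leR hq hqA hR hG hP _ fun ω ω' _ _ hc => ?_))
  · obtain ⟨i, hi⟩ := hvε j
    rw [← hi]
    exact congrFun (Prod.ext_iff.mp hh).1 i
  · have h2 := Prod.ext_iff.mp hc
    exact ⟨fun j => congrFun h2.1 j, congrArg Prod.fst h2.2⟩

/-! ### Classes -/

/-- **Finitely many properties on parts of the events.** -/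
theorem bas_iter {S : PCl m} {Φ : Fin p → Stat m}
    (hher : ∀ (j : Fin p) (J : ℕ) (F : Fam m J) (A B : F.Ω → Prop), Sub B A → Φ j J F A →
      Φ j J F B)
    (h : ∀ j : Fin p, ∀ τ : ℝ, 0 < τ → Bas S (fun J F A => ∃ B : F.Ω → Prop, Sub B A ∧
      Real.exp (-(τ * J)) * Pe F.p A ≤ Pe F.p B ∧ Φ j J F B)) {τ : ℝ} (hτ : 0 < τ) :
    Bas S (fun J F A => ∃ B : F.Ω → Prop, Sub B A ∧
      Real.exp (-(τ * J)) * Pe F.p A ≤ Pe F.p B ∧ ∀ j, Φ j J F B) := by
  have main : ∀ k : ℕ, ∀ τ : ℝ, 0 < τ → Bas S (fun J F A => ∃ B : F.Ω → Prop, Sub B A ∧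
      Real.exp (-(τ * J)) * Pe F.p A ≤ Pe F.p B ∧ ∀ j : Fin p, (j : ℕ) < k → Φ j J F B) := by
    intro k
    induction k with
    | zero =>
      intro τ hτ
      refine ⟨1, one_pos, 0, fun J _ F A _ => ⟨A, fun _ h => h, ?_, fun j hj =>
        absurd hj (Nat.not_lt_zero _)⟩⟩
      have h1 : Real.exp (-(τ * J)) ≤ 1 := by
        rw [Real.exp_le_one_iff]
        have : 0 ≤ τ * (J : ℝ) := by positivity
        linarith
      calc _ ≤ 1 * Pe F.p A := mul_le_mul_of_nonneg_right h1 (Pe_nonneg F.isLaw A)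
        _ = Pe F.p A := one_mul _
    | succ k ih =>
      intro τ hτ
      by_cases hk : k < p
      · obtain ⟨τ₁, hτ₁, J₁, h1⟩ := h ⟨k, hk⟩ (τ / 2) (half_pos hτ)
        obtain ⟨τ', hτ'⟩ : ∃ τ', τ' = min (τ / 2) (τ₁ / 2) := ⟨_, rfl⟩
        have hτ'0 : 0 < τ' := by rw [hτ']; exact lt_min (by linarith) (by linarith)
        have hτ'1 : τ' ≤ τ / 2 := by rw [hτ']; exact min_le_left _ _
        have hτ'2 : τ' ≤ τ₁ / 2 := by rw [hτ']; exact min_le_right _ _
        obtain ⟨τ₂, hτ₂, J₂, h2⟩ := ih τ' hτ'0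
        refine ⟨min τ₂ (τ₁ / 2), lt_min hτ₂ (by linarith), max J₁ J₂, fun J hJ F A hA => ?_⟩
        obtain ⟨B, k1, k2, k3⟩ := h2 J ((le_max_right _ _).trans hJ) F A
          (S.mono (min_le_left _ _) hA)
        have hB : S.St τ₁ J F B := by
          have h3 := S.res (τ' := τ') hτ'0.le (S.mono (min_le_right _ _) hA) k1 k2
          exact S.mono (by linarith) h3
        obtain ⟨B', m1, m2, m3⟩ := h1 J ((le_max_left _ _).trans hJ) F B hB
        refine ⟨B', fun ω hω => k1 ω (m1 ω hω), ?_, fun j hj => ?_⟩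
        · refine le_trans ?_ ((mul_le_mul_of_nonneg_left k2 (Real.exp_pos _).le).trans m2)
          rw [← mul_assoc, ← Real.exp_add]
          refine mul_le_mul_of_nonneg_right (Real.exp_le_exp.2 ?_) (Pe_nonneg F.isLaw A)
          have h4 := mul_le_mul_of_nonneg_right hτ'1 (Nat.cast_nonneg (α := ℝ) J)
          linarith
        · rcases Nat.lt_succ_iff_lt_or_eq.1 hj with h5 | h5
          · exact hher j J F B B' m1 (k3 j h5)
          · have h6 : j = ⟨k, hk⟩ := Fin.ext h5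
            rw [h6]
            exact m3
      · refine (ih τ hτ).mono 0 ?_
        rintro J - F A ⟨B, k1, k2, k3⟩
        exact ⟨B, k1, k2, fun j _ => k3 j (by
          have := j.2
          omega)⟩
  refine (main p τ hτ).mono 0 ?_
  rintro J - F A ⟨B, k1, k2, k3⟩
  exact ⟨B, k1, k2, fun j => k3 j j.2⟩

/-- **The lower bound of the sum**: labels of the coordinates of the list `v`. -/
theorem base_lo {S : PCl m} (hne : S.Ne) (hpos : Bas S (fun _ F A => 0 < Pe F.p A))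
    {L : Finset (Fin m) → Fin m → ℝ → ℝ → ℝ} {ε v : Fin p → Fin m} (hvε : ∀ j, ∃ i, v i = ε j)
    {w : ℝ} (hex : VExa S L ε w) {q : Fin p → ℝ} (hq : ∀ j, q j ≤ 1)
    (hlab : ∀ j : Fin p, ∀ h : ℝ, 0 < h → ∃ K : ℕ, ∀ τ : ℝ, 0 < τ → Bas S (fun J F A =>
      ∃ B : F.Ω → Prop, Sub B A ∧ Real.exp (-(τ * J)) * Pe F.p A ≤ Pe F.p B ∧
        LbR 1 F ((Iio j).image v) (v j) K ⌊w * J⌋₊ ⌊(q j - h) * J⌋₊ B)) :
    ∑ j : Fin p, (1 - vs L ε w (j + 1)) ≤ ∑ j : Fin p, (1 - q j) := by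
  by_contra hcon
  push Not at hcon
  obtain ⟨D, hD⟩ : ∃ D, D = ∑ j : Fin p, (1 - vs L ε w (j + 1)) - ∑ j : Fin p, (1 - q j) :=
    ⟨_, rfl⟩
  have hD0 : 0 < D := by rw [hD]; linarith
  have hl2 : 1 / 2 < Real.log 2 := by
    have := Real.log_two_gt_d9
    linarith only [this]
  have hl21 : Real.log 2 ≤ 1 := by
    have := Real.log_two_lt_d9
    linarith only [this]
  have hp0 : (0 : ℝ) ≤ p := Nat.cast_nonneg p
  obtain ⟨e, he⟩ : ∃ e : ℝ, e = D / (8 * ((p : ℝ) + 1)) := ⟨_, rfl⟩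
  have he0 : 0 < e := by rw [he]; positivity
  have he1 : p * e ≤ D / 8 := by
    have : ((p : ℝ) + 1) * e = D / 8 := by
      rw [he]
      field_simp
    linarith only [this, he0]
  choose K hK using fun j => hlab j e he0
  obtain ⟨κ, hκ, h1⟩ := Pool.ZFN.bas_sh ((hex (D / 4) (by linarith)).and hpos)
  have h2 := bas_iter (S := S) (Φ := fun j J F B =>
      LbR 1 F ((Iio j).image v) (v j) (K j) ⌊w * J⌋₊ ⌊(q j - e) * J⌋₊ B)
    (fun j J F A B hB hh => hh.sub hB) (fun j τ hτ => hK j τ hτ) hκ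
  obtain ⟨J₁, hJ₁⟩ := exists_nat_gt (3 * p / (D / 8))
  refine bas_no hne ((h1.and h2).mono J₁ ?_)
  rintro J hJ F A ⟨k1, B, k2, k3, k4⟩
  have hJ0 : (0 : ℝ) ≤ J := Nat.cast_nonneg J
  have hJ1 : (J₁ : ℝ) ≤ J := by exact_mod_cast hJ
  have hJ2 := hJ₁.trans_le hJ1
  rw [div_lt_iff₀ (by linarith)] at hJ2
  obtain ⟨k5, hB⟩ := k1 B k2 k3
  have h4 := low_fam hB hvε le_rfl k4 (fun j => Pool.GEN.fl_le (by linarith [hq j]) J) k5
  have h5 : ∑ j : Fin p, (((J : ℝ) - ⌊(q j - e) * J⌋₊) * Real.log 2 + 2) ≤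
      ∑ j : Fin p, ((1 - q j) * Real.log 2 * J + (e * J + 3)) := by
    refine Finset.sum_le_sum fun j _ => ?_
    have a1 := Nat.lt_floor_add_one ((q j - e) * (J : ℝ))
    have a3 : ((J : ℝ) - ⌊(q j - e) * J⌋₊) ≤ (1 - q j) * J + (e * J + 1) := by
      linarith only [a1]
    have a4 := mul_le_mul_of_nonneg_right a3 (show (0 : ℝ) ≤ Real.log 2 by linarith)
    have a5 : (e * J + 1) * Real.log 2 ≤ (e * J + 1) * 1 :=
      mul_le_mul_of_nonneg_left hl21 (by positivity)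
    linarith only [a4, a5]
  have h6 : ∑ j : Fin p, ((1 - q j) * Real.log 2 * J + (e * J + 3)) =
      (∑ j : Fin p, (1 - q j)) * Real.log 2 * J + p * (e * J + 3) := by
    rw [Finset.sum_add_distrib, ← Finset.sum_mul, ← Finset.sum_mul, Finset.sum_const,
      Finset.card_univ, Fintype.card_fin, nsmul_eq_mul]
  rw [h6] at h5
  have h8 := h4.trans h5
  have h9 : (3 / 4 * D) * Real.log 2 * J ≤ p * (e * J + 3) := by
    rw [show ∑ j : Fin p, (1 - vs L ε w (j + 1)) = ∑ j : Fin p, (1 - q j) + D by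
      rw [hD]
      ring] at h8
    linarith only [h8]
  have h10 : (3 / 4 * D) * (1 / 2) * J ≤ (3 / 4 * D) * Real.log 2 * J :=
    mul_le_mul_of_nonneg_right (mul_le_mul_of_nonneg_left hl2.le (by linarith)) hJ0
  have h12 := mul_le_mul_of_nonneg_right he1 hJ0
  have h13 : 0 ≤ D * (J : ℝ) := by positivity
  linarith only [h9, h10, h12, h13, hJ2]

/-- **The upper bound of the sum**: the entropy of the coordinates of the list `v`. -/
theorem base_up {S : PCl m} (hne : S.Ne) (hpos : Bas S (fun _ F A => 0 < Pe F.p A))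
    {L : Finset (Fin m) → Fin m → ℝ → ℝ → ℝ} (hL : LamW S L) {ε v : Fin p → Fin m}
    (hεv : ∀ j, ∃ i, ε i = v j) {w : ℝ} (hw : w ∈ Wv L ε) {E₀ : ℝ}
    (hex : ∀ ρ : ℝ, 0 < ρ → Bas S (fun J F A => ∀ (V : Type) (z : PtT F → V) (z' : LnT F → V),
      (∀ ω, A ω → z (ptr F J ω) = z' (slam F ⌊w * J⌋₊ ω)) →
      (E₀ - ρ) * Real.log 2 * J ≤ CH (Pool.Agent.H49.Ent.cond F.p A True)
        (fun ω j => F.X J ω (v j)) (fun ω => (z' (slam F ⌊w * J⌋₊ ω), F.W ω)))) :
    E₀ ≤ ∑ j : Fin p, (1 - vs L ε w (j + 1)) := by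
  by_contra hcon
  push Not at hcon
  obtain ⟨hw0, hw1, hg, hct⟩ := hw
  obtain ⟨D, hD⟩ : ∃ D, D = E₀ - ∑ j : Fin p, (1 - vs L ε w (j + 1)) := ⟨_, rfl⟩
  have hD0 : 0 < D := by rw [hD]; linarith
  have hl2 : 1 / 2 < Real.log 2 := by
    have := Real.log_two_gt_d9
    linarith only [this]
  have hl21 : Real.log 2 ≤ 1 := by
    have := Real.log_two_lt_d9
    linarith only [this]
  have hn0 : (0 : ℝ) ≤ p := Nat.cast_nonneg p
  obtain ⟨e, he⟩ : ∃ e : ℝ, e = D / (32 * ((p : ℝ) + 1)) := ⟨_, rfl⟩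
  have he0 : 0 < e := by rw [he]; positivity
  have he1 : 2 * (p * e) ≤ D / 16 := by
    have : ((p : ℝ) + 1) * e = D / 32 := by
      rw [he]
      field_simp
    nlinarith only [this, he0]
  obtain ⟨K, hK⟩ := vst_att hL hw0 hw1 hg hct he0
  have hall : Bas S (fun J F A => ∀ j : Fin p, Lb F ((Iio j).image ε) (ε j) K ⌊e * J⌋₊ J ⌊w * J⌋₊
      ⌊min (vs L ε w j + e) 1 * J⌋₊ ⌊(vs L ε w (j + 1) - e) * J⌋₊ A) :=
    Bas.fin fun j => hK j j le_rfl
  obtain ⟨cm, hcm⟩ : ∃ cm : ℝ, cm = Real.log (2 * m + 9) := ⟨_, rfl⟩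
  have hcm0 : 0 ≤ cm := by
    rw [hcm]
    refine Real.log_nonneg ?_
    have : (0 : ℝ) ≤ m := Nat.cast_nonneg m
    linarith
  obtain ⟨J₁, hJ₁⟩ := exists_nat_gt (p * (1 + cm) / (D / 16))
  refine bas_no hne (((hex (D / 4) (by linarith)).and (hall.and hpos)).mono J₁ ?_)
  rintro J hJ F A ⟨h1, h2, h3⟩
  have hJ0 : (0 : ℝ) ≤ J := Nat.cast_nonneg J
  have hJ1 : (J₁ : ℝ) ≤ J := by exact_mod_cast hJ
  have hJ2 := hJ₁.trans_le hJ1
  rw [div_lt_iff₀ (by linarith)] at hJ2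
  have hwJ : ⌊w * (J : ℝ)⌋₊ ≤ J := Pool.GEN.fl_le hw1.le J
  have h4 := Pool.R1.vol_fam h3 hεv le_rfl hwJ h2
    (fun j => Pool.GEN.fl_le (min_le_right _ _) J)
    (fun j => Pool.GEN.fl_le (by linarith [vs_le1 hL ε hw1.le (j + 1 : ℕ)]) J) h1
  have h5 : ∑ j : Fin p, (((J : ℝ) - ⌊(vs L ε w (j + 1) - e) * J⌋₊ + ⌊e * J⌋₊) * Real.log 2 +
      Real.log (2 * m + 9)) ≤ ∑ j : Fin p, ((1 - vs L ε w (j + 1)) * Real.log 2 * J +
        (2 * (e * J) + 1 + cm)) := by
    rw [← hcm]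
    exact Finset.sum_le_sum fun j _ => Pool.R1.chart_num (by linarith) hl21 he0.le
  have h6 : ∑ j : Fin p, ((1 - vs L ε w (j + 1)) * Real.log 2 * J + (2 * (e * J) + 1 + cm)) =
      (∑ j : Fin p, (1 - vs L ε w (j + 1))) * Real.log 2 * J + p * (2 * (e * J) + 1 + cm) := by
    rw [Finset.sum_add_distrib, ← Finset.sum_mul, ← Finset.sum_mul, Finset.sum_const,
      Finset.card_univ, Fintype.card_fin, nsmul_eq_mul]
  rw [h6] at h5
  have h8 := h4.trans h5
  have h9 : (3 / 4 * D) * Real.log 2 * J ≤ p * (2 * (e * J) + 1 + cm) := by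
    have e1 : E₀ = ∑ j : Fin p, (1 - vs L ε w (j + 1)) + D := by
      rw [hD]
      ring
    rw [e1] at h8
    linarith only [h8]
  have h10 : (3 / 4 * D) * (1 / 2) * J ≤ (3 / 4 * D) * Real.log 2 * J :=
    mul_le_mul_of_nonneg_right (mul_le_mul_of_nonneg_left hl2.le (by linarith)) hJ0
  have h11 : p * (2 * (e * J) + 1 + cm) = 2 * (p * e) * J + p * (1 + cm) := by ring
  have h12 := mul_le_mul_of_nonneg_right he1 hJ0
  have h13 : 0 ≤ D * (J : ℝ) := by positivity
  linarith only [h9, h10, h11, h12, h13, hJ2]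

/-- **The rows of the list**, given any closed function: the first coordinate is full, and the
other ones have no labels above their numbers at a larger window. -/
theorem rows_low (hW : ∀ k, 2 ≤ k → k ≤ p → RW k) {al : ℝ} {g₀ : ℝ → ℝ} (hal : 0 < al)
    (hg₀ : ∀ ε : ℝ, 0 < ε → 0 < g₀ ε) {N : ℚ → ℚ → ℝ} (hN : ActM N al g₀) {S : PCl m} {C₀ : ℝ}
    (hC₀ : 0 ≤ C₀) (htm : TmC S C₀) (hpos : Bas S (fun _ F A => 0 < Pe F.p A))
    {v : Fin p → Fin m} (hv : Function.Injective v)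
    (hact : ∀ i : Fin p, (i : ℕ) = 0 → ActB N S (v i)) {R w : ℝ} (hR : 0 ≤ R) (hw0 : 0 < w)
    (hw1 : w < 1) {q : Fin p → ℝ} (hqw : ∀ i, w ≤ q i)
    (h0 : ∀ i : Fin p, (i : ℕ) = 0 → ∀ ρ : ℝ, 0 < ρ → Bas S (fun J F A =>
      ∀ (V : Type) (z : PtT F → V) (z' : LnT F → V),
      (∀ ω, A ω → z (ptr F J ω) = z' (slam F ⌊w * J⌋₊ ω)) →
      (1 - q i - ρ) * Real.log 2 * J ≤ CH (Pool.Agent.H49.Ent.cond F.p A True)
        (fun ω => F.X J ω (v i)) (fun ω => (z' (slam F ⌊w * J⌋₊ ω), F.W ω))))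
    (hno : ∀ i : Fin p, 1 ≤ (i : ℕ) → ∀ h : ℝ, 0 < h → q i + h ≤ 1 → ∃ d : ℝ, 0 < d ∧ ∀ K : ℕ,
      Bas S (fun J F A =>
        ¬ LbR R F ((Iio i).image v) (v i) K ⌊(w + d) * J⌋₊ ⌊(q i + h) * J⌋₊ A))
    {ρ : ℝ} (hρ : 0 < ρ) : Bas S (fun J F A => ∀ (V : Type) (z : PtT F → V) (z' : LnT F → V),
      (∀ ω, A ω → z (ptr F J ω) = z' (slam F ⌊w * J⌋₊ ω)) →
      ((∑ j : Fin p, (1 - q j)) - ρ) * Real.log 2 * J ≤
        CH (Pool.Agent.H49.Ent.cond F.p A True) (fun ω j => F.X J ω (v j))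
          (fun ω => (z' (slam F ⌊w * J⌋₊ ω), F.W ω))) := by
  classical
  have hl2 : 0 < Real.log 2 := Real.log_pos one_lt_two
  have hp0 : (0 : ℝ) ≤ p := Nat.cast_nonneg p
  obtain ⟨e, he⟩ : ∃ e : ℝ, e = ρ / ((p : ℝ) + 1) := ⟨_, rfl⟩
  have he0 : 0 < e := by rw [he]; positivity
  have he1 : p * e ≤ ρ := by
    have : ((p : ℝ) + 1) * e = ρ := by
      rw [he]
      field_simp
    linarith only [this, he0]
  -- the rows
  have hrow : ∀ i : Fin p, Bas S (fun J F A => ∀ (V : Type) (z : PtT F → V) (z' : LnT F → V),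
      (∀ ω, A ω → z (ptr F J ω) = z' (slam F ⌊w * J⌋₊ ω)) →
      (1 - q i - e) * Real.log 2 * J ≤ CH (Pool.Agent.H49.Ent.cond F.p A True)
        (fun ω => F.X J ω (v i)) (fun ω => ((fun l' : Fin (i : ℕ) =>
          F.X J ω (v ⟨l', l'.2.trans i.2⟩)), z' (slam F ⌊w * J⌋₊ ω), F.W ω))) := by
    intro i
    rcases Nat.eq_zero_or_pos (i : ℕ) with hi | hi
    · refine ((h0 i hi e he0).and hpos).mono 0 ?_
      rintro J - F A ⟨h1, hA⟩ V z z' hz
      have hq := isLaw_cond F.isLaw hA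
      refine (h1 V z z' hz).trans (CH_mono_cond hq.nonneg fun ω ω' _ _ hh => Prod.ext ?_ hh)
      funext l'
      have := l'.2
      omega
    · rcases le_or_gt 1 (q i + e) with hQ1 | hQ1
      · refine hpos.mono 0 fun J _ F A hA V z z' _ => ?_
        have hq := isLaw_cond F.isLaw hA
        have hJ0 : (0 : ℝ) ≤ J := Nat.cast_nonneg J
        have h3 : (1 - q i - e) * Real.log 2 ≤ 0 :=
          mul_nonpos_of_nonpos_of_nonneg (by linarith) hl2.le
        exact (mul_nonpos_of_nonpos_of_nonneg h3 hJ0).trans (CH_nonneg hq.nonneg _ _)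
      obtain ⟨d₀, hd₀, hno⟩ := hno i hi (e / 2) (by linarith) (by linarith)
      obtain ⟨d, hd⟩ : ∃ d : ℝ, d = min d₀ ((1 - w) / 2) := ⟨_, rfl⟩
      have hd0 : 0 < d := by rw [hd]; exact lt_min hd₀ (by linarith)
      have hdd : d ≤ d₀ := by rw [hd]; exact min_le_left _ _
      have hd1 : d ≤ (1 - w) / 2 := by rw [hd]; exact min_le_right _ _
      have hcard : ((Iio i).image v).card = i := by
        rw [Finset.card_image_of_injective _ hv, Fin.card_Iio]
      have hRW := hW (i + 1) (by omega) (by have := i.2; omega) al g₀ hal hg₀ N hN m C₀ S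
        hC₀ htm ((Iio i).image v) (v i) (v ⟨0, by have := i.2; omega⟩) (fun hmem => by
          obtain ⟨j, hj, hj2⟩ := Finset.mem_image.1 hmem
          have hj' := Finset.mem_Iio.1 hj
          exact hj'.ne (hv hj2)) (Finset.mem_image.2 ⟨⟨0, by have := i.2; omega⟩,
            Finset.mem_Iio.2 hi, rfl⟩) (by rw [hcard])
        (hact _ rfl) R w (q i + e / 2) d (e / 2) hR hw0 (by linarith [hqw i]) (by linarith)
        hd0 (by linarith) (by linarith) (fun K => by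
          refine (hno K).mono 0 fun J _ F A k1 k2 => k1 ?_
          exact k2.win' (Nat.floor_le_floor (mul_le_mul_of_nonneg_right (by linarith)
            (Nat.cast_nonneg J))))
      refine (hRW.and hpos).mono 0 ?_
      rintro J - F A ⟨h1, hA⟩ V z z' hz
      have hq := isLaw_cond F.isLaw hA
      have hJ0 : (0 : ℝ) ≤ J := Nat.cast_nonneg J
      have h2 := h1 V z z' hz
      have h3 : rowH F A (v i) ((Iio i).image v) ⌊(q i + e / 2) * J⌋₊
          (fun ω => z' (slam F ⌊w * J⌋₊ ω)) ≤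
          CH (Pool.Agent.H49.Ent.cond F.p A True) (fun ω => F.X J ω (v i))
          (fun ω => ((fun l' : Fin (i : ℕ) => F.X J ω (v ⟨l', l'.2.trans i.2⟩)),
            z' (slam F ⌊w * J⌋₊ ω), F.W ω)) := by
        unfold rowH
        refine CH_mono_cond hq.nonneg fun ω ω' _ _ hh => ?_
        have a1 := (Prod.ext_iff.mp (Prod.ext_iff.mp hh).2)
        refine Prod.ext (funext fun l' => ?_) a1.2
        have a3 : v ⟨l', l'.2.trans i.2⟩ ∈ (Iio i).image v :=
          Finset.mem_image.2 ⟨_, Finset.mem_Iio.2 l'.2, rfl⟩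
        have a2 : ub ((Iio i).image v) (F.X J ω) (v ⟨l', l'.2.trans i.2⟩) =
            ub ((Iio i).image v) (F.X J ω') (v ⟨l', l'.2.trans i.2⟩) :=
          congrFun a1.1 (v ⟨l', l'.2.trans i.2⟩)
        unfold ub at a2
        rw [if_pos a3, if_pos a3] at a2
        exact a2
      have h4 : (1 - q i - e) * Real.log 2 * J = (1 - (q i + e / 2) - e / 2) * Real.log 2 * J := by
        ring
      rw [h4]
      exact h2.trans h3
  refine ((Bas.fin hrow).and hpos).mono 0 ?_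
  rintro J - F A ⟨h1, hA⟩ V z z' hz
  have hq := isLaw_cond F.isLaw hA
  have hJ0 : (0 : ℝ) ≤ J := Nat.cast_nonneg J
  obtain ⟨X, hX⟩ : ∃ X : ℕ → F.Ω → ℤ, X = fun l ω => if h : l < p then F.X J ω (v ⟨l, h⟩) else 0 :=
    ⟨_, rfl⟩
  have hXl : ∀ l, (h : l < p) → X l = fun ω => F.X J ω (v ⟨l, h⟩) := fun l h => by
    rw [hX]
    funext ω
    exact dif_pos h
  have h2 := ini_fam hq.nonneg X (fun ω => (z' (slam F ⌊w * J⌋₊ ω), F.W ω))
    (fun i => if h : i < p then (1 - q ⟨i, h⟩ - e) * Real.log 2 * J else 0)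
    p (fun l hl => by
      rw [dif_pos hl]
      have h3 := h1 ⟨l, hl⟩ V z z' hz
      have e1 : (fun ω => ((fun l' : Fin l => X l' ω), z' (slam F ⌊w * (J : ℝ)⌋₊ ω), F.W ω)) =
          fun ω => ((fun l' : Fin l => F.X J ω (v ⟨l', l'.2.trans hl⟩)),
            z' (slam F ⌊w * (J : ℝ)⌋₊ ω), F.W ω) := by
        funext ω
        refine Prod.ext (funext fun l' => ?_) rfl
        exact congrFun (hXl l' (l'.2.trans hl)) ω
      rw [e1, hXl l hl]
      exact h3)
  have e2 : (fun ω (l : Fin p) => X l ω) = fun ω j => F.X J ω (v j) := by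
    funext ω l
    exact congrFun (hXl l l.2) ω
  rw [e2] at h2
  refine le_trans ?_ h2
  have e3 : ∑ l ∈ range p, (if h : l < p then (1 - q ⟨l, h⟩ - e) * Real.log 2 * J else 0) =
      ∑ l : Fin p, (1 - q l - e) * Real.log 2 * J := by
    rw [← Fin.sum_univ_eq_sum_range
      (fun l => if h : l < p then (1 - q ⟨l, h⟩ - e) * Real.log 2 * (J : ℝ) else 0) p]
    refine Finset.sum_congr rfl fun l _ => ?_
    rw [dif_pos l.2]
  rw [e3, ← Finset.sum_mul, ← Finset.sum_mul]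
  refine mul_le_mul_of_nonneg_right (mul_le_mul_of_nonneg_right ?_ hl2.le) hJ0
  rw [Finset.sum_sub_distrib (fun i => 1 - q i) (fun _ => e), Finset.sum_const, Finset.card_univ,
    Fintype.card_fin, nsmul_eq_mul]
  linarith

theorem _root_.Pool.TOP.LbR.rad {R R' : ℝ} {F : Fam m J} {I : Finset (Fin m)} {k : Fin m}
    {K w P : ℕ} {A : F.Ω → Prop} (h : LbR R F I k K w P A) (hR : R' ≤ R) :
    LbR R' F I k K w P A := by
  obtain ⟨V, z, z', G, h⟩ := h
  exact ⟨V, z, z', G, h.deg, h.dep, h.cls, fun ω hω b hb => h.pos ω hω b fun o =>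
    (hb o).trans (div_le_div_of_nonneg_right hR (by positivity))⟩

/-- **The sum of the numbers** of a greedy order is the sum of the numbers of the list `v`. -/
theorem base_sum (hW : ∀ k, 2 ≤ k → k ≤ p → RW k) {al : ℝ} {g₀ : ℝ → ℝ} (hal : 0 < al)
    (hg₀ : ∀ ε : ℝ, 0 < ε → 0 < g₀ ε) {N : ℚ → ℚ → ℝ} (hN : ActM N al g₀) {S : PCl m}
    (hne : S.Ne) {C₀ : ℝ} (hC₀ : 0 ≤ C₀) (htm : TmC S C₀)
    (hpos : Bas S (fun _ F A => 0 < Pe F.p A)) {L : Finset (Fin m) → Fin m → ℝ → ℝ → ℝ}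
    (hL : LamW S L) {ε v : Fin p → Fin m} (hv : Function.Injective v)
    (hεv : ∀ j, ∃ i, ε i = v j) (hvε : ∀ j, ∃ i, v i = ε j)
    (hact : ∀ i : Fin p, (i : ℕ) = 0 → ActB N S (v i)) (h00 : ∀ i : Fin p, (i : ℕ) = 0 → ε i = v i)
    {w : ℝ} (hw : w ∈ Wv L ε) (hex : VExa S L ε w) {R : ℝ} (hR : 0 ≤ R) {b₁ : ℝ} (hwb : w < b₁)
    {q : Fin p → ℝ → ℝ} (hq0 : ∀ i : Fin p, (i : ℕ) = 0 → q i w = w)
    (hqc : ∀ i : Fin p, 1 ≤ (i : ℕ) → ContinuousAt (q i) w) (hqw : ∀ i, w ≤ q i w)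
    (hq1 : ∀ i, q i w ≤ 1)
    (hΦ : ∀ i : Fin p, 1 ≤ (i : ℕ) → ∀ x : ℚ, 0 < x → (x : ℝ) < b₁ → ∀ h : ℝ, 0 < h →
      q i x + h ≤ 1 → ∀ K : ℕ, Bas S (fun J F A =>
        ¬ LbR R F ((Iio i).image v) (v i) K ⌊(x : ℝ) * J⌋₊ ⌊(q i x + h) * J⌋₊ A))
    (hΨ : ∀ i : Fin p, 1 ≤ (i : ℕ) → ∀ x : ℚ, 0 < x → (x : ℝ) < b₁ → ∀ h : ℝ, 0 < h →
      ∃ K : ℕ, ∀ τ : ℝ, 0 < τ → Bas S (fun J F A => ∃ B : F.Ω → Prop, Sub B A ∧
        Real.exp (-(τ * J)) * Pe F.p A ≤ Pe F.p B ∧
        LbR 1 F ((Iio i).image v) (v i) K ⌊(x : ℝ) * J⌋₊ ⌊(q i x - h) * J⌋₊ B)) :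
    ∑ j : Fin p, vs L ε w (j + 1) = ∑ j : Fin p, q j w := by
  classical
  obtain ⟨hw0, hw1, hg, hct⟩ := id hw
  have hs1 : ∀ i : Fin p, (i : ℕ) = 0 → vs L ε w (i + 1) = w := by
    intro i hi
    rw [vs_succ]
    unfold vn
    have h1 : (Finset.Iio i).image ε = ∅ := by
      rw [Finset.image_eq_empty]
      ext x
      simp only [Finset.mem_Iio, Finset.notMem_empty, iff_false, not_lt, Fin.le_def]
      omega
    have h2 : vs L ε w i = w := by
      rw [hi]
      rfl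
    rw [h1, h2, h00 i hi]
    exact hL.act hne hal (hN.q hg₀) (hact i hi) hpos hw0.le hw1
  -- the entropy
  have hup : ∑ j : Fin p, (1 - q j w) ≤ ∑ j : Fin p, (1 - vs L ε w (j + 1)) := by
    refine base_up hne hpos hL hεv hw fun ρ hρ => rows_low hW hal hg₀ hN hC₀ htm hpos hv hact hR
      hw0 hw1 (q := fun j => q j w) hqw (fun i hi ρ hρ => ?_) (fun i hi h hh hqh => ?_) hρ
    · have hp : 0 < p := by
        have := i.2
        omega
      have h1 := vst_crd hpos hL (ε := ε) (c := fun l => if h : l < p then ε ⟨l, h⟩ else ε ⟨0, hp⟩)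
        (fun l => dif_pos l.2) hw0 hw1 hg hct hex hρ
      refine (h1.and hpos).mono 0 ?_
      rintro J - F A ⟨h2, hA⟩ V z z' hz
      have hq := isLaw_cond F.isLaw hA
      have h3 := h2 V z z' hz 0 hp
      have e0 : i = ⟨0, hp⟩ := Fin.ext hi
      have e1 : vs L ε w (0 + 1) = w := by
        have := hs1 ⟨0, hp⟩ rfl
        exact this
      have e2 : v i = if h : 0 < p then ε ⟨0, h⟩ else ε ⟨0, hp⟩ := by
        rw [dif_pos hp, ← e0]
        exact (h00 i hi).symm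
      rw [e1] at h3
      rw [hq0 i hi, e2]
      exact h3.trans (CH_mono_cond hq.nonneg fun ω ω' _ _ hh => (Prod.ext_iff.mp hh).2)
    · have h1 := hqc i hi
      rw [Metric.continuousAt_iff] at h1
      obtain ⟨δ, hδ, h2⟩ := h1 (h / 2) (half_pos hh)
      obtain ⟨x, hx1, hx2⟩ := exists_rat_btwn (show w < min (w + δ) b₁ from
        lt_min (by linarith) hwb)
      have hx3 : (x : ℝ) < w + δ := hx2.trans_le (min_le_left _ _)
      have hx4 : (x : ℝ) < b₁ := hx2.trans_le (min_le_right _ _)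
      have h3 : |q i x - q i w| < h / 2 := by
        have := @h2 x (by rw [Real.dist_eq, abs_lt]; constructor <;> linarith)
        rwa [Real.dist_eq] at this
      have h4 := (abs_lt.1 h3).2
      refine ⟨x - w, by linarith, fun K => ?_⟩
      have h5 := hΦ i hi x (by
        have : (0 : ℝ) < x := by linarith
        exact_mod_cast this) hx4 (h / 2) (half_pos hh) (by linarith) K
      refine h5.mono 0 fun J _ F A k1 k2 => k1 ?_
      have e1 : w + ((x : ℝ) - w) = x := by ring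
      rw [e1] at k2
      exact k2.wk (Finset.Subset.refl _) le_rfl (Nat.floor_le_floor
        (mul_le_mul_of_nonneg_right (by linarith) (Nat.cast_nonneg J)))
  -- the labels
  have hlo : ∑ j : Fin p, (1 - vs L ε w (j + 1)) ≤ ∑ j : Fin p, (1 - q j w) := by
    refine base_lo hne hpos hvε hex hq1 fun i h hh => ?_
    rcases Nat.eq_zero_or_pos (i : ℕ) with hi | hi
    · -- the first coordinate
      obtain ⟨e, he⟩ : ∃ e, e = min (min (h / 2) (w / 2)) ((1 - w) / 4) := ⟨_, rfl⟩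
      have he0 : 0 < e := by
        rw [he]
        exact lt_min (lt_min (by linarith) (by linarith)) (by linarith)
      have he1 : e ≤ h / 2 := by rw [he]; exact (min_le_left _ _).trans (min_le_left _ _)
      have he3 : e ≤ w / 2 := by rw [he]; exact (min_le_left _ _).trans (min_le_right _ _)
      have he2 : e ≤ (1 - w) / 4 := by rw [he]; exact min_le_right _ _
      obtain ⟨K, hK⟩ := vst_att hL hw0 hw1 hg hct he0
      obtain ⟨cm, hcm⟩ := pow_unbounded_of_one_lt (8 * ((m : ℝ) + 1)) (one_lt_two : (1 : ℝ) < 2)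
      obtain ⟨J₁, hJ₁⟩ := Pool.GEN.lin (4 : ℝ) (show 0 < (1 - w) / 4 by linarith)
      obtain ⟨J₂, hJ₂⟩ := Pool.GEN.lin (2 : ℝ) (show 0 < h / 2 by linarith)
      obtain ⟨J₃, hJ₃⟩ := Pool.GEN.lin (2 : ℝ) (show 0 < w / 2 by linarith)
      obtain ⟨J₄, hJ₄⟩ := Pool.GEN.lin ((cm : ℝ) + 2) (show 0 < (1 - w) / 4 by linarith)
      refine ⟨K, fun τ hτ => (hK i i le_rfl).mono (max (max J₁ J₂) (max J₃ J₄)) ?_⟩
      intro J hJ F A h2
      simp only [ge_iff_le, max_le_iff] at hJ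
      obtain ⟨⟨hJ1, hJ2⟩, hJ3, hJ4⟩ := hJ
      replace hJ1 := hJ₁ J hJ1
      replace hJ2 := hJ₂ J hJ2
      replace hJ3 := hJ₃ J hJ3
      replace hJ4 := hJ₄ J hJ4
      have hJ0 : (0 : ℝ) ≤ J := Nat.cast_nonneg J
      have e1 : vs L ε w i = w := by
        rw [hi]
        rfl
      have e2 : (Iio i).image ε = (Iio i).image v := by
        have e3 : Iio i = ∅ := by
          ext x
          simp only [Finset.mem_Iio, Finset.notMem_empty, iff_false, not_lt, Fin.le_def]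
          omega
        rw [e3, Finset.image_empty, Finset.image_empty]
      rw [e1, hs1 i hi, e2, h00 i hi] at h2
      refine ⟨A, fun _ h => h, ?_, ?_⟩
      · have h1 : Real.exp (-(τ * J)) ≤ 1 := by
          rw [Real.exp_le_one_iff]
          have : 0 ≤ τ * (J : ℝ) := by positivity
          linarith
        calc _ ≤ 1 * Pe F.p A := mul_le_mul_of_nonneg_right h1 (Pe_nonneg F.isLaw A)
          _ = Pe F.p A := one_mul _
      · rw [hq0 i hi]
        have hQ : ⌊(w - h) * (J : ℝ)⌋₊ + 1 ≤ ⌊(w - e) * (J : ℝ)⌋₊ := by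
          rcases le_or_gt ((w - h) * (J : ℝ)) 0 with h5 | h5
          · rw [Nat.floor_of_nonpos h5, zero_add]
            refine Nat.le_floor ?_
            have := mul_le_mul_of_nonneg_right he3 hJ0
            push_cast
            linarith
          · have a1 := Nat.floor_le h5.le
            have a2 := Nat.lt_floor_add_one ((w - e) * (J : ℝ))
            have a3 : ((⌊(w - h) * (J : ℝ)⌋₊ + 1 : ℕ) : ℝ) < (⌊(w - e) * (J : ℝ)⌋₊ : ℕ) + 1 := by
              push_cast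
              have := mul_le_mul_of_nonneg_right he1 hJ0
              linarith
            have a4 : ⌊(w - h) * (J : ℝ)⌋₊ + 1 < ⌊(w - e) * (J : ℝ)⌋₊ + 1 := by exact_mod_cast a3
            omega
        refine (Pool.ZFW.lbr_of_lb h2 hcm.le ?_ hQ ?_).rad (by norm_num)
        · have a1 : ⌊min (w + e) 1 * (J : ℝ)⌋₊ ≤ ⌊(w + e) * (J : ℝ)⌋₊ :=
            Nat.floor_le_floor (mul_le_mul_of_nonneg_right (min_le_left _ _) hJ0)
          have a2 := Nat.floor_le (show 0 ≤ (w + e) * (J : ℝ) by positivity)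
          have a3 : ((⌊(w + e) * (J : ℝ)⌋₊ + 4 : ℕ) : ℝ) ≤ J := by
            push_cast
            have := mul_le_mul_of_nonneg_right he2 hJ0
            have h6 : 0 ≤ (1 - w) * (J : ℝ) := mul_nonneg (by linarith) hJ0
            linarith
          have a4 : ⌊(w + e) * (J : ℝ)⌋₊ + 4 ≤ J := by exact_mod_cast a3
          omega
        · have a1 : ⌊(w - e) * (J : ℝ)⌋₊ ≤ ⌊w * (J : ℝ)⌋₊ :=
            Nat.floor_le_floor (mul_le_mul_of_nonneg_right (by linarith) hJ0)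
          have a2 := Nat.floor_le (show 0 ≤ w * (J : ℝ) by positivity)
          have a2' := Nat.floor_le (show 0 ≤ e * (J : ℝ) by positivity)
          have a3 : ((⌊e * (J : ℝ)⌋₊ + cm + ⌊w * (J : ℝ)⌋₊ : ℕ) : ℝ) ≤ J := by
            push_cast
            have := mul_le_mul_of_nonneg_right he2 hJ0
            have h6 : 0 ≤ (1 - w) * (J : ℝ) := mul_nonneg (by linarith) hJ0
            linarith
          have a4 : ⌊e * (J : ℝ)⌋₊ + cm + ⌊w * (J : ℝ)⌋₊ ≤ J := by exact_mod_cast a3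
          omega
    · have h1 := hqc i hi
      rw [Metric.continuousAt_iff] at h1
      obtain ⟨δ, hδ, h2⟩ := h1 (h / 2) (half_pos hh)
      obtain ⟨x, hx1, hx2⟩ := exists_rat_btwn (show max 0 (w - δ) < w from
        max_lt hw0 (by linarith))
      have hx3 : (0 : ℝ) < x := (le_max_left _ _).trans_lt hx1
      have hx4 : w - δ < x := (le_max_right _ _).trans_lt hx1
      have h3 : |q i x - q i w| < h / 2 := by
        have := @h2 x (by rw [Real.dist_eq, abs_lt]; constructor <;> linarith)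
        rwa [Real.dist_eq] at this
      have h4 := (abs_lt.1 h3).1
      obtain ⟨K, hK⟩ := hΨ i hi x (by exact_mod_cast hx3) (by linarith) (h / 2) (half_pos hh)
      refine ⟨K, fun τ hτ => (hK τ hτ).mono 0 ?_⟩
      rintro J - F A ⟨B, k1, k2, k3⟩
      refine ⟨B, k1, k2, (k3.win' (Nat.floor_le_floor (mul_le_mul_of_nonneg_right hx2.le
        (Nat.cast_nonneg J)))).wk (Finset.Subset.refl _) le_rfl (Nat.floor_le_floor
        (mul_le_mul_of_nonneg_right (by linarith) (Nat.cast_nonneg J)))⟩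
  have h5 := le_antisymm hup hlo
  rw [Finset.sum_sub_distrib, Finset.sum_sub_distrib] at h5
  linarith

end Pool.BSM
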