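import Pool.Agent.H52.SUM.Cel

/-!
# The sum of the base slopes of a class, from cells

`SlqX`: the numbers `q` of the slots of a class at the windows of a countable set `X`. `Bdf`: the
countably many bad properties. `slqX_of`: the numbers, if they are absent. `Pk.base_sumX`,
`PkT.base_slopesX`: the sum of the numbers and the sum of the slopes at the windows which are limits
from both sides of windows of `X`. `lim_both`: there are such sets `X`.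
-/

set_option autoImplicit false

namespace Pool.BSM

open MeasureTheory Set Filter Topology

/-- **Limits from both sides** of a countable subset. -/
theorem lim_both (E : Set ℝ) : ∃ X : Set ℝ, X ⊆ E ∧ X.Countable ∧ ∀ᵐ x : ℝ, x ∈ E →
    (∀ δ : ℝ, 0 < δ → ∃ y ∈ X, x < y ∧ y < x + δ) ∧ ∀ δ : ℝ, 0 < δ → ∃ y ∈ X, x - δ < y ∧ y < x := by
  classical
  have h0 : ∀ p : ℚ × ℚ, ∃ y : ℝ, (E ∩ Ioo (p.1 : ℝ) p.2).Nonempty → y ∈ E ∩ Ioo (p.1 : ℝ) p.2 := by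
    intro p
    by_cases h : (E ∩ Ioo (p.1 : ℝ) p.2).Nonempty
    · exact ⟨h.choose, fun _ => h.choose_spec⟩
    · exact ⟨0, fun h' => absurd h' h⟩
  choose f hf using h0
  have key : ∀ x y δ : ℝ, y ∈ E → |y - x| < δ → x ≠ y → ∃ z ∈ {z | z ∈ E ∧ ∃ p, f p = z},
      (x < y → x < z ∧ z < x + δ) ∧ (y < x → x - δ < z ∧ z < x) := by
    intro x y δ hy hd hne
    obtain ⟨hd1, hd2⟩ := abs_lt.1 hd
    rcases lt_or_gt_of_ne hne with h1 | h1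
    · obtain ⟨p, hp1, hp2⟩ := exists_rat_btwn h1
      obtain ⟨q, hq1, hq2⟩ := exists_rat_btwn (show y < x + δ by linarith)
      have h2 := hf (p, q) ⟨y, hy, hp2, hq1⟩
      exact ⟨f (p, q), ⟨h2.1, _, rfl⟩, fun _ => ⟨hp1.trans h2.2.1, h2.2.2.trans hq2⟩,
        fun h3 => absurd h1 (not_lt.2 h3.le)⟩
    · obtain ⟨q, hq1, hq2⟩ := exists_rat_btwn h1
      obtain ⟨p, hp1, hp2⟩ := exists_rat_btwn (show x - δ < y by linarith)
      have h2 := hf (p, q) ⟨y, hy, hp2, hq1⟩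
      exact ⟨f (p, q), ⟨h2.1, _, rfl⟩, fun h3 => absurd h1 (not_lt.2 h3.le),
        fun _ => ⟨hp1.trans h2.2.1, h2.2.2.trans hq2⟩⟩
  refine ⟨{z | z ∈ E ∧ ∃ p, f p = z}, fun z hz => hz.1,
    (countable_range f).mono fun z hz => hz.2, ?_⟩
  have h1 : ∀ᵐ x : ℝ, x ∉ {x ∈ E | 𝓝[E ∩ Set.Ioi x] x = ⊥} :=
    countable_setOfPred_isolated_right_within.ae_notMem _
  have h2 : ∀ᵐ x : ℝ, x ∉ {x ∈ E | 𝓝[E ∩ Set.Iio x] x = ⊥} :=
    countable_setOfPred_isolated_left_within.ae_notMem _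
  filter_upwards [h1, h2] with x h1 h2 hx
  constructor
  · intro δ hδ
    have h3 : 𝓝[E ∩ Set.Ioi x] x ≠ ⊥ := fun h => h1 ⟨hx, h⟩
    have h4 : (𝓝[E ∩ Set.Ioi x] x).NeBot := ⟨h3⟩
    have h5 : E ∩ Set.Ioi x ∩ Metric.ball x δ ∈ 𝓝[E ∩ Set.Ioi x] x :=
      inter_mem self_mem_nhdsWithin (mem_nhdsWithin_of_mem_nhds (Metric.ball_mem_nhds x hδ))
    obtain ⟨y, ⟨hyE, hxy⟩, hyb⟩ := h4.nonempty_of_mem h5
    rw [Metric.mem_ball, Real.dist_eq] at hyb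
    obtain ⟨z, hz, k1, -⟩ := key x y δ hyE hyb (ne_of_lt hxy)
    exact ⟨z, hz, k1 hxy⟩
  · intro δ hδ
    have h3 : 𝓝[E ∩ Set.Iio x] x ≠ ⊥ := fun h => h2 ⟨hx, h⟩
    have h4 : (𝓝[E ∩ Set.Iio x] x).NeBot := ⟨h3⟩
    have h5 : E ∩ Set.Iio x ∩ Metric.ball x δ ∈ 𝓝[E ∩ Set.Iio x] x :=
      inter_mem self_mem_nhdsWithin (mem_nhdsWithin_of_mem_nhds (Metric.ball_mem_nhds x hδ))
    obtain ⟨y, ⟨hyE, hxy⟩, hyb⟩ := h4.nonempty_of_mem h5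
    rw [Metric.mem_ball, Real.dist_eq] at hyb
    obtain ⟨z, hz, -, k1⟩ := key x y δ hyE hyb (ne_of_gt hxy)
    exact ⟨z, hz, k1 hxy⟩

end Pool.BSM

namespace Pool.PKG

open MeasureTheory Set Filter Topology
open Pool.Agent.H49.Ent Pool.Agent.H32.Dense Pool.STK Pool.KA Pool.KSAT Pool.K2S Pool.PB
open Pool.GEN Pool.S6C Pool.STAT Pool.CHT Pool.GRW Pool.ONE Pool.STA
open Pool.LBT (LSys ThrOf)
open Pool.LBN (cof)
open Pool.ALL (RateOf)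
open Pool.TOP (T1c T2c TopS LbR RW)
open Pool.BSM (Cel)
open Pool.ZCO (ZPr)
open Pool.ZCL (exists_inv)
open Pool.ZLC (UPr GPr.upr gpr_lbR DtP)
open Finset (range univ)

variable {n : ℕ} {hn : 2 ≤ n} {S : PCl n} {P : ℝ → ℝ → ℝ} {r : ℝ → ℝ}
  {P' : ℕ → List (Fin n) × Fin n → ℝ → ℝ → ℝ} {Λ : Finset (Fin n) → Fin n → ℝ → ℝ → ℝ}
  {PB : ℕ → List (Fin n) × Fin n → ℝ → ℝ → ℝ}

/-- **The numbers `q` of the slots** of a class at the windows of `X`: no labels above them at the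
rational windows before, and cells with these precisions on parts of the events, at the rational
windows behind. -/
structure SlqX (S : PCl n) (R b₁ : ℝ) (X : Set ℝ) (q : ℕ → ℝ → ℝ) : Prop where
  no : ∀ i : Fin n, 1 ≤ (i : ℕ) → (i : ℕ) < n - 1 → ∀ x ∈ X, x < b₁ → ∀ v : ℚ, 0 < v →
    (v : ℝ) < x → ∀ h : ℝ, 0 < h → q i x + h ≤ 1 → ∀ K : ℕ, Bas S (fun J F A =>
      ¬ LbR R F (univ.filter fun j : Fin n => (j : ℕ) < i) i K ⌊(v : ℝ) * J⌋₊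
        ⌊(q i x + h) * J⌋₊ A)
  att : ∀ i : Fin n, 1 ≤ (i : ℕ) → (i : ℕ) < n - 1 → ∀ x ∈ X, 0 < x → ∀ v : ℚ, x < v →
    (v : ℝ) < b₁ → ∀ h : ℝ, 0 < h → ∀ τ : ℝ, 0 < τ → Bas S (fun J F A =>
      ∃ B : F.Ω → Prop, Sub B A ∧ Real.exp (-(τ * J)) * Pe F.p A ≤ Pe F.p B ∧
      Cel F (univ.filter fun j : Fin n => (j : ℕ) < i) i ⌊(v : ℝ) * J⌋₊ ⌊(q i x - h) * J⌋₊ B)

theorem SlqX.sub {S' : PCl n} {R b₁ : ℝ} {X : Set ℝ} {q : ℕ → ℝ → ℝ} (h : SlqX S R b₁ X q)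
    (hs : ∀ (τ : ℝ) (J : ℕ) (F : Fam n J) (A : F.Ω → Prop), S'.St τ J F A → S.St τ J F A) :
    SlqX S' R b₁ X q :=
  ⟨fun i h1 h2 x h3 h4 v h5 h6 h7 h8 h9 K => Bas.sub hs (h.no i h1 h2 x h3 h4 v h5 h6 h7 h8 h9 K),
    fun i h1 h2 x h3 h4 v h5 h6 h7 h8 τ h9 => Bas.sub hs (h.att i h1 h2 x h3 h4 v h5 h6 h7 h8 τ h9)⟩

/-! ### Countably many facts -/

/-- The facts on labels. -/
def FcN (n : ℕ) (b₁ : ℝ) (X : Set ℝ) (q : ℕ → ℝ → ℝ) : Type :=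
  {p : Fin n × X × ℚ × ℕ × ℕ // 1 ≤ (p.1 : ℕ) ∧ (p.1 : ℕ) < n - 1 ∧ (p.2.1 : ℝ) < b₁ ∧
    0 < p.2.2.1 ∧ ((p.2.2.1 : ℚ) : ℝ) < p.2.1 ∧ q p.1 p.2.1 + 1 / ((p.2.2.2.1 : ℝ) + 1) ≤ 1}

/-- The facts on cells. -/
def FcA (n : ℕ) (b₁ : ℝ) (X : Set ℝ) : Type :=
  {p : Fin n × X × ℚ × ℕ × ℕ // 1 ≤ (p.1 : ℕ) ∧ (p.1 : ℕ) < n - 1 ∧ (0 : ℝ) < p.2.1 ∧
    (p.2.1 : ℝ) < p.2.2.1 ∧ ((p.2.2.1 : ℚ) : ℝ) < b₁}

/-- The facts. -/
def Fct (n : ℕ) (b₁ : ℝ) (X : Set ℝ) (q : ℕ → ℝ → ℝ) : Type := FcN n b₁ X q ⊕ FcA n b₁ X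

theorem fct_cnt (b₁ : ℝ) {X : Set ℝ} (hX : X.Countable) (q : ℕ → ℝ → ℝ) :
    Countable (Fct n b₁ X q) := by
  have : Countable X := hX.to_subtype
  unfold Fct FcN FcA
  infer_instance

/-- **The bad properties.** -/
def Bdf (R b₁ : ℝ) (X : Set ℝ) (q : ℕ → ℝ → ℝ) : Fct n b₁ X q → Stat n
  | Sum.inl p => fun J G B => LbR R G (univ.filter fun j : Fin n => (j : ℕ) < p.1.1) p.1.1
      p.1.2.2.2.2 ⌊((p.1.2.2.1 : ℚ) : ℝ) * J⌋₊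
      ⌊(q p.1.1 p.1.2.1 + 1 / ((p.1.2.2.2.1 : ℝ) + 1)) * J⌋₊ B
  | Sum.inr p => fun J G A => ∀ B : G.Ω → Prop, Sub B A →
      Pe G.p A ≤ Real.exp (1 / ((p.1.2.2.2.2 : ℝ) + 1) * J) * Pe G.p B →
      ¬ Cel G (univ.filter fun j : Fin n => (j : ℕ) < p.1.1) p.1.1
        ⌊((p.1.2.2.1 : ℚ) : ℝ) * J⌋₊ ⌊(q p.1.1 p.1.2.1 - 1 / ((p.1.2.2.2.1 : ℝ) + 1)) * J⌋₊ B

theorem bdf_upr (R b₁ : ℝ) (X : Set ℝ) (q : ℕ → ℝ → ℝ) (x : Fct n b₁ X q) :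
    UPr (Bdf R b₁ X q x) := by
  rcases x with p | p
  · exact GPr.upr fun J => gpr_lbR _ _ _ _ _ _
  · exact Pool.BSM.upr_cel _ _ (fun J => Real.exp (1 / ((p.1.2.2.2.2 : ℝ) + 1) * J))
      (fun J => ⌊((p.1.2.2.1 : ℚ) : ℝ) * J⌋₊)
      (fun J => ⌊(q p.1.1 p.1.2.1 - 1 / ((p.1.2.2.2.1 : ℝ) + 1)) * J⌋₊)

/-- **The numbers from the facts.** -/
theorem slqX_of {R b₁ : ℝ} {X : Set ℝ} {q : ℕ → ℝ → ℝ}
    (h : ∀ x : Fct n b₁ X q, Bas S (fun J F A => ¬ Bdf R b₁ X q x J F A)) : SlqX S R b₁ X q := by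
  have hfl : ∀ {x y : ℝ} (J : ℕ), x ≤ y → ⌊x * J⌋₊ ≤ ⌊y * J⌋₊ := fun J h =>
    Nat.floor_le_floor (mul_le_mul_of_nonneg_right h (Nat.cast_nonneg J))
  constructor
  · intro i hi1 hi2 x hx hxb v hv0 hvx h₁ hh hq K
    obtain ⟨k, hkh⟩ := exists_inv hh
    refine (h (Sum.inl ⟨(i, ⟨x, hx⟩, v, k, K), hi1, hi2, hxb, hv0, hvx, ?_⟩)).mono 0
      fun J _ F A h1 h2 => h1 ?_
    · simp only
      linarith
    · exact h2.wk (Finset.Subset.refl _) le_rfl (hfl J (by simp only; linarith))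
  · intro i hi1 hi2 x hx hx0 v hxv hvb h₁ hh τ hτ
    obtain ⟨k, hkh⟩ := exists_inv hh
    obtain ⟨t, htτ⟩ := exists_inv hτ
    refine (h (Sum.inr ⟨(i, ⟨x, hx⟩, v, k, t), hi1, hi2, hx0, hxv, hvb⟩)).mono 0
      fun J _ F A h1 => ?_
    unfold Bdf at h1
    push Not at h1
    obtain ⟨B, k1, k2, k3⟩ := h1
    refine ⟨B, k1, ?_, k3.prc (hfl J (by simp only; linarith))⟩
    simp only at k2
    have k4 : Real.exp (-(1 / ((t : ℝ) + 1) * J)) * Pe F.p A ≤ Pe F.p B := by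
      rw [Real.exp_neg, inv_mul_le_iff₀ (Real.exp_pos _)]
      exact k2
    refine le_trans (mul_le_mul_of_nonneg_right (Real.exp_le_exp.2 (neg_le_neg ?_))
      (Pe_nonneg F.isLaw A)) k4
    exact mul_le_mul_of_nonneg_right htτ (Nat.cast_nonneg J)

/-- **The facts in the zooms.** -/
theorem bdf_zpr {m : ℕ} {S₀ : PCl m} {w₁ : ℝ} {e : Fin n → Fin m} {Req : Type*} {Rq : Req → DtP m}
    {R b₁ : ℝ} {X : Set ℝ} {q : ℕ → ℝ → ℝ}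
    (hno : ∀ i : Fin n, 1 ≤ (i : ℕ) → (i : ℕ) < n - 1 → ∀ x ∈ X, x < b₁ → ∀ v : ℚ, 0 < v →
      (v : ℝ) < x → ∀ h : ℝ, 0 < h → q i x + h ≤ 1 → ∀ K : ℕ, ∃ s : Req,
        ZPr S₀ w₁ e (Rq s) (fun J G B => ¬ LbR R G (univ.filter fun j : Fin n => (j : ℕ) < i) i K
          ⌊(v : ℝ) * J⌋₊ ⌊(q i x + h) * J⌋₊ B))
    (hat : ∀ i : Fin n, 1 ≤ (i : ℕ) → (i : ℕ) < n - 1 → ∀ x ∈ X, 0 < x → ∀ v : ℚ, x < v →
      (v : ℝ) < b₁ → ∀ h : ℝ, 0 < h → ∀ τ : ℝ, 0 < τ → ∃ s : Req,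
        ZPr S₀ w₁ e (Rq s) (fun J G A => ∃ B : G.Ω → Prop, Sub B A ∧
          Real.exp (-(τ * J)) * Pe G.p A ≤ Pe G.p B ∧
          Cel G (univ.filter fun j : Fin n => (j : ℕ) < i) i ⌊(v : ℝ) * J⌋₊
            ⌊(q i x - h) * J⌋₊ B)) (x : Fct n b₁ X q) :
    ∃ s : Req, ZPr S₀ w₁ e (Rq s) (fun J G B => ¬ Bdf R b₁ X q x J G B) := by
  have hk : ∀ k : ℕ, (0 : ℝ) < 1 / ((k : ℝ) + 1) := fun k => by positivity
  rcases x with p | p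
  · exact hno p.1.1 p.2.1 p.2.2.1 p.1.2.1 p.1.2.1.2 p.2.2.2.1 p.1.2.2.1 p.2.2.2.2.1
      p.2.2.2.2.2.1 _ (hk _) p.2.2.2.2.2.2 _
  · obtain ⟨s, hs⟩ := hat p.1.1 p.2.1 p.2.2.1 p.1.2.1 p.1.2.1.2 p.2.2.2.1 p.1.2.2.1
      p.2.2.2.2.1 p.2.2.2.2.2 _ (hk p.1.2.2.2.1) _ (hk p.1.2.2.2.2)
    refine ⟨s, hs.mono fun J G A h1 h2 => ?_⟩
    obtain ⟨B, k1, k2, k3⟩ := h1
    refine h2 B k1 ?_ k3
    rw [Real.exp_neg, inv_mul_le_iff₀ (Real.exp_pos _)] at k2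
    exact k2

/-! ### The sums -/

/-- **The sum of the numbers** at a good window. -/
theorem Pk.base_sumX (H : Pk hn S P r P' Λ) (hTop : TopS n) (hF : FZX (n - 1))
    (hW : ∀ k, 2 ≤ k → k < n → RW k) {o : Od n} {g : ℝ} (hg : g ∈ Gs P r P' Λ o) {R b₁ : ℝ}
    (hR : 0 ≤ R) (hgb : g < b₁) {X : Set ℝ} (hXr : ∀ δ : ℝ, 0 < δ → ∃ x ∈ X, g < x ∧ x < g + δ)
    (hXl : ∀ δ : ℝ, 0 < δ → ∃ x ∈ X, g - δ < x ∧ x < g) {q : ℕ → ℝ → ℝ}
    (hqc : ∀ i, 1 ≤ i → i < n - 1 → ContinuousAt (q i) g)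
    (hqg : ∀ i, 1 ≤ i → i < n - 1 → g ≤ q i g) (hq1 : ∀ i, 1 ≤ i → i < n - 1 → q i g ≤ 1)
    (hQ : SlqX S R b₁ X q) :
    ∑ i ∈ range (n - 1), bet (P' o.2) (cc hn o.1.1) i g g =
      g + ∑ i ∈ range (n - 2), q (i + 1) g := by
  classical
  obtain ⟨α, Q, c, Fc⟩ := H.fac hTop hF hg
  obtain ⟨al, g₀, s, d, e₀, K₀, N, hal, hg₀, hC⟩ := H.cl
  have hWp := hg.1
  have hw0 := hWp.1.1
  have hw1 := hWp.1.2.1
  have hth := tht_pos o.2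
  have hcε : ∀ i : Fin (n - 1), cc hn o.1.1 i = bse (o.1.1 i) := fun i => cc_lt hn _ i.2
  have hinj : Function.Injective (fun i => bse (o.1.1 i) : Fin (n - 1) → Fin n) :=
    bse_inj.comp o.1.1.injective
  have hex : VExa S Λ (fun i => bse (o.1.1 i)) g := by
    intro ρ hρ
    refine vst_exa hF hC.ne (C₀ := 6) (by norm_num) H.tmc H.lam hal hg₀ hC.actm H.pos
      hinj (fun k hk => hC.actb _ ?_) hw0 hw1 hWp.1.2.2.1 hWp.1.2.2.2 hρ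
    exact o.1.2 k hk
  -- the numbers
  have hvs : ∀ j, (hj : j < n - 1) → vs Λ (fun i => bse (o.1.1 i)) g (j + 1) =
      bet (P' o.2) (cc hn o.1.1) j g g := by
    intro j hj
    have hbet : bet (P' o.2) (cc hn o.1.1) j g g < 1 - tht o.2 * g := by
      have h1 := Fc.le j hj g g hw0 le_rfl Fc.gα
      have h2 : tht o.2 * g ≤ tht o.2 := mul_le_of_le_one_right hth.le hw1.le
      have h3 := Fc.thc
      linarith
    have h1 := (bet_lt_iff hth hC.ne (C₀ := 6) (by norm_num) H.tmc H.lam (H.cht o.2) hinj hcε hWp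
      hex hj).1 hbet
    exact (bet_eq_vst hth hC.ne (C₀ := 6) (by norm_num) H.tmc H.lam (H.cht o.2) hinj hcε hWp hex
      hj h1).symm
  obtain ⟨q', hq'⟩ : ∃ q' : Fin (n - 1) → ℝ → ℝ,
      q' = fun (i : Fin (n - 1)) x => if (i : ℕ) = 0 then x else q i x := ⟨_, rfl⟩
  have hq'0 : ∀ (i : Fin (n - 1)) (x : ℝ), (i : ℕ) = 0 → q' i x = x := fun i x hi => by
    rw [hq']
    exact if_pos hi
  have hq'1 : ∀ i : Fin (n - 1), 1 ≤ (i : ℕ) → q' i = q i := fun i hi => by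
    rw [hq']
    funext x
    exact if_neg (by omega)
  have hmain := Pool.BSM.base_sumX (p := n - 1) (fun k h1 h2 => hW k h1 (by omega)) hal hg₀
    hC.actm hC.ne (C₀ := 6) (by norm_num) H.tmc H.pos H.lam (ε := fun i => bse (o.1.1 i))
    (v := bse) bse_inj (fun j => ⟨o.1.1.symm j, by rw [Equiv.apply_symm_apply]⟩)
    (fun j => ⟨o.1.1 j, rfl⟩) (fun i hi => hC.actb _ hi) (fun i hi => by
      congr 1
      exact Fin.ext ((o.1.2 i hi).trans hi.symm)) hWp.1 hex hR hgb hXr hXl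
    (q := q') (fun i hi => hq'0 i g hi) (fun i hi => by
      rw [hq'1 i hi]
      exact hqc i hi i.2) (fun i => by
      rcases Nat.eq_zero_or_pos (i : ℕ) with hi | hi
      · rw [hq'0 i g hi]
      · rw [hq'1 i hi]
        exact hqg i hi i.2) (fun i => by
      rcases Nat.eq_zero_or_pos (i : ℕ) with hi | hi
      · rw [hq'0 i g hi]
        exact hw1.le
      · rw [hq'1 i hi]
        exact hq1 i hi i.2)
    (fun i hi x hx hxb v hv hvx h hh hqh K => by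
      rw [hq'1 i hi] at hqh ⊢
      rw [image_bse]
      exact hQ.no (bse i) hi i.2 x hx hxb v hv hvx h hh hqh K)
    (fun i hi x hx hx0 v hxv hvb h hh τ hτ => by
      rw [hq'1 i hi, image_bse]
      exact hQ.att (bse i) hi i.2 x hx hx0 v hxv hvb h hh τ hτ)
  have e1 : ∑ j : Fin (n - 1), vs Λ (fun i => bse (o.1.1 i)) g (j + 1) =
      ∑ i ∈ range (n - 1), bet (P' o.2) (cc hn o.1.1) i g g := by
    rw [← Fin.sum_univ_eq_sum_range (fun i => bet (P' o.2) (cc hn o.1.1) i g g) (n - 1)]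
    exact Finset.sum_congr rfl fun j _ => hvs j j.2
  have e2 : ∑ j : Fin (n - 1), q' j g = g + ∑ i ∈ range (n - 2), q (i + 1) g := by
    have e3 : ∑ j : Fin (n - 1), q' j g =
        ∑ j : Fin (n - 1), (if (j : ℕ) = 0 then g else q j g) := by
      rw [hq']
    rw [e3, Fin.sum_univ_eq_sum_range (fun j => if j = 0 then g else q j g) (n - 1)]
    have e4 : n - 1 = (n - 2) + 1 := by omega
    rw [e4, Finset.sum_range_succ', if_pos rfl, add_comm]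
    congr 1
  rw [← e1, hmain, e2]

/-- **The sum of the base slopes.** -/
theorem PkT.base_slopesX (H : PkT hn S P r P' Λ PB) (hTop : TopS n) (hF : FZX (n - 1))
    (hW : ∀ k, 2 ≤ k → k < n → RW k) {R b₁ : ℝ} (hR : 0 ≤ R) {X E : Set ℝ}
    (hE : ∀ g ∈ E, 0 < g ∧ g < b₁ ∧ (∀ δ : ℝ, 0 < δ → ∃ x ∈ X, g < x ∧ x < g + δ) ∧
      ∀ δ : ℝ, 0 < δ → ∃ x ∈ X, g - δ < x ∧ x < g) {q : ℕ → ℝ → ℝ}
    (hqd : ∀ i, 1 ≤ i → i < n - 1 → ∀ᵐ g : ℝ, g ∈ E → DifferentiableAt ℝ (q i) g)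
    (hqg : ∀ i, 1 ≤ i → i < n - 1 → ∀ g ∈ E, g ≤ q i g)
    (hq1 : ∀ i, 1 ≤ i → i < n - 1 → ∀ g ∈ E, q i g ≤ 1)
    (hQ : SlqX S R b₁ X q) :
    ∀ᵐ g : ℝ, g ∈ E → ∀ o : Od n, g ∈ Gs P r P' Λ o →
      ∑ i ∈ range (n - 1), deriv ((H.nk hTop hF).dg o i) g =
        1 + ∑ i ∈ range (n - 2), deriv (q (i + 1)) g := by
  have hdg : ∀ (o : Od n) (i : ℕ), i < n - 1 → (H.nk hTop hF).dg o i = Dg hn P' o i := by
    intro o i hi
    funext a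
    unfold Pool.STR.NumI.dg
    exact dif_pos hi
  have hmono : ∀ (o : Od n) (i : ℕ), ∀ᵐ g : ℝ, 0 < g → g < 1 →
      DifferentiableAt ℝ (Dg hn P' o i) g := by
    intro o i
    have h1 := (dg_mono (H.cht o.2) ((List.range i).map (cc hn o.1.1), cc hn o.1.1 i)).ae_differentiableAt
    filter_upwards [h1] with g h2 h0 h1'
    refine h2.congr_of_eventuallyEq ?_
    filter_upwards [Ioo_mem_nhds h0 h1'] with v hv
    show bet (P' o.2) (cc hn o.1.1) i v v =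
      P' o.2 ((List.range i).map (cc hn o.1.1), cc hn o.1.1 i) (max 0 (min v 1)) (max 0 (min v 1))
    rw [min_eq_left hv.2.le, max_eq_right hv.1.le]
    rfl
  have h1 : ∀ᵐ g : ℝ, ∀ o : Od n, ∀ i, 0 < g → g < 1 → DifferentiableAt ℝ (Dg hn P' o i) g :=
    ae_all_iff.2 fun o => ae_all_iff.2 fun i => hmono o i
  have h2 : ∀ᵐ g : ℝ, ∀ i, 1 ≤ i → i < n - 1 → g ∈ E → DifferentiableAt ℝ (q i) g := by
    refine ae_all_iff.2 fun i => ?_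
    by_cases hi : 1 ≤ i ∧ i < n - 1
    · filter_upwards [hqd i hi.1 hi.2] with g h3 _ _
      exact h3
    · exact ae_of_all _ fun g h3 h4 => absurd ⟨h3, h4⟩ hi
  obtain ⟨T, hT⟩ : ∃ T : Od n → Set ℝ, T = fun o => {g | g ∈ Gs P r P' Λ o ∧ g ∈ E ∧
      (∀ i, DifferentiableAt ℝ (Dg hn P' o i) g) ∧
      ∀ i, 1 ≤ i → i < n - 1 → DifferentiableAt ℝ (q i) g} := ⟨_, rfl⟩
  have h3 : ∀ᵐ g : ℝ, ∀ o : Od n, g ∈ T o →
      deriv (fun v => ∑ i ∈ range (n - 1), Dg hn P' o i v) g =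
        deriv (fun v => v + ∑ i ∈ range (n - 2), q (i + 1) v) g := by
    refine ae_all_iff.2 fun o => Pool.BSM.deriv_eq_ae (fun g hg => ?_) (fun g hg => ?_)
      fun g hg => ?_
    · rw [hT] at hg
      obtain ⟨k1, k2, k4, k5⟩ := hg
      obtain ⟨-, k3, k6, k7⟩ := hE g k2
      exact H.toPk.base_sumX hTop hF hW k1 hR k3 k6 k7
        (fun i h1 h2 => (k5 i h1 h2).continuousAt) (fun i h1 h2 => hqg i h1 h2 g k2)
        (fun i h1 h2 => hq1 i h1 h2 g k2) hQ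
    · rw [hT] at hg
      exact DifferentiableAt.fun_sum fun i _ => hg.2.2.1 i
    · rw [hT] at hg
      refine differentiableAt_id.add (DifferentiableAt.fun_sum fun i hi => ?_)
      have := Finset.mem_range.1 hi
      exact hg.2.2.2 (i + 1) (by omega) (by omega)
  filter_upwards [h1, h2, h3] with g k1 k2 k3 hgE o ho
  obtain ⟨h0, hb, -⟩ := hE g hgE
  have hg1 : g < 1 := ho.1.1.2.1
  have hgT : g ∈ T o := by
    rw [hT]
    exact ⟨ho, hgE, fun i => k1 o i h0 hg1, fun i a b => k2 i a b hgE⟩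
  have h4 := k3 o hgT
  rw [deriv_fun_sum (fun i _ => k1 o i h0 hg1), deriv_fun_add differentiableAt_id
    (DifferentiableAt.fun_sum fun i hi => by
      have := Finset.mem_range.1 hi
      exact k2 (i + 1) (by omega) (by omega) hgE), deriv_id'',
    deriv_fun_sum (fun i hi => by
      have := Finset.mem_range.1 hi
      exact k2 (i + 1) (by omega) (by omega) hgE)] at h4
  rw [← h4]
  refine Finset.sum_congr rfl fun i hi => ?_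
  rw [hdg o i (Finset.mem_range.1 hi)]

end Pool.PKG
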