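import Pool.Agent.H52.SUM.Celp
import Pool.Agent.H77.Z4.Gd

/-!
# Cells of the coordinates of a zoom, one family

`shr_of_shY`: the shear for larger steps. `zd_near`: the differences of the sheared coordinates of two
samples with the same time and the same code. `Slt`: the coordinates of the zoom in terms of the
sheared coordinates; `slt_A`, `slt_B`, `slt_N`: the two cases. `cel_slot`: the coordinates of the zoom
of two samples. `cel_zfc`: cells in the zoom, on a large event.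
-/

set_option autoImplicit false

namespace Pool.BSM

open Finset Real MvPolynomial
open Pool.Agent.H49.Ent Pool.Agent.H32.Dense Pool.STK Pool.KA Pool.KSAT Pool.K2S Pool.PB Pool.S6C
open Pool.GEN Pool.CHT Pool.SHR Pool.ZCL Pool.ZLC Pool.PSI
open Pool.Z3 (ShY)
open Pool.ONE (lst)
open Pool.PKG (ix)

variable {m n J : ℕ}

/-- **The shear for larger steps.** -/
theorem shr_of_shY (D : ℕ) : ∃ C : ℕ, ∀ {m J : ℕ} {F : Fam m J} {c : ℕ → Fin m}
    {l i a h y : ℕ} {g : ℕ → ℕ} {G : PtT F → ℕ → MvPolynomial (Option (Fin m)) ℝ}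
    {v : PtT F → Fin m → ℝ} {ω : F.Ω}, (G (ptr F J ω) i).totalDegree ≤ D → g l ≤ y →
    ShY F c l a y g G v h i ω → Shr F c l a g G v (C * (y - g l + 1) + h) i ω := by
  obtain ⟨C, hC, hgr⟩ := grow_one (D + 1)
  obtain ⟨c₀, hc₀⟩ := pow_unbounded_of_one_lt C (one_lt_two (α := ℝ))
  refine ⟨c₀ + D + 1, ?_⟩
  intro m J F c l i a h y g G v ω hdeg hy hS b hb s hs
  obtain ⟨k, hk⟩ : ∃ k, k = y - g l := ⟨_, rfl⟩
  rw [← hk]
  have hs' : |s| ≤ 2 ^ k / 2 ^ y := by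
    refine hs.trans (le_of_eq ?_)
    have e1 : (2 : ℝ) ^ y = 2 ^ k * 2 ^ g l := by
      rw [← pow_add]
      congr 1
      omega
    rw [e1]
    field_simp
  obtain ⟨f, hf⟩ : ∃ f : Polynomial ℝ,
      f = (MvPolynomial.aeval (lnv (v (ptr F J ω)) b) (G (ptr F J ω) i) -
        Polynomial.C (eval b (G (ptr F J ω) i)) -
        Polynomial.C (v (ptr F J ω) (c i)) * Polynomial.X).comp
        (Polynomial.C s * Polynomial.X) := ⟨_, rfl⟩
  have hfe : ∀ τ, f.eval τ = eval (mvp (v (ptr F J ω)) (s * τ) b) (G (ptr F J ω) i) -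
      eval b (G (ptr F J ω) i) - s * τ * v (ptr F J ω) (c i) := by
    intro τ
    rw [hf, Polynomial.eval_comp, Polynomial.eval_sub, Polynomial.eval_sub, eval_lnv]
    simp only [Polynomial.eval_mul, Polynomial.eval_C, Polynomial.eval_X]
    ring
  have hfd : f.natDegree ≤ D + 1 := by
    rw [hf]
    refine Polynomial.natDegree_comp_le.trans ?_
    have h1 : (MvPolynomial.aeval (lnv (v (ptr F J ω)) b) (G (ptr F J ω) i) -
        Polynomial.C (eval b (G (ptr F J ω) i)) -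
        Polynomial.C (v (ptr F J ω) (c i)) * Polynomial.X).natDegree ≤ D + 1 := by
      refine (Polynomial.natDegree_sub_le _ _).trans (max_le ?_ ?_)
      · refine (Polynomial.natDegree_sub_le _ _).trans (max_le ?_ ?_)
        · exact (natDegree_lnv _ b hdeg).trans (Nat.le_succ _)
        · rw [Polynomial.natDegree_C]
          exact Nat.zero_le _
      · exact ((Polynomial.natDegree_C_mul_le _ _).trans Polynomial.natDegree_X_le).trans
          (by omega)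
    have h2 : (Polynomial.C s * Polynomial.X : Polynomial ℝ).natDegree ≤ 1 :=
      (Polynomial.natDegree_C_mul_le _ _).trans Polynomial.natDegree_X_le
    calc _ ≤ (D + 1) * 1 := Nat.mul_le_mul h1 h2
      _ = D + 1 := mul_one _
  have h1 := hgr f (2 ^ h / 2 ^ g i) k (D + 1) hfd le_rfl (fun τ hτ => by
    rw [hfe]
    refine hS b hb _ ?_
    rw [abs_mul, abs_of_nonneg (div_nonneg hτ.1 (by positivity))]
    calc |s| * (τ / 2 ^ k) ≤ 2 ^ k / 2 ^ y * (1 / 2 ^ k) :=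
          mul_le_mul hs' (div_le_div_of_nonneg_right hτ.2 (by positivity))
            (div_nonneg hτ.1 (by positivity)) (by positivity)
      _ = _ := by field_simp)
  rw [hfe, mul_one] at h1
  refine h1.trans ?_
  calc C * 2 ^ (k * (D + 1)) * (2 ^ h / 2 ^ g i)
      ≤ 2 ^ c₀ * 2 ^ (k * (D + 1)) * (2 ^ h / 2 ^ g i) :=
        mul_le_mul_of_nonneg_right (mul_le_mul_of_nonneg_right hc₀.le (by positivity))
          (by positivity)
    _ = 2 ^ (c₀ + k * (D + 1) + h) / 2 ^ g i := by rw [pow_add, pow_add]; ring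
    _ ≤ _ := div_le_div_of_nonneg_right (pow_le_pow_right₀ (by norm_num) (by nlinarith))
        (by positivity)

/-- The difference of two samples, without the motion in the direction `v`. -/
noncomputable def zdv (F : Fam m J) (u : Fin m) (v : Fin m → ℝ) (ω ω' : F.Ω) : Fin m → ℝ :=
  fun j => F.x ω' j - F.x ω j - (F.x ω' u - F.x ω u) * v j

/-- **The sheared coordinates of two samples** with the same time and the same code. -/
theorem zd_near (D r : ℕ) : ∃ C : ℕ, ∀ {m J : ℕ} {F : Fam m J} {c : ℕ → Fin m}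
    {n a w w' e l h k : ℕ} {g δ : ℕ → ℕ} {B : F.Ω → Prop}
    {G : PtT F → ℕ → MvPolynomial (Option (Fin m)) ℝ}
    {H : LnT F → ℕ → MvPolynomial (Option (Fin m)) ℝ} {V : Type} {z : PtT F → V} {z' : LnT F → V}
    {P : V → ℕ → MvPolynomial (Option (Fin m)) ℝ} {v : PtT F → Fin m → ℝ}, n ≤ r →
    Set.InjOn c (Set.Iio n) → ChOK F c n (fun _ => D) a w e g B G H →
    Cod F c n D k a w' g B G z z' P →
    (∀ i < n, ∀ l < i, e + C * (h + k + 1) + (Finset.Icc l i).sup g ≤ δ l) →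
    (∀ ω, B ω → v (ptr F J ω) (c l) = 1 ∧ ∀ j < l, v (ptr F J ω) (c j) = 0) →
    (∀ ω, B ω → ∀ i, l < i → i < n → Shr F c l a g G v h i ω) →
    ∀ ω ω', B ω → B ω' → F.t ω = F.t ω' → z' (slam F w' ω) = z' (slam F w' ω') →
    ∀ i < n, i ≠ l →
    (∀ j < i, j ≠ l → |zdv F (c l) (v (ptr F J ω)) ω ω' (c j)| ≤ 1 / 2 ^ δ j) →
      |zdv F (c l) (v (ptr F J ω)) ω ω' (c i)| ≤ 2 ^ (C * (h + k + 1)) / 2 ^ g i := by
  obtain ⟨C₁, hnx⟩ := near_x D r
  obtain ⟨C₂, hnz⟩ := near_z D r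
  refine ⟨C₁ + C₂, ?_⟩
  intro m J F c n a w w' e l h k g δ B G H V z z' P v hn hc hL hC hδ hv hS ω ω' hω hω' ht hz i hi
    hil hzj
  obtain ⟨v1, v0⟩ := hv ω hω
  have hz0 : ∀ j < l, zdv F (c l) (v (ptr F J ω)) ω ω' (c j) = F.x ω' (c j) - F.x ω (c j) := by
    intro j hj
    unfold zdv
    rw [v0 j hj]
    ring
  have hup : ∀ X : ℕ, X ≤ (C₁ + C₂) * (h + k + 1) → (2 : ℝ) ^ X / 2 ^ g i ≤
      2 ^ ((C₁ + C₂) * (h + k + 1)) / 2 ^ g i := fun X hX =>
    div_le_div_of_nonneg_right (pow_le_pow_right₀ (by norm_num) hX) (by positivity)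
  rcases lt_or_gt_of_ne hil with h1 | h1
  · rw [hz0 i h1]
    refine (hnx (δ := δ) hn hc hL hC (fun i hi l hl => ?_) ω ω' hω hω' ht hz i hi fun j hj => ?_).trans
      (hup _ ?_)
    · have h2 := hδ i hi l hl
      have h3 : C₁ ≤ (C₁ + C₂) * (h + k + 1) := by
        calc C₁ ≤ C₁ + C₂ := Nat.le_add_right _ _
          _ ≤ (C₁ + C₂) * (h + k + 1) := Nat.le_mul_of_pos_right _ (by omega)
      omega
    · have h2 := hzj j hj (by omega)
      rwa [hz0 j (by omega)] at h2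
    · exact Nat.mul_le_mul (Nat.le_add_right _ _) (by omega)
  · have h3 := hnz (δ := δ) hn hc hL hC (fun i hi l hl => ?_) hv hS ω ω' hω hω' ht hz i h1 hi
      (fun j hj => ?_) fun j hj hlj => ?_
    · refine le_trans (le_of_eq ?_) (h3.trans (hup _ ?_))
      · rfl
      · exact Nat.mul_le_mul_right _ (Nat.le_add_left _ _)
    · have h2 := hδ i hi l hl
      have h3 : C₂ * (h + k + 1) ≤ (C₁ + C₂) * (h + k + 1) :=
        Nat.mul_le_mul_right _ (Nat.le_add_left _ _)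
      omega
    · have h2 := hzj j (by omega) (by omega)
      rwa [hz0 j hj] at h2
    · exact hzj j hj (by omega)

/-! ### The coordinates of the zoom -/

/-- **The coordinates of the zoom** before the slot `i` in terms of the coordinates of the family,
for the vectors without a component `u`: the coordinate `ix l j` is at most `2 ^ μ` times the slot
`j`, for `j < i`, and the slot `i` is at most `s` times the coordinate `ix l i`. -/
structure Slt {κ : Type} (C : Crd n κ) (k : κ) (v : Fin n → ℝ) (c : ℕ → Fin n) (l : ℕ)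
    (e : Fin n → Fin n) (i : Fin n) (μ : ℕ) (s : ℝ) : Prop where
  dir : ∀ j : Fin n, (j : ℕ) ≤ i → C.L k v (e j) = 0
  lo : ∀ y : Fin n → ℝ, y (c l) = 0 → ∀ j : Fin n, (j : ℕ) < i →
    |y (c (ix l j))| ≤ 2 ^ μ * |C.L k y (e j)|
  up : ∀ y : Fin n → ℝ, y (c l) = 0 → |C.L k y (e i)| ≤ s * |y (c (ix l i))|

section

open Pool.PKG Pool.Z4

variable (hn : 2 ≤ n) (σ : Equiv.Perm (Fin (n - 1))) {l : ℕ}

theorem sh_val {κ : Type} {cb : κ → Fin n → ℝ} {u : Fin n} {Lt : Finset (Fin n)} {hu : u ∉ Lt}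
    {M : Fin n → ℕ} {μ : ℕ} (hM : ∀ k, M k ≤ μ) (v : κ) {y : Fin n → ℝ} (hy : y u = 0)
    (k : Fin n) : |y k| ≤ 2 ^ μ * |(shC cb u Lt hu M).L v y k| ∧
      |(shC cb u Lt hu M).L v y k| ≤ |y k| := by
  have p1 : (1 : ℝ) ≤ 2 ^ μ := one_le_pow₀ one_le_two
  by_cases hk : k ∈ Lt
  · rw [shC_mem hk, hy, mul_zero, sub_zero, abs_div, abs_of_pos (by positivity : (0 : ℝ) < 2 ^ M k)]
    constructor
    · rw [mul_div_assoc', le_div_iff₀ (by positivity), mul_comm]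
      exact mul_le_mul_of_nonneg_right (pow_le_pow_right₀ one_le_two (hM k)) (abs_nonneg _)
    · exact div_le_self (abs_nonneg _) (one_le_pow₀ one_le_two)
  · rw [shC_not hk]
    exact ⟨le_mul_of_one_le_left (abs_nonneg _) p1, le_rfl⟩

theorem sw_val {κ : Type} {cb : κ → Fin n → ℝ} {u N : Fin n} {Lt : Finset (Fin n)}
    {hu : u ∉ Lt} {huN : u ≠ N} {M : Fin n → ℕ} {μ : ℕ} (hM : ∀ k, M k ≤ μ) (v : κ)
    {y : Fin n → ℝ} (hy : y u = 0) {k : Fin n} (hku : k ≠ u) (hkN : k ≠ N) :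
    |y k| ≤ 2 ^ μ * |(swC cb u N Lt huN M).L v y k| ∧
      |(swC cb u N Lt huN M).L v y k| ≤ |y k| := by
  rw [swC_eq (hu := hu) hku hkN]
  exact sh_val hM v hy k

/-- **The slots in case A.** -/
theorem slt_A {hl : l < n - 1} {h : ℝ} {κ : Type} {cb : κ → Fin n → ℝ} {v : κ}
    (h1 : ∀ i, l < i → i < n - 1 → |cb v (cc hn σ i)| ≤ 2 ^ ⌊h * J⌋₊)
    (h2 : |cb v (lst hn)| ≤ 1) {i : Fin n} (hi : (i : ℕ) < n - 1) :
    Slt (CrA hn σ hl h J cb) v (dcb (cc hn σ) l (cb v)) (cc hn σ) l (ez hn σ l) i ⌊h * J⌋₊ 1 := by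
  have hM : ∀ k : Fin n, (if k = lst hn then 0 else ⌊h * (J : ℝ)⌋₊) ≤ ⌊h * (J : ℝ)⌋₊ := by
    intro k
    split_ifs
    · exact Nat.zero_le _
    · exact le_rfl
  refine ⟨fun j hj => ?_, fun y hy j hj => ?_, fun y hy => ?_⟩
  · rw [← crA_dir hn σ hl h1 h2]
    refine shC_dir (ez_ne hn σ hl fun h => ?_) _
    have := congrArg Fin.val h
    change (j : ℕ) = n - 1 at this
    omega
  · rw [← ez_ix hn σ l (k := j) (by omega)]
    exact (sh_val hM v hy _).1
  · rw [one_mul, ← ez_ix hn σ l (k := i) hi]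
    exact (sh_val hM v hy _).2

/-- **The slots before the last one in case B.** -/
theorem slt_B {hl : l < n - 1} {h : ℝ} {κ : Type} {cb : κ → Fin n → ℝ} {v : κ}
    (h1 : ∀ i, l < i → i < n - 1 → |cb v (cc hn σ i)| ≤ 2 ^ ⌊h * J⌋₊)
    (h2 : 1 ≤ |cb v (lst hn)|) {i : Fin n} (hi : (i : ℕ) < n - 2) :
    Slt (CrB hn σ hl h J cb) v (dcb (cc hn σ) l (cb v)) (cc hn σ) l (ez hn σ l) i ⌊h * J⌋₊ 1 := by
  have hu : cc hn σ l ∉ Lts (cc hn σ) l (n - 1) :=
    Lts_le (cc_injOn hn σ) (by omega) (by omega) le_rfl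
  have hNm : lst hn ∉ Lts (cc hn σ) l (n - 1) := by
    have h1 := Lts_top (c := cc hn σ) (l := l) (cc_injOn hn σ)
    rwa [cc_top] at h1
  have hlast : ((lst hn : Fin n) : ℕ) = n - 1 := rfl
  have hne : ∀ j : Fin n, (j : ℕ) < n - 2 → ez hn σ l j ≠ lst hn := by
    intro j hj
    rw [ez_ix hn σ l (by omega)]
    refine cc_ne hn σ ?_
    unfold ix
    split_ifs <;> omega
  have hneu : ∀ j : Fin n, (j : ℕ) < n - 1 → ez hn σ l j ≠ cc hn σ l := by
    intro j hj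
    refine ez_ne hn σ hl fun h => ?_
    have := congrArg Fin.val h
    omega
  refine ⟨fun j hj => ?_, fun y hy j hj => ?_, fun y hy => ?_⟩
  · rw [← crB_dir hn σ hl h1]
    exact swC_dir hu hNm (hneu j (by omega)) _ h2
  · rw [← ez_ix hn σ l (k := j) (by omega)]
    exact (sw_val (hu := hu) (fun _ => le_rfl) v hy (hneu j (by omega)) (hne j (by omega))).1
  · rw [one_mul, ← ez_ix hn σ l (k := i) (by omega)]
    exact (sw_val (hu := hu) (fun _ => le_rfl) v hy (hneu i (by omega)) (hne i hi)).2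

/-- **The last slot in case B.** -/
theorem slt_N {hl : l < n - 1} {h : ℝ} {κ : Type} {cb : κ → Fin n → ℝ} {v : κ}
    (h1 : ∀ i, l < i → i < n - 1 → |cb v (cc hn σ i)| ≤ 2 ^ ⌊h * J⌋₊)
    (h2 : 1 ≤ |cb v (lst hn)|) {q : ℕ} (h3 : 2 ^ q ≤ |cb v (lst hn)|) {i : Fin n}
    (hi : (i : ℕ) = n - 2) :
    Slt (CrB hn σ hl h J cb) v (dcb (cc hn σ) l (cb v)) (cc hn σ) l (ez hn σ l) i ⌊h * J⌋₊
      (1 / 2 ^ q) := by
  have hu : cc hn σ l ∉ Lts (cc hn σ) l (n - 1) :=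
    Lts_le (cc_injOn hn σ) (by omega) (by omega) le_rfl
  have hNm : lst hn ∉ Lts (cc hn σ) l (n - 1) := by
    have h1 := Lts_top (c := cc hn σ) (l := l) (cc_injOn hn σ)
    rwa [cc_top] at h1
  have hlast : ((lst hn : Fin n) : ℕ) = n - 1 := rfl
  have hne : ∀ j : Fin n, (j : ℕ) < n - 2 → ez hn σ l j ≠ lst hn := by
    intro j hj
    rw [ez_ix hn σ l (by omega)]
    refine cc_ne hn σ ?_
    unfold ix
    split_ifs <;> omega
  have hneu : ∀ j : Fin n, (j : ℕ) < n - 1 → ez hn σ l j ≠ cc hn σ l := by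
    intro j hj
    refine ez_ne hn σ hl fun h => ?_
    have := congrArg Fin.val h
    omega
  have hixi : cc hn σ (ix l i) = lst hn := by
    refine cc_ge hn σ ?_
    unfold ix
    rw [if_neg (by omega)]
    omega
  refine ⟨fun j hj => ?_, fun y hy j hj => ?_, fun y hy => ?_⟩
  · rw [← crB_dir hn σ hl h1]
    exact swC_dir hu hNm (hneu j (by omega)) _ h2
  · rw [← ez_ix hn σ l (k := j) (by omega)]
    exact (sw_val (hu := hu) (fun _ => le_rfl) v hy (hneu j (by omega)) (hne j (by omega))).1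
  · rw [ez_ix hn σ l (k := i) (by omega), hixi]
    unfold CrB
    rw [swC_N, hy, zero_sub, abs_neg, abs_mul]
    refine mul_le_mul_of_nonneg_right ?_ (abs_nonneg _)
    have h4 : |(cb v (lst hn))⁻¹| ≤ 1 / 2 ^ q := by
      rw [abs_inv, ← one_div]
      exact one_div_le_one_div_of_le (by positivity) h3
    rw [clp_of (h4.trans (by
      rw [pow_zero]
      exact div_le_one_of_le₀ (one_le_pow₀ one_le_two) (by positivity)))]
    exact h4

end

/-- **The slots of two samples** with the same time and the same codes. -/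
theorem cel_slot (D r : ℕ) : ∃ C : ℕ, ∀ {n J : ℕ} {F : Fam n J} {c : ℕ → Fin n}
    {r₁ a w w' W e l h k μ : ℕ} {g : ℕ → ℕ} {B : F.Ω → Prop}
    {G : PtT F → ℕ → MvPolynomial (Option (Fin n)) ℝ}
    {H : LnT F → ℕ → MvPolynomial (Option (Fin n)) ℝ} {V : Type} {z : PtT F → V} {z' : LnT F → V}
    {P : V → ℕ → MvPolynomial (Option (Fin n)) ℝ} {v : PtT F → Fin n → ℝ} {κ : Type}
    {Cr : Crd n κ} {ζ' : LnT F → κ} {ε : Fin n → Fin n} {i : Fin n} {s : ℝ}, r₁ ≤ r →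
    Set.InjOn c (Set.Iio r₁) → ChOK F c r₁ (fun _ => D) a w e g B G H →
    Cod F c r₁ D k a w' g B G z z' P → 3 + μ ≤ J →
    (∀ i < r₁, ∀ l < i, e + C * (h + k + 1) + (Finset.Icc l i).sup g ≤ J - (3 + μ)) →
    (∀ ω, B ω → v (ptr F J ω) (c l) = 1 ∧ ∀ j < l, v (ptr F J ω) (c j) = 0) →
    (∀ ω, B ω → ∀ i, l < i → i < r₁ → Shr F c l a g G v h i ω) → 0 ≤ s → ix l i < r₁ →
    (∀ ω, B ω → Slt Cr (ζ' (slam F W ω)) (v (ptr F J ω)) c l ε i μ s) →
    ∀ ω ω', B ω → B ω' → F.T ω = F.T ω' → z' (slam F w' ω) = z' (slam F w' ω') →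
    ζ' (slam F W ω) = ζ' (slam F W ω') →
    (∀ j : Fin n, (j : ℕ) < i → |Cr.L (ζ' (slam F W ω)) (F.x ω) (ε j) -
      Cr.L (ζ' (slam F W ω)) (F.x ω') (ε j)| ≤ 7 / 2 ^ J) →
    |Cr.L (ζ' (slam F W ω)) (F.x ω) (ε i) - Cr.L (ζ' (slam F W ω)) (F.x ω') (ε i)| ≤
      s * (2 ^ (C * (h + k + 1)) / 2 ^ g (ix l i)) := by
  obtain ⟨C, hzd⟩ := zd_near D r
  refine ⟨C, ?_⟩
  intro n J F c r₁ a w w' W e l h k μ g B G H V z z' P v κ Cr ζ' ε i s hr hc hL hC hμ hδ hv hS hs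
    hi hSl ω ω' hω hω' hT hz hζ hj
  have ht : F.t ω = F.t ω' := by
    unfold Fam.t
    rw [hT]
  obtain ⟨k₀, hk₀⟩ : ∃ k₀, k₀ = ζ' (slam F W ω) := ⟨_, rfl⟩
  obtain ⟨y, hy⟩ : ∃ y, y = zdv F (c l) (v (ptr F J ω)) ω ω' := ⟨_, rfl⟩
  obtain ⟨hsd, hslo, hsup⟩ := hSl ω hω
  rw [← hk₀] at hsd hslo hsup hj ⊢
  obtain ⟨v1, v0⟩ := hv ω hω
  have hyu : y (c l) = 0 := by
    rw [hy]
    unfold zdv
    rw [v1]
    ring
  have hLy : ∀ j : Fin n, (j : ℕ) ≤ i → Cr.L k₀ y (ε j) =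
      Cr.L k₀ (F.x ω') (ε j) - Cr.L k₀ (F.x ω) (ε j) := by
    intro j hj'
    have e1 : y = fun j => (fun j => F.x ω' j - F.x ω j) j +
        (-(F.x ω' (c l) - F.x ω (c l))) * (v (ptr F J ω)) j := by
      rw [hy]
      funext j
      unfold zdv
      ring
    rw [e1, Cr.lin, L_sub, hsd j hj', mul_zero, add_zero]
  have hzj : ∀ j < ix l i, j ≠ l → |y (c j)| ≤ 1 / 2 ^ (J - (3 + μ)) := by
    intro j hj1 hj2
    obtain ⟨j', hj', hj''⟩ : ∃ j' : Fin n, (j' : ℕ) < i ∧ ix l j' = j := by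
      have hin := i.2
      rcases Nat.lt_or_ge j l with h1 | h1
      · refine ⟨⟨j, ?_⟩, ?_, ?_⟩
        · unfold ix at hj1
          split_ifs at hj1 <;> omega
        · unfold ix at hj1
          simp only
          split_ifs at hj1 <;> omega
        · unfold ix
          simp only [if_pos h1]
      · refine ⟨⟨j - 1, ?_⟩, ?_, ?_⟩
        · unfold ix at hj1
          split_ifs at hj1 <;> omega
        · unfold ix at hj1
          simp only
          split_ifs at hj1 <;> omega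
        · unfold ix
          simp only
          rw [if_neg (by omega)]
          omega
    rw [← hj'']
    refine (hslo y hyu j' hj').trans ?_
    rw [hLy j' hj'.le, abs_sub_comm]
    calc 2 ^ μ * |Cr.L k₀ (F.x ω) (ε j') - Cr.L k₀ (F.x ω') (ε j')| ≤ 2 ^ μ * (7 / 2 ^ J) :=
          mul_le_mul_of_nonneg_left (hj j' hj') (by positivity)
      _ ≤ 2 ^ μ * (8 / 2 ^ J) := mul_le_mul_of_nonneg_left
          (div_le_div_of_nonneg_right (by norm_num) (by positivity)) (by positivity)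
      _ = 1 / 2 ^ (J - (3 + μ)) := by
          have e1 : (2 : ℝ) ^ J = 2 ^ (J - (3 + μ)) * (2 ^ 3 * 2 ^ μ) := by
            rw [← pow_add, ← pow_add]
            congr 1
            omega
          rw [e1]
          field_simp
          norm_num
  have hmain := hzd (δ := fun _ => J - (3 + μ)) hr hc hL hC (fun i hi l hl => hδ i hi l hl) hv hS
    ω ω' hω hω' ht hz (ix l i) hi (by
      unfold ix
      split_ifs <;> omega) (fun j hj1 hj2 => by
      rw [← hy]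
      exact hzj j hj1 hj2)
  rw [← hy] at hmain
  have h5 := hsup y hyu
  rw [hLy i le_rfl, abs_sub_comm] at h5
  exact h5.trans (mul_le_mul_of_nonneg_left hmain hs)

/-! ### The cells in the zoom -/

open Pool.ZFW (InvB ptz_inv pop_zfc zfc_t' T_eq)

/-- **Cells in the zoom**, on a large event. -/
theorem cel_zfc {κ : Type} (F : Fam m J) {W J' V : ℕ} (h : W + J' = J) (hV : V ≤ J')
    (C : Crd m κ) (z' : LnT F → κ) (e : Fin n → Fin m) {A : F.Ω → Prop} {Q : ℝ}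
    (hinv : ∀ ω, A ω → InvB C e (z' (slam F W ω)) Q) {Kc : ℕ} (hKc : 7 * Q + 1 ≤ Kc)
    (hA : 0 < Pe F.p A) {b : ℝ}
    (hTm : ∀ B : F.Ω → Prop, Sub B A → Pe F.p A ≤ (2 * Kc + 1) ^ m * Pe F.p B →
      ∀ hl : IsLaw (Pool.Agent.H49.Ent.cond F.p B True), (F.res B True hl).Tm b)
    {Y : Type} {y : PtT F → Y} {y' : LnT F → Y}
    (hcls : ∀ ω, A ω → y (ptr F J ω) = y' (slam F (W + V) ω)) {I : Finset (Fin n)} {k : Fin n}
    {P' : ℕ} {X : ℝ}
    (hcel : ∀ ω ω', A ω → A ω' → F.T ω = F.T ω' →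
      y' (slam F (W + V) ω) = y' (slam F (W + V) ω') → z' (slam F W ω) = z' (slam F W ω') →
      (∀ j ∈ I, |C.L (z' (slam F W ω)) (F.x ω) (e j) -
        C.L (z' (slam F W ω)) (F.x ω') (e j)| ≤ 7 / 2 ^ J) →
      |C.L (z' (slam F W ω)) (F.x ω) (e k) - C.L (z' (slam F W ω)) (F.x ω') (e k)| ≤ X)
    (hX : 2 ^ W * X + 6 / 2 ^ J' ≤ 2 / 2 ^ P') :
    ∃ B : F.Ω → Prop, Sub B A ∧
      Real.exp (-b) * Pe F.p A ≤ (2 * Kc + 1) ^ m * Pe F.p B ∧
      Cel (zfc F W J' h.le C (fun ω => z' (slam F W ω)) e) I k V P' B := by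
  classical
  obtain ⟨B₀, hB0, hPB0, hpt⟩ := ptz_inv F h C (fun ω => z' (slam F W ω)) e hKc A hinv
  have p1 : (0 : ℝ) < (2 * Kc + 1) ^ m := by positivity
  have hB0p : 0 < Pe F.p B₀ := by
    by_contra hcon
    push Not at hcon
    have := mul_nonpos_of_nonneg_of_nonpos p1.le hcon
    linarith
  obtain ⟨B, hB, hPB, v, hv⟩ := pop_zfc F h hV C z' e hB0p y y'
    (fun ω hω => hcls ω (hB0 ω hω)) hpt (hTm B₀ hB0 hPB0)
  have hBA : Sub B A := fun ω hω => hB0 ω (hB ω hω)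
  -- the point side
  obtain ⟨ζ, hζ⟩ := fac (f := ptr (zfc F W J' h.le C (fun ω => z' (slam F W ω)) e) J')
    (Y := fun ω => (y (ptr F J ω), F.blab W C (fun ω => z' (slam F W ω)) ω)) (B := B) (by
      intro ω ω' h1 h2 hh
      have a1 := hpt ω ω' (hB ω h1) (hB ω' h2) hh
      have a2 : F.blab W C (fun ω => z' (slam F W ω)) ω =
        F.blab W C (fun ω => z' (slam F W ω)) ω' := (Prod.ext_iff.1 (Prod.ext_iff.1 hh).2).2
      exact Prod.ext (congrArg y a1) a2)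
  -- the line side
  obtain ⟨ζ', hζ'⟩ : ∃ ζ' : LnT (zfc F W J' h.le C (fun ω => z' (slam F W ω)) e) →
      Option (Y × ((((ℕ × κ) × ((Fin m → ℤ) × (Fin m → ℤ))) × F.ζ))),
      ζ' = fun s => some (v s, s.2.1) := ⟨_, rfl⟩
  have hζ'v : ∀ ω, B ω → ζ' (slam (zfc F W J' h.le C (fun ω => z' (slam F W ω)) e) V ω) =
      some (y' (slam F (W + V) ω), F.blab W C (fun ω => z' (slam F W ω)) ω) := by
    intro ω hω
    rw [hζ']
    simp only
    rw [← hv ω hω, hcls ω (hBA ω hω)]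
    rfl
  refine ⟨B, hBA, ?_, _, ζ, ζ', ?_, ?_⟩
  · have h1 := mul_le_mul_of_nonneg_left hPB0 (Real.exp_pos (-b)).le
    have h2 := mul_le_mul_of_nonneg_left hPB p1.le
    calc Real.exp (-b) * Pe F.p A ≤ Real.exp (-b) * ((2 * Kc + 1) ^ m * Pe F.p B₀) := h1
      _ = (2 * Kc + 1) ^ m * (Real.exp (-b) * Pe F.p B₀) := by ring
      _ ≤ _ := h2
  · intro ω hω
    rw [hζ ω hω, hζ'v ω hω, hcls ω (hBA ω hω)]
  · intro ω ω' hω hω' hT hz hI
    rw [hζ'v ω hω, hζ'v ω' hω', Option.some.injEq, Prod.mk.injEq] at hz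
    obtain ⟨hy, b3⟩ := hz
    obtain ⟨g, hg⟩ : ∃ g : F.Ω → κ, g = fun ω => z' (slam F W ω) := ⟨_, rfl⟩
    have hgv : ∀ ω, g ω = z' (slam F W ω) := fun ω => by rw [hg]
    rw [← hg] at b3 hT hI ⊢
    have c1 := Prod.ext_iff.1 b3
    have c2 := Prod.ext_iff.1 c1.1
    have c3 : F.T1 W ω = F.T1 W ω' := (Prod.ext_iff.1 c2.1).1
    have c4 : g ω = g ω' := (Prod.ext_iff.1 c2.1).2
    have c5 : F.bcl W C g ω = F.bcl W C g ω' := (Prod.ext_iff.1 c2.2).1
    have c6 : F.bvl C g ω = F.bvl C g ω' := (Prod.ext_iff.1 c2.2).2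
    have hTT : F.T ω = F.T ω' := by
      rw [T_eq F h C g e ω, T_eq F h C g e ω', hT, c3]
    have htb : tb F W ω = tb F W ω' := by
      unfold tb Fam.t
      rw [hTT, c3]
    have pJ' : (0 : ℝ) < 2 ^ J' := by positivity
    have pJ : (0 : ℝ) < 2 ^ J := by positivity
    have pW : (0 : ℝ) < 2 ^ W := by positivity
    have e1 : (2 : ℝ) ^ J = 2 ^ W * 2 ^ J' := by rw [← pow_add, h]
    -- the slots before
    have hL : ∀ j ∈ I, |C.L (g ω) (F.x ω) (e j) - C.L (g ω) (F.x ω') (e j)| ≤ 7 / 2 ^ J := by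
      intro j hj
      have d1 := zfc_x F h.le C g e ω j
      have d2 := zfc_x F h.le C g e ω' j
      rw [← c4, ← c5, ← c6, ← htb] at d2
      have d3 : |(zfc F W J' h.le C g e).x ω j - (zfc F W J' h.le C g e).x ω' j| ≤ 1 / 2 ^ J' := by
        have d4 := Plk.abs_sub_lt_of_floor (hI j hj :
          ⌊(2 : ℝ) ^ J' * (zfc F W J' h.le C g e).x ω j⌋ =
            ⌊(2 : ℝ) ^ J' * (zfc F W J' h.le C g e).x ω' j⌋)
        rw [← mul_sub, abs_mul, abs_of_pos pJ'] at d4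
        rw [le_div_iff₀ pJ']
        linarith
      have d5 : |2 ^ W * (C.L (g ω) (F.x ω) (e j) - C.L (g ω) (F.x ω') (e j))| ≤ 7 / 2 ^ J' := by
        have e1 : (7 : ℝ) / 2 ^ J' = 1 / 2 ^ J' + 3 / 2 ^ J' + 3 / 2 ^ J' := by ring
        rw [e1]
        rw [abs_le] at d1 d2 d3 ⊢
        constructor <;> linarith [d1.1, d1.2, d2.1, d2.2, d3.1, d3.2]
      rw [abs_mul, abs_of_pos pW, le_div_iff₀ pJ'] at d5
      rw [le_div_iff₀ pJ, e1]
      linarith
    have h4 := hcel ω ω' (hBA ω hω) (hBA ω' hω') hTT hy (by rw [← hgv, ← hgv, c4]) (by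
      rw [← hgv]
      exact hL)
    rw [← hgv] at h4
    have d1 := zfc_x F h.le C g e ω k
    have d2 := zfc_x F h.le C g e ω' k
    rw [← c4, ← c5, ← c6, ← htb] at d2
    refine le_trans ?_ hX
    have h5 : |2 ^ W * (C.L (g ω) (F.x ω) (e k) - C.L (g ω) (F.x ω') (e k))| ≤ 2 ^ W * X := by
      rw [abs_mul, abs_of_pos pW]
      exact mul_le_mul_of_nonneg_left h4 pW.le
    have e2 : (6 : ℝ) / 2 ^ J' = 3 / 2 ^ J' + 3 / 2 ^ J' := by ring
    rw [e2]
    rw [abs_le] at d1 d2 h5 ⊢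
    constructor <;> linarith [d1.1, d1.2, d2.1, d2.2, h5.1, h5.2]

end Pool.BSM
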