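import Pool.Agent.H52.SUM.Clf

/-!
# Cells in the zooms of a class

`ClR`: the requirement for closed linear coordinates: the point is a Lipschitz function of the
coordinates of the zoom with a constant `4 * 2 ^ (h' J)`, and two samples with the same time, the same
value of a function which is closed at the window `b` and near slots in `I` have near slots `k`.
`cel_zpr`: then there are cells in the zooms, on a part `exp (- τ J)` of each large event.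
-/

set_option autoImplicit false

namespace Pool.BSM

open Finset Real MvPolynomial
open Pool.Agent.H49.Ent Pool.Agent.H32.Dense Pool.STK Pool.KA Pool.KSAT Pool.K2S Pool.PB Pool.S6C
open Pool.GEN Pool.ZCL Pool.TOP Pool.ZLC Pool.ONE Pool.ZCO
open Pool.ZFW (InvB pow_exp)

variable {m n : ℕ}

/-- **The requirement** of the cells. -/
def ClR (w₁ : ℝ) (e : Fin n → Fin m) (I : Finset (Fin n)) (k : Fin n) (b Q h' : ℝ) : DtP m :=
  fun J F A _ C z' =>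
  (∀ ω, A ω → InvB C e (z' (slam F ⌊w₁ * J⌋₊ ω)) (4 * 2 ^ ⌊h' * J⌋₊)) ∧
  ∃ (Y : Type) (y : PtT F → Y) (y' : LnT F → Y),
    (∀ ω, A ω → y (ptr F J ω) = y' (slam F ⌊b * J⌋₊ ω)) ∧
    ∀ ω ω', A ω → A ω' → F.T ω = F.T ω' → y' (slam F ⌊b * J⌋₊ ω) = y' (slam F ⌊b * J⌋₊ ω') →
      z' (slam F ⌊w₁ * J⌋₊ ω) = z' (slam F ⌊w₁ * J⌋₊ ω') →
      (∀ j ∈ I, |C.L (z' (slam F ⌊w₁ * J⌋₊ ω)) (F.x ω) (e j) -
        C.L (z' (slam F ⌊w₁ * J⌋₊ ω)) (F.x ω') (e j)| ≤ 7 / 2 ^ J) →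
      |C.L (z' (slam F ⌊w₁ * J⌋₊ ω)) (F.x ω) (e k) -
        C.L (z' (slam F ⌊w₁ * J⌋₊ ω)) (F.x ω') (e k)| ≤ 1 / 2 ^ ⌊Q * J⌋₊

/-- **Cells in the zooms.** -/
theorem cel_zpr {S : PCl m} {C₀ : ℝ} (hC₀ : 0 ≤ C₀) (htm : TmC S C₀) {w₁ b v Q q : ℝ}
    (hw0 : 0 < w₁) (hw1 : w₁ < 1) (hv0 : 0 < v) (hv1 : v ≤ 1) (hb : b < w₁ + v * (1 - w₁))
    (hwQ : w₁ < Q) (hq1 : q < 1) (hq : w₁ + q * (1 - w₁) < Q) (e : Fin n → Fin m)
    (I : Finset (Fin n)) (k : Fin n) {τ : ℝ} (hτ : 0 < τ) :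
    ∃ h' : ℝ, 0 < h' ∧ ZPr S w₁ e (ClR w₁ e I k b Q h') (fun J G A =>
      ∃ B : G.Ω → Prop, Sub B A ∧ Real.exp (-(τ * J)) * Pe G.p A ≤ Pe G.p B ∧
        Cel G I k ⌊v * J⌋₊ ⌊q * J⌋₊ B) := by
  classical
  have h01 : 0 < 1 - w₁ := by linarith
  obtain ⟨qp, hqp⟩ : ∃ qp : ℝ, qp = max q 0 := ⟨_, rfl⟩
  have hqp0 : 0 ≤ qp := by rw [hqp]; exact le_max_right _ _
  have hqp1 : qp < 1 := by rw [hqp]; exact max_lt hq1 one_pos
  have hqqp : q ≤ qp := by rw [hqp]; exact le_max_left _ _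
  have hqpQ : w₁ + qp * (1 - w₁) < Q := by
    rcases max_choice q 0 with h1 | h1
    · rw [hqp, h1]
      exact hq
    · rw [hqp, h1, zero_mul, add_zero]
      exact hwQ
  obtain ⟨δ, hδ⟩ : ∃ δ, δ = τ * (1 - w₁) / (4 * C₀ + 2) := ⟨_, rfl⟩
  have hδ0 : 0 < δ := by
    rw [hδ]
    positivity
  have hδ1 : (4 * C₀ + 2) * δ ≤ τ * (1 - w₁) := by
    rw [hδ]
    field_simp
    exact le_rfl
  obtain ⟨h', hh'⟩ : ∃ h' : ℝ, h' = δ / (m + 1) := ⟨_, rfl⟩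
  have hm1 : (0 : ℝ) < (m : ℝ) + 1 := by positivity
  have hh'0 : 0 < h' := by rw [hh']; positivity
  have hh'm : m * h' ≤ δ := by
    have e1 : ((m : ℝ) + 1) * h' = δ := by
      rw [hh']
      field_simp
    nlinarith
  obtain ⟨J₂, hJ₂⟩ := lin (6 * (m : ℝ)) hδ0
  obtain ⟨J₃, hJ₃⟩ := lin (2 : ℝ) (sub_pos.2 hb)
  obtain ⟨J₄, hJ₄⟩ := lin (2 : ℝ) (sub_pos.2 hqpQ)
  obtain ⟨J₅, hJ₅⟩ := lin (1 : ℝ) (mul_pos hv0 h01)
  obtain ⟨J₆, hJ₆⟩ := lin (3 : ℝ) (mul_pos (sub_pos.2 hqp1) h01)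
  refine ⟨h', hh'0, δ / 3, by linarith, δ, hδ0, max (max J₆ J₂) (max J₃ (max J₄ J₅)), ?_⟩
  intro J hJ F A hS κ C z z' _ hR hl J' hJ' B hBA hPB
  simp only [ge_iff_le, max_le_iff] at hJ
  obtain ⟨⟨hJ6, hJ2⟩, hJ3, hJ4, hJ5⟩ := hJ
  replace hJ2 := hJ₂ J hJ2
  replace hJ3 := hJ₃ J hJ3
  replace hJ4 := hJ₄ J hJ4
  replace hJ5 := hJ₅ J hJ5
  replace hJ6 := hJ₆ J hJ6
  have hJr : (0 : ℝ) ≤ J := Nat.cast_nonneg J
  obtain ⟨W, hW⟩ : ∃ W, W = ⌊w₁ * (J : ℝ)⌋₊ := ⟨_, rfl⟩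
  have hWr : (W : ℝ) ≤ w₁ * J := by rw [hW]; exact Nat.floor_le (by positivity)
  have hWr' : w₁ * (J : ℝ) < W + 1 := by rw [hW]; exact Nat.lt_floor_add_one _
  have hsum : (W : ℝ) + J' = J := by
    have : W + J' = J := by rw [hW]; exact hJ'
    exact_mod_cast this
  have hJ'0 : (0 : ℝ) ≤ J' := Nat.cast_nonneg J'
  have hJ'1 : (1 - w₁) * J ≤ (J' : ℝ) := by
    have : (1 - w₁) * (J : ℝ) = J - w₁ * J := by ring
    linarith
  have hJ'2 : (J' : ℝ) ≤ (1 - w₁) * J + 1 := by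
    have : (1 - w₁) * (J : ℝ) = J - w₁ * J := by ring
    linarith
  have hJ'J : (J' : ℝ) ≤ J := by
    have := Nat.cast_nonneg (α := ℝ) W
    linarith
  -- the event
  have hA0 : 0 ≤ Pe F.p A := Pe_nonneg F.isLaw A
  have hSB : S.St (δ + δ) J F B := by
    refine S.res hδ0.le hS hBA (le_trans ?_ hPB)
    refine mul_le_mul_of_nonneg_right (Real.exp_le_exp.2 ?_) hA0
    have e1 : 3 * (δ / 3) * (J' : ℝ) = δ * J' := by ring
    rw [e1]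
    have := mul_le_mul_of_nonneg_left hJ'J hδ0.le
    linarith
  obtain ⟨hB0, -⟩ := htm _ J F B (by linarith) hSB
  have hA0' : 0 < Pe F.p A := hB0.trans_le (Pe_mono F.isLaw hBA)
  -- the constants
  obtain ⟨μ, hμ⟩ : ∃ μ, μ = ⌊h' * (J : ℝ)⌋₊ := ⟨_, rfl⟩
  have hμr : (μ : ℝ) ≤ h' * J := by rw [hμ]; exact Nat.floor_le (by positivity)
  obtain ⟨Kc, hKc⟩ : ∃ Kc : ℕ, Kc = 28 * 2 ^ μ + 1 := ⟨_, rfl⟩
  have hKc1 : 7 * (4 * (2 : ℝ) ^ μ) + 1 ≤ Kc := by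
    rw [hKc]
    push_cast
    linarith
  have hloss : (2 * (Kc : ℝ) + 1) ^ m ≤ Real.exp (2 * δ * J) := by
    have h1 : 2 * (Kc : ℝ) + 1 ≤ 2 ^ (μ + 6) := by
      rw [hKc, pow_add]
      push_cast
      have : (1 : ℝ) ≤ 2 ^ μ := one_le_pow₀ one_le_two
      norm_num
      linarith
    calc (2 * (Kc : ℝ) + 1) ^ m ≤ (2 ^ (μ + 6)) ^ m :=
          pow_le_pow_left₀ (by positivity) h1 m
      _ = 2 ^ ((μ + 6) * m) := by rw [← pow_mul]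
      _ ≤ Real.exp (((μ + 6) * m : ℕ)) := pow_exp _
      _ ≤ Real.exp (2 * δ * J) := by
          refine Real.exp_le_exp.2 ?_
          push_cast
          have h2 : (μ : ℝ) * m ≤ δ * J := by
            calc (μ : ℝ) * m ≤ h' * J * m := mul_le_mul_of_nonneg_right hμr (Nat.cast_nonneg m)
              _ = m * h' * J := by ring
              _ ≤ δ * J := mul_le_mul_of_nonneg_right hh'm hJr
          linarith
  have hTm : ∀ B' : F.Ω → Prop, Sub B' B → Pe F.p B ≤ (2 * (Kc : ℝ) + 1) ^ m * Pe F.p B' →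
      ∀ hl : IsLaw (Pool.Agent.H49.Ent.cond F.p B' True),
        (F.res B' True hl).Tm (C₀ * (4 * δ) * J) := by
    intro B' hB' hPB' hl
    have h1 : S.St (δ + δ + 2 * δ) J F B' := by
      refine S.res (by linarith) hSB hB' ?_
      have h2 : Pe F.p B ≤ Real.exp (2 * δ * J) * Pe F.p B' :=
        hPB'.trans (mul_le_mul_of_nonneg_right hloss (Pe_nonneg F.isLaw _))
      have h3 := mul_le_mul_of_nonneg_left h2 (Real.exp_pos (-(2 * δ * J))).le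
      rw [← mul_assoc, ← Real.exp_add, neg_add_cancel, Real.exp_zero, one_mul] at h3
      exact h3
    have e1 : δ + δ + 2 * δ = 4 * δ := by ring
    rw [e1] at h1
    exact (htm _ J F B' (by linarith) h1).2 hl
  -- the windows
  obtain ⟨V, hVd⟩ : ∃ V, V = ⌊v * (J' : ℝ)⌋₊ := ⟨_, rfl⟩
  have hVJ : V ≤ J' := by
    rw [hVd]
    refine Nat.floor_le_of_le ?_
    have := mul_le_mul_of_nonneg_right hv1 hJ'0
    linarith
  have hV1 : v * (J' : ℝ) < V + 1 := by rw [hVd]; exact Nat.lt_floor_add_one _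
  have hvJ : v * (1 - w₁) * J ≤ v * (J' : ℝ) := by
    have := mul_le_mul_of_nonneg_left hJ'1 hv0.le
    linarith
  have hWV : W + V ≤ J := by
    have : W + J' = J := by rw [hW]; exact hJ'
    omega
  have hwin : ⌊b * (J : ℝ)⌋₊ ≤ W + V := by
    refine Nat.floor_le_of_le ?_
    push_cast
    have e2 : (w₁ + v * (1 - w₁) - b) * (J : ℝ) = w₁ * J + v * (1 - w₁) * J - b * J := by ring
    linarith
  -- the precision
  obtain ⟨P', hP'd⟩ : ∃ P', P' = ⌊q * (J' : ℝ)⌋₊ := ⟨_, rfl⟩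
  have hP'r : (P' : ℝ) ≤ qp * J' := by
    rw [hP'd]
    refine le_trans (Nat.cast_le.2 (Nat.floor_le_floor (mul_le_mul_of_nonneg_right hqqp hJ'0))) ?_
    exact Nat.floor_le (by positivity)
  have hqJ : qp * (J' : ℝ) ≤ qp * (1 - w₁) * J + 1 := by
    have h1 := mul_le_mul_of_nonneg_left hJ'2 hqp0
    have e1 : qp * ((1 - w₁) * (J : ℝ) + 1) = qp * (1 - w₁) * J + qp := by ring
    linarith
  have hexp : W + P' ≤ ⌊Q * (J : ℝ)⌋₊ := by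
    refine Nat.le_floor ?_
    push_cast
    have e2 : (Q - (w₁ + qp * (1 - w₁))) * (J : ℝ) = Q * J - w₁ * J - qp * (1 - w₁) * J := by ring
    linarith
  have hP'3 : P' + 3 ≤ J' := by
    have h1 : ((P' + 3 : ℕ) : ℝ) ≤ J' := by
      push_cast
      have h2 : (1 - qp) * (1 - w₁) * J ≤ (1 - qp) * (J' : ℝ) := by
        have := mul_le_mul_of_nonneg_left hJ'1 (show 0 ≤ 1 - qp by linarith)
        linarith
      have e2 : (1 - qp) * (J' : ℝ) = J' - qp * J' := by ring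
      linarith
    exact_mod_cast h1
  have hX : 2 ^ W * (1 / 2 ^ ⌊Q * (J : ℝ)⌋₊) + 6 / 2 ^ J' ≤ (2 : ℝ) / 2 ^ P' := by
    have h1 : (2 : ℝ) ^ W * (1 / 2 ^ ⌊Q * (J : ℝ)⌋₊) ≤ 1 / 2 ^ P' := by
      rw [mul_one_div, div_le_div_iff₀ (by positivity) (by positivity), one_mul, ← pow_add]
      exact pow_le_pow_right₀ one_le_two hexp
    have h2 : (6 : ℝ) / 2 ^ J' ≤ 1 / 2 ^ P' := by
      rw [div_le_div_iff₀ (by positivity) (by positivity), one_mul]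
      calc (6 : ℝ) * 2 ^ P' ≤ 2 ^ 3 * 2 ^ P' := mul_le_mul_of_nonneg_right (by norm_num)
            (by positivity)
        _ = 2 ^ (P' + 3) := by rw [pow_add]; ring
        _ ≤ 2 ^ J' := pow_le_pow_right₀ one_le_two hP'3
    have e1 : (2 : ℝ) / 2 ^ P' = 1 / 2 ^ P' + 1 / 2 ^ P' := by ring
    linarith
  -- the requirement
  subst hW
  obtain ⟨hinv, Y, y, y', hcl, hcel⟩ := hR
  have ey : ∀ ω, y' ((slam F (⌊w₁ * (J : ℝ)⌋₊ + V) ω).1, (slam F (⌊w₁ * (J : ℝ)⌋₊ + V) ω).2.1,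
      (slam F (⌊w₁ * (J : ℝ)⌋₊ + V) ω).2.2 / 2 ^ (⌊w₁ * (J : ℝ)⌋₊ + V - ⌊b * (J : ℝ)⌋₊)) =
      y' (slam F ⌊b * (J : ℝ)⌋₊ ω) := fun ω => by rw [← slam_coarse F hwin hWV ω]
  obtain ⟨B₁, hB₁, hPB₁, hG⟩ := cel_zfc F hJ' hVJ C z' e (A := B) (Q := 4 * 2 ^ μ)
    (fun ω hω => by
      rw [hμ]
      exact hinv ω (hBA ω hω)) hKc1 hB0 (b := C₀ * (4 * δ) * J) hTm (y := y)
    (y' := fun s => y' (s.1, s.2.1, s.2.2 / 2 ^ (⌊w₁ * (J : ℝ)⌋₊ + V - ⌊b * (J : ℝ)⌋₊)))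
    (fun ω hω => (hcl ω (hBA ω hω)).trans (ey ω).symm) (I := I) (k := k) (P' := P') (X := 1 / 2 ^ ⌊Q * (J : ℝ)⌋₊)
    (fun ω ω' h1 h2 h3 h4 h5 h6 => by
      simp only [ey] at h4
      exact hcel ω ω' (hBA ω h1) (hBA ω' h2) h3 h4 h5 h6) hX
  refine ⟨B₁, hB₁, ?_, ?_⟩
  · have hsupp : ∀ D : F.Ω → Prop, Sub D B → Pe F.p (fun ω => A ω ∧ D ω) = Pe F.p D := by
      intro D hD
      congr 1
      funext ω
      exact propext ⟨fun h => h.2, fun h => ⟨hBA ω (hD ω h), h⟩⟩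
    change Real.exp (-(τ * J')) * Pe (Pool.Agent.H49.Ent.cond F.p A True) B ≤
      Pe (Pool.Agent.H49.Ent.cond F.p A True) B₁
    rw [Pe_cond, Pe_cond, hsupp B (fun _ h => h), hsupp B₁ hB₁, mul_div_assoc']
    refine div_le_div_of_nonneg_right ?_ hA0
    have h1 : Real.exp (-(C₀ * (4 * δ) * J)) * Pe F.p B ≤ Real.exp (2 * δ * J) * Pe F.p B₁ :=
      hPB₁.trans (mul_le_mul_of_nonneg_right hloss (Pe_nonneg F.isLaw _))
    have h3 := mul_le_mul_of_nonneg_left h1 (Real.exp_pos (-(2 * δ * J))).le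
    have e3 : Real.exp (-(2 * δ * J)) * (Real.exp (2 * δ * J) * Pe F.p B₁) = Pe F.p B₁ := by
      rw [← mul_assoc, ← Real.exp_add, neg_add_cancel, Real.exp_zero, one_mul]
    have e4 : Real.exp (-(2 * δ * J)) * (Real.exp (-(C₀ * (4 * δ) * J)) * Pe F.p B) =
        Real.exp (-(2 * δ * J) + -(C₀ * (4 * δ) * J)) * Pe F.p B := by
      rw [← mul_assoc, ← Real.exp_add]
    rw [e3, e4] at h3
    refine le_trans (mul_le_mul_of_nonneg_right (Real.exp_le_exp.2 ?_) hB0.le) h3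
    have h4 : (4 * C₀ + 2) * δ * J ≤ τ * J' := by
      calc (4 * C₀ + 2) * δ * J ≤ τ * (1 - w₁) * J := mul_le_mul_of_nonneg_right hδ1 hJr
        _ = τ * ((1 - w₁) * J) := by ring
        _ ≤ τ * J' := mul_le_mul_of_nonneg_left hJ'1 hτ.le
    have e1 : -(2 * δ * (J : ℝ)) + -(C₀ * (4 * δ) * J) = -((4 * C₀ + 2) * δ * J) := by ring
    rw [e1]
    linarith
  · rw [← hVd, ← hP'd]
    obtain ⟨V₂, ζ, ζ', g1, g2⟩ := hG
    exact ⟨V₂, ζ, ζ', g1, g2⟩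

end Pool.BSM
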