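import Pool.Agent.H52.SUM.Vol
import Pool.Agent.H77.Z3.Zbb

/-!
# The volume of the natural boxes

`nbx_vol`: if an affine map sends the natural box of a chain of all the coordinates to points near
the labels of another chain of all the coordinates, then the sums of the precisions are compared.
`zmp_vol`: the sheared zoom.
-/

set_option autoImplicit false

namespace Pool.SUM52

open MeasureTheory Finset MvPolynomial
open Pool.GEN Pool.CHT Pool.CHX Pool.ZLC Pool.ZCL Pool.Z3 Pool.KA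

/-- The point with the time `t` and the coordinates `x`. -/
def pto {n : ℕ} (t : ℝ) (x : Fin n → ℝ) : Option (Fin n) → ℝ
  | none => t
  | some i => x i

theorem pto_meas {n : ℕ} (t : ℝ) (P : MvPolynomial (Option (Fin n)) ℝ) :
    Measurable fun x : Fin n → ℝ => eval (pto t x) P := by
  induction P using MvPolynomial.induction_on with
  | C a =>
    simp only [eval_C]
    exact measurable_const
  | add p q hp hq =>
    simp only [map_add]
    exact hp.add hq
  | mul_X p o hp =>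
    simp only [map_mul, eval_X]
    refine hp.mul ?_
    rcases o with _ | i
    · exact measurable_const
    · exact measurable_pi_apply i

/-- **The volume of the natural boxes**, an affine map. -/
theorem nbx_vol {n : ℕ} {c c' : ℕ → Fin n} (hc : Set.InjOn c (Set.Iio n))
    (hc' : Set.InjOn c' (Set.Iio n)) {T G' : ℕ → MvPolynomial (Option (Fin n)) ℝ}
    (hT : ∀ l, DepC c l (T l)) (hG : ∀ l, DepC c' l (G' l)) {g g' : ℕ → ℕ} {a : ℕ} {t t' : ℝ}
    {X : ℕ} (A : (Fin n → ℝ) →ₗ[ℝ] Fin n → ℝ) {D : ℝ} (hD : 0 < D) (hdet : |LinearMap.det A| = D)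
    (β : Fin n → ℝ) {e : Fin n → Fin n} (he : Function.Injective e)
    (h : ∀ x : Fin n → ℝ, NBx c T g a t n (pto t x) → ∀ j < n,
      |(A x + β) (e (c' j)) - eval (pto t' fun k => (A x + β) (e k)) (G' j)| ≤
        2 ^ X / 2 ^ g' j) :
    D * 2 ^ (∑ j ∈ range n, g' j) ≤ 2 ^ (∑ l ∈ range n, g l + n * X) := by
  have h1 := vol_le (c := c) (c' := fun j => e (c' j)) (f := fun l x => eval (pto t x) (T l))
    (f' := fun j y => eval (pto t' fun k => y (e k)) (G' j)) (δ := fun l => 1 / 2 ^ g l)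
    (δ' := fun j => 2 ^ X / 2 ^ g' j) hc (fun i hi j hj hij => hc' hi hj (he hij))
    (fun l => pto_meas t _)
    (fun l => (pto_meas t' _).comp (measurable_pi_lambda _ fun k => measurable_pi_apply (e k)))
    (fun l x y hxy => hT l _ _ rfl fun l' hl' => hxy l' hl')
    (fun l x y hxy => hG l _ _ rfl fun l' hl' => hxy l' hl') (fun l => by positivity)
    (fun l => by positivity) A hD hdet β (fun x hx j hj => h x ⟨by
      show |t - t| ≤ _
      rw [sub_self, abs_zero]
      positivity, hx⟩ j hj)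
  rw [prod_div_distrib, prod_div_distrib, prod_const_one, prod_const, card_range,
    prod_pow_eq_pow_sum, prod_pow_eq_pow_sum, ← pow_mul, mul_one_div,
    div_le_div_iff₀ (by positivity) (by positivity), ← pow_add] at h1
  rwa [add_comm, mul_comm n X]

/-- The matrix of the sheared zoom. -/
noncomputable def shM {V : Type} {n : ℕ} (cb : V → Fin n → ℝ) (u : Fin n) (Lt : Finset (Fin n))
    (M : Fin n → ℕ) (w : ℕ) (v : V) : Matrix (Fin n) (Fin n) ℝ :=
  Matrix.diagonal (fun i => if i ∈ Lt then (2 : ℝ) ^ w / 2 ^ M i else 2 ^ w) *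
    (1 + Matrix.vecMulVec (fun i => if i ∈ Lt then -clp (M i) (cb v i) else 0) (Pi.single u 1))

theorem shM_det {V : Type} {n : ℕ} (cb : V → Fin n → ℝ) {u : Fin n} {Lt : Finset (Fin n)}
    (hu : u ∉ Lt) (M : Fin n → ℕ) (w : ℕ) (v : V) :
    (shM cb u Lt M w v).det = 2 ^ (w * n) / 2 ^ (∑ i ∈ Lt, M i) := by
  unfold shM
  rw [Matrix.det_mul, Matrix.det_diagonal, Matrix.vecMulVec_eq Unit,
    Matrix.det_one_add_replicateCol_mul_replicateRow, single_dotProduct, if_neg hu, mul_zero,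
    add_zero, mul_one]
  have h1 : ∀ i : Fin n, (if i ∈ Lt then (2 : ℝ) ^ w / 2 ^ M i else 2 ^ w) =
      2 ^ w / (if i ∈ Lt then 2 ^ M i else 1) := by
    intro i
    split_ifs
    · rfl
    · rw [div_one]
  rw [prod_congr rfl fun i _ => h1 i, prod_div_distrib, prod_const, card_univ, Fintype.card_fin,
    ← pow_mul, Finset.prod_ite_mem, univ_inter, prod_pow_eq_pow_sum]

theorem shM_app {V : Type} {n : ℕ} (cb : V → Fin n → ℝ) (u : Fin n) (Lt : Finset (Fin n))
    (M : Fin n → ℕ) (w : ℕ) (v : V) (x : Fin n → ℝ) (i : Fin n) :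
    Matrix.toLin' (shM cb u Lt M w v) x i = (if i ∈ Lt then (2 : ℝ) ^ w / 2 ^ M i else 2 ^ w) *
      (x i + (if i ∈ Lt then -clp (M i) (cb v i) else 0) * x u) := by
  unfold shM
  rw [Matrix.toLin'_apply, ← Matrix.mulVec_mulVec, Matrix.mulVec_diagonal, Matrix.add_mulVec,
    Matrix.one_mulVec, Matrix.vecMulVec_mulVec]
  simp [single_dotProduct, mul_comm]

/-- **The volume of the natural boxes**, the sheared zoom. -/
theorem zmp_vol {V : Type} {n : ℕ} {cb : V → Fin n → ℝ} {u : Fin n} {Lt : Finset (Fin n)}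
    (hu : u ∉ Lt) {M : Fin n → ℕ} {w : ℕ} {e : Fin n → Fin n} (he : Function.Injective e)
    {T₁ : ℕ} {v : V} {p q : Fin n → ℤ} {c c' : ℕ → Fin n} (hc : Set.InjOn c (Set.Iio n))
    (hc' : Set.InjOn c' (Set.Iio n)) {T G' : ℕ → MvPolynomial (Option (Fin n)) ℝ}
    (hT : ∀ l, DepC c l (T l)) (hG : ∀ l, DepC c' l (G' l)) {g g' : ℕ → ℕ} {a : ℕ} {t : ℝ}
    {X : ℕ} (h : ∀ b, NBx c T g a t n b → ∀ j < n,
      |zmp cb u Lt M w e T₁ v p q b (some (c' j)) - eval (zmp cb u Lt M w e T₁ v p q b) (G' j)| ≤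
        2 ^ X / 2 ^ g' j) :
    w * n + ∑ j ∈ range n, g' j ≤ ∑ l ∈ range n, g l + ∑ i ∈ Lt, M i + n * X := by
  have hD : (0 : ℝ) < 2 ^ (w * n) / 2 ^ (∑ i ∈ Lt, M i) := by positivity
  obtain ⟨β, hβ⟩ : ∃ β : Fin n → ℝ, β = fun i => -(p i : ℝ) - (2 ^ w * t - T₁) * q i := ⟨_, rfl⟩
  obtain ⟨A, hA⟩ : ∃ A, A = Matrix.toLin' (shM cb u Lt M w v) := ⟨_, rfl⟩
  have hZ : ∀ x k, zmp cb u Lt M w e T₁ v p q (pto t x) (some k) = (A x + β) (e k) := by
    intro x k
    rw [Pi.add_apply, hA, shM_app, hβ]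
    by_cases hk : e k ∈ Lt
    · rw [zmp_mem hk, if_pos hk, if_pos hk]
      show 2 ^ w * (1 / 2 ^ M (e k) * (x (e k) - clp (M (e k)) (cb v (e k)) * x u)) - p (e k) -
        (2 ^ w * t - T₁) * q (e k) = _
      ring
    · rw [zmp_not hk, if_neg hk, if_neg hk]
      show 2 ^ w * x (e k) - p (e k) - (2 ^ w * t - T₁) * q (e k) = _
      ring
  have hZ' : ∀ x, zmp cb u Lt M w e T₁ v p q (pto t x) =
      pto (2 ^ w * t - T₁) fun k => (A x + β) (e k) := by
    intro x
    funext o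
    rcases o with _ | k
    · exact zmp_none _
    · exact hZ x k
  have h1 := nbx_vol hc hc' hT hG (X := X) (g := g) (g' := g') (a := a) (t := t)
    (t' := 2 ^ w * t - T₁) A hD (by
      rw [hA, LinearMap.det_toLin', shM_det cb hu M w v, abs_of_pos hD]) β he (fun x hx j hj => by
      have h2 := h (pto t x) hx j hj
      rwa [hZ' x] at h2)
  rw [div_mul_eq_mul_div, div_le_iff₀ (by positivity), ← pow_add, ← pow_add] at h1
  have h2 := (pow_le_pow_iff_right₀ (by norm_num : (1 : ℝ) < 2)).1 h1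
  omega

end Pool.SUM52
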