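import Mathlib

/-!
# The volume of a triangular box

`mp_shear`: an elementary shear preserves the measure. `mp_tri`: a triangular map preserves the
measure. `vol_tri`: the volume of a triangular box. `vol_le`: a triangular box whose affine image
lies in a triangular box.
-/

set_option autoImplicit false

namespace Pool.SUM52

open MeasureTheory

/-- **An elementary shear** preserves the measure. -/
theorem mp_shear {n : ℕ} (i : Fin n) {f : (Fin n → ℝ) → ℝ} (hf : Measurable f)
    (hi : ∀ x y, (∀ j, j ≠ i → x j = y j) → f x = f y) :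
    MeasurePreserving (fun x : Fin n → ℝ => Function.update x i (x i - f x)) volume volume := by
  obtain _ | n := n
  · exact i.elim0
  obtain ⟨e, he⟩ : ∃ e, e = MeasurableEquiv.piFinSuccAbove (fun _ => ℝ) i := ⟨_, rfl⟩
  have hmp : MeasurePreserving e volume volume := by
    rw [he]
    exact volume_preserving_piFinSuccAbove (fun _ => ℝ) i
  have hg : Measurable (Function.uncurry fun (r : Fin n → ℝ) (a : ℝ) => a - f (e.symm (0, r))) := by
    have h1 : Measurable fun p : (Fin n → ℝ) × ℝ => e.symm (0, p.1) :=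
      e.symm.measurable.comp (measurable_const.prodMk measurable_fst)
    exact measurable_snd.sub (hf.comp h1)
  have h2 : MeasurePreserving (fun p : (Fin n → ℝ) × ℝ => (p.1, p.2 - f (e.symm (0, p.1))))
      (volume.prod volume) (volume.prod volume) := by
    refine (MeasurePreserving.id volume).skew_product hg (Filter.Eventually.of_forall fun r => ?_)
    exact (measurePreserving_sub_right volume (f (e.symm (0, r)))).map_eq
  have h3 : MeasurePreserving (fun p : ℝ × (Fin n → ℝ) => (p.1 - f (e.symm (0, p.2)), p.2))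
      (volume.prod volume) (volume.prod volume) := by
    have h4 : MeasurePreserving (Prod.swap : (Fin n → ℝ) × ℝ → ℝ × (Fin n → ℝ))
        (volume.prod volume) (volume.prod volume) := Measure.measurePreserving_swap
    have h5 : MeasurePreserving (Prod.swap : ℝ × (Fin n → ℝ) → (Fin n → ℝ) × ℝ)
        (volume.prod volume) (volume.prod volume) := Measure.measurePreserving_swap
    exact h4.comp (h2.comp h5)
  have h6 := (hmp.symm e).comp (h3.comp hmp)
  have h7 : (fun x : Fin (n + 1) → ℝ => Function.update x i (x i - f x)) =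
      e.symm ∘ (fun p : ℝ × (Fin n → ℝ) => (p.1 - f (e.symm (0, p.2)), p.2)) ∘ e := by
    funext x
    have h8 : e x = (x i, fun j => x (i.succAbove j)) := by
      rw [he]
      rfl
    have h9 : ∀ a, e.symm (a, fun j => x (i.succAbove j)) = Function.update x i a := by
      intro a
      rw [MeasurableEquiv.symm_apply_eq, he]
      refine Prod.ext ?_ ?_
      · show a = Function.update x i a i
        rw [Function.update_self]
      · show (fun j => x (i.succAbove j)) = fun j => Function.update x i a (i.succAbove j)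
        funext j
        rw [Function.update_of_ne (Fin.succAbove_ne i j)]
    show _ = e.symm ((e x).1 - f (e.symm (0, (e x).2)), (e x).2)
    rw [h8]
    simp only
    rw [h9, h9, hi (Function.update x i 0) x fun j hj => by rw [Function.update_of_ne hj]]
  rw [h7]
  exact h6

/-- **A triangular map** preserves the measure. -/
theorem mp_tri {n : ℕ} {c : ℕ → Fin n} (hc : Set.InjOn c (Set.Iio n))
    {f : ℕ → (Fin n → ℝ) → ℝ} (hf : ∀ l, Measurable (f l))
    (hd : ∀ l x y, (∀ l' < l, x (c l') = y (c l')) → f l x = f l y) :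
    ∀ k ≤ n, ∃ Φ : (Fin n → ℝ) → Fin n → ℝ, MeasurePreserving Φ volume volume ∧
      ∀ x, (∀ l < n - k, Φ x (c l) = x (c l)) ∧
        ∀ l < n, n - k ≤ l → Φ x (c l) = x (c l) - f l x := by
  intro k
  induction k with
  | zero =>
    intro _
    exact ⟨id, MeasurePreserving.id _, fun x => ⟨fun _ _ => rfl, fun l h1 h2 => by omega⟩⟩
  | succ k ih =>
    intro hk
    obtain ⟨Φ, h1, h2⟩ := ih (by omega)
    obtain ⟨l₀, hl₀⟩ : ∃ l₀, l₀ = n - (k + 1) := ⟨_, rfl⟩
    have hln : l₀ < n := by omega
    have hinj : ∀ l < n, l ≠ l₀ → c l ≠ c l₀ := fun l hl hne h => hne (hc hl hln h)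
    have h3 := mp_shear (c l₀) (hf l₀) fun x y hxy => hd l₀ x y fun l' hl' =>
      hxy _ (hinj l' (by omega) (by omega))
    refine ⟨_, h3.comp h1, fun x => ⟨fun l hl => ?_, fun l hl hl' => ?_⟩⟩
    · show Function.update (Φ x) (c l₀) _ (c l) = _
      rw [Function.update_of_ne (hinj l (by omega) (by omega))]
      exact (h2 x).1 l (by omega)
    · show Function.update (Φ x) (c l₀) _ (c l) = _
      rcases eq_or_ne l l₀ with h4 | h4
      · subst h4
        rw [Function.update_self, (h2 x).1 l (by omega)]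
        congr 1
        exact hd l _ _ fun l' hl' => (h2 x).1 l' (by omega)
      · rw [Function.update_of_ne (hinj l hl h4)]
        exact (h2 x).2 l hl (by omega)

/-- A list of all the coordinates as a permutation. -/
theorem perm_of {n : ℕ} {c : ℕ → Fin n} (hc : Set.InjOn c (Set.Iio n)) :
    ∃ σ : Equiv.Perm (Fin n), ∀ l : Fin n, σ l = c l := by
  have h1 : Function.Injective fun l : Fin n => c l := fun a b h =>
    Fin.ext (hc a.2 b.2 h)
  exact ⟨Equiv.ofBijective _ (Finite.injective_iff_bijective.1 h1), fun l => rfl⟩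

/-- **The volume of a triangular box.** -/
theorem vol_tri {n : ℕ} {c : ℕ → Fin n} (hc : Set.InjOn c (Set.Iio n))
    {f : ℕ → (Fin n → ℝ) → ℝ} (hf : ∀ l, Measurable (f l))
    (hd : ∀ l x y, (∀ l' < l, x (c l') = y (c l')) → f l x = f l y) (δ : ℕ → ℝ) :
    volume {x : Fin n → ℝ | ∀ l < n, |x (c l) - f l x| ≤ δ l} =
      ∏ l : Fin n, ENNReal.ofReal (2 * δ l) := by
  obtain ⟨Φ, h1, h2⟩ := mp_tri hc hf hd n le_rfl
  obtain ⟨σ, hσ⟩ := perm_of hc
  have h3 : {x : Fin n → ℝ | ∀ l < n, |x (c l) - f l x| ≤ δ l} =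
      Φ ⁻¹' (Set.Icc (fun i => -δ (σ.symm i)) fun i => δ (σ.symm i)) := by
    ext x
    constructor
    · intro hx
      refine ⟨fun i => ?_, fun i => ?_⟩
      all_goals
        have h4 := hx (σ.symm i) (σ.symm i).2
        have h5 := (h2 x).2 (σ.symm i) (σ.symm i).2 (by omega)
        rw [← hσ, Equiv.apply_symm_apply] at h4 h5
        rw [← h5] at h4
      · exact (abs_le.1 h4).1
      · exact (abs_le.1 h4).2
    · intro hx l hl
      have h4 := hx.1 (c l)
      have h4' := hx.2 (c l)
      have h5 : σ.symm (c l) = ⟨l, hl⟩ := by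
        rw [Equiv.symm_apply_eq]
        exact (hσ ⟨l, hl⟩).symm
      have h6 := (h2 x).2 l hl (by omega)
      simp only [h5] at h4 h4'
      rw [← h6, abs_le]
      exact ⟨h4, h4'⟩
  rw [h3, h1.measure_preimage measurableSet_Icc.nullMeasurableSet, Real.volume_Icc_pi]
  rw [← Equiv.prod_comp σ]
  refine Finset.prod_congr rfl fun l _ => ?_
  simp only [Equiv.symm_apply_apply]
  congr 1
  ring

/-- **A triangular box whose affine image lies in a triangular box.** -/
theorem vol_le {n : ℕ} {c c' : ℕ → Fin n} (hc : Set.InjOn c (Set.Iio n))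
    (hc' : Set.InjOn c' (Set.Iio n)) {f f' : ℕ → (Fin n → ℝ) → ℝ} (hf : ∀ l, Measurable (f l))
    (hf' : ∀ l, Measurable (f' l))
    (hd : ∀ l x y, (∀ l' < l, x (c l') = y (c l')) → f l x = f l y)
    (hd' : ∀ l x y, (∀ l' < l, x (c' l') = y (c' l')) → f' l x = f' l y) {δ δ' : ℕ → ℝ}
    (hδ : ∀ l, 0 ≤ δ l) (hδ' : ∀ l, 0 ≤ δ' l) (A : (Fin n → ℝ) →ₗ[ℝ] Fin n → ℝ) {D : ℝ}
    (hD : 0 < D) (hdet : |LinearMap.det A| = D) (β : Fin n → ℝ)
    (h : ∀ x : Fin n → ℝ, (∀ l < n, |x (c l) - f l x| ≤ δ l) →
      ∀ l < n, |(A x + β) (c' l) - f' l (A x + β)| ≤ δ' l) :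
    D * ∏ l ∈ Finset.range n, δ l ≤ ∏ l ∈ Finset.range n, δ' l := by
  have h0 : LinearMap.det A ≠ 0 := by
    intro h1
    rw [h1, abs_zero] at hdet
    exact hD.ne hdet
  obtain ⟨s', hs'⟩ : ∃ s' : Set (Fin n → ℝ), s' = {x | ∀ l < n, |x (c' l) - f' l x| ≤ δ' l} :=
    ⟨_, rfl⟩
  have h1 : {x : Fin n → ℝ | ∀ l < n, |x (c l) - f l x| ≤ δ l} ⊆
      A ⁻¹' ((fun y => y + β) ⁻¹' s') := by
    intro x hx
    rw [hs']
    exact h x hx
  have h2 := measure_mono (μ := volume) h1
  rw [Measure.addHaar_preimage_linearMap volume h0, measure_preimage_add_right, hs',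
    vol_tri hc hf hd, vol_tri hc' hf' hd', ← ENNReal.ofReal_prod_of_nonneg (fun l _ => by
      have := hδ l
      linarith), ← ENNReal.ofReal_prod_of_nonneg (fun l _ => by
      have := hδ' l
      linarith), abs_inv, hdet, ← ENNReal.ofReal_mul (by positivity),
    ENNReal.ofReal_le_ofReal_iff (mul_nonneg (by positivity) (Finset.prod_nonneg fun l _ => by
      have := hδ' l
      linarith)), Finset.prod_mul_distrib, Finset.prod_mul_distrib,
    ← Finset.prod_range fun l => δ l, ← Finset.prod_range fun l => δ' l] at h2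
  have h3 : (0 : ℝ) < ∏ _l : Fin n, 2 := Finset.prod_pos fun _ _ => two_pos
  have h4 : (∏ _l : Fin n, (2 : ℝ)) * (D * ∏ l ∈ Finset.range n, δ l) ≤
      (∏ _l : Fin n, (2 : ℝ)) * ∏ l ∈ Finset.range n, δ' l := by
    have h5 := mul_le_mul_of_nonneg_left h2 hD.le
    rw [mul_inv_cancel_left₀ hD.ne'] at h5
    linarith
  exact le_of_mul_le_mul_left h4 h3

end Pool.SUM52
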